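import Pool.Agent.Lib.H90M.F2

/-!
# B1 (M/L): Bezout for two binary forms without common zero
-/

namespace Pool.Agent.Lib.H90M

open MvPolynomial Polynomial

variable {d : ℕ}

private noncomputable def B1_hom (d : ℕ) (p : Polynomial ℂ) (x y : ℂ) : ℂ :=
  ∑ k : Fin (d + 1), p.coeff k * x ^ (k : ℕ) * y ^ (d - (k : ℕ))

private theorem B1_ne {d : ℕ} {p : Polynomial ℂ} (hp : p.natDegree ≤ d) (x : ℂ) {y : ℂ} (hy : y ≠ 0) :
    B1_hom d p x y = y ^ d * p.eval (x / y) := by
  rw [Polynomial.eval_eq_sum_range' (Nat.lt_succ_of_le hp), Finset.mul_sum, B1_hom,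
    ← Fin.sum_univ_eq_sum_range (fun k => y ^ d * (p.coeff k * (x / y) ^ k)) (d + 1)]
  refine Finset.sum_congr rfl fun k _ => ?_
  have hk : (k : ℕ) ≤ d := Nat.lt_succ_iff.1 k.2
  have h1 : y ^ d = y ^ (k : ℕ) * y ^ (d - (k : ℕ)) := by
    rw [← pow_add, Nat.add_sub_cancel' hk]
  rw [h1, div_pow]
  field_simp

private theorem B1_zero (d : ℕ) (p : Polynomial ℂ) (x : ℂ) : B1_hom d p x 0 = p.coeff d * x ^ d := by
  unfold B1_hom
  rw [Fin.sum_univ_castSucc]
  have h1 : ∑ k : Fin d, p.coeff (k.castSucc : ℕ) * x ^ (k.castSucc : ℕ) *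
      (0 : ℂ) ^ (d - (k.castSucc : ℕ)) = 0 := by
    refine Finset.sum_eq_zero fun k _ => ?_
    have h2 : d - (k.castSucc : ℕ) ≠ 0 := by
      have := k.2
      simp only [Fin.val_castSucc]
      omega
    rw [zero_pow h2, mul_zero]
  rw [h1, zero_add]
  simp

private theorem B1_mul {d e : ℕ} {p r : Polynomial ℂ} (hp : p.natDegree ≤ d) (hr : r.natDegree ≤ e)
    (x y : ℂ) : B1_hom d p x y * B1_hom e r x y = B1_hom (d + e) (p * r) x y := by
  by_cases hy : y = 0
  · rw [hy, B1_zero, B1_zero, B1_zero, Polynomial.coeff_mul_add_eq_of_natDegree_le hp hr]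
    ring
  · rw [B1_ne hp x hy, B1_ne hr x hy,
      B1_ne (Polynomial.natDegree_mul_le.trans (add_le_add hp hr)) x hy, Polynomial.eval_mul]
    ring

private theorem B1_sub (d : ℕ) (p r : Polynomial ℂ) (x y : ℂ) :
    B1_hom d (p - r) x y = B1_hom d p x y - B1_hom d r x y := by
  unfold B1_hom
  rw [← Finset.sum_sub_distrib]
  refine Finset.sum_congr rfl fun k _ => ?_
  rw [Polynomial.coeff_sub]
  ring

private noncomputable def B1_pol {m : ℕ} (a : Fin (m + 1) → ℂ) : Polynomial ℂ :=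
  ∑ k : Fin (m + 1), Polynomial.monomial (k : ℕ) (a k)

private theorem B1_coeff {m : ℕ} (a : Fin (m + 1) → ℂ) (k : Fin (m + 1)) :
    (B1_pol a).coeff (k : ℕ) = a k := by
  unfold B1_pol
  rw [Polynomial.finsetSum_coeff, Finset.sum_eq_single k]
  · rw [Polynomial.coeff_monomial, if_pos rfl]
  · intro l _ hl
    rw [Polynomial.coeff_monomial, if_neg]
    intro h
    exact hl (Fin.ext h)
  · intro h
    exact absurd (Finset.mem_univ k) h

private theorem B1_deg {m : ℕ} (a : Fin (m + 1) → ℂ) : (B1_pol a).natDegree ≤ m := by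
  unfold B1_pol
  refine Polynomial.natDegree_sum_le_of_forall_le _ _ fun k _ => ?_
  exact (Polynomial.natDegree_monomial_le _).trans (Nat.lt_succ_iff.1 k.2)

private theorem B1_app (F : Fin 2 × Fin (d + 1) → ℂ) (q : Fin 2 → ℂ) (i : Fin 2) :
    app F q i = B1_hom d (B1_pol fun k => F (i, k)) (q 0) (q 1) := by
  unfold app B1_hom
  refine Finset.sum_congr rfl fun k _ => ?_
  rw [B1_coeff]

private theorem B1_core {d : ℕ} (hd : 1 ≤ d) {a b h : Polynomial ℂ} (hab : IsCoprime a b)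
    (ha : a.natDegree = d) (hb : b.natDegree ≤ d) (hh : h.natDegree ≤ 2 * d) :
    ∃ x y : Polynomial ℂ, x.natDegree ≤ d ∧ y.natDegree ≤ d ∧ x * b - y * a = h := by
  obtain ⟨u, v, huv⟩ := hab
  have ha0 : a ≠ 0 := by
    intro h0
    rw [h0, Polynomial.natDegree_zero] at ha
    omega
  obtain ⟨x, hx⟩ : ∃ x : Polynomial ℂ, x = (v * h) % a := ⟨_, rfl⟩
  obtain ⟨w, hw⟩ : ∃ w : Polynomial ℂ, w = (v * h) / a := ⟨_, rfl⟩
  have hdiv : a * w + x = v * h := by
    rw [hx, hw]
    exact EuclideanDomain.div_add_mod _ _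
  have hxd : x.natDegree ≤ d := by
    rw [hx, ← ha]
    exact (Polynomial.natDegree_mod_lt _ (by omega)).le
  have hid : x * b - (-(u * h + b * w)) * a = h := by
    calc x * b - (-(u * h + b * w)) * a = u * a * h + b * (a * w + x) := by ring
      _ = (u * a + v * b) * h := by rw [hdiv]; ring
      _ = h := by rw [huv, one_mul]
  refine ⟨x, -(u * h + b * w), hxd, ?_, hid⟩
  obtain ⟨y, hy⟩ : ∃ y : Polynomial ℂ, y = -(u * h + b * w) := ⟨_, rfl⟩
  rw [← hy] at hid ⊢
  by_cases hy0 : y = 0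
  · rw [hy0, Polynomial.natDegree_zero]
    exact Nat.zero_le _
  · have h1 : y * a = x * b - h := by
      rw [← hid]
      ring
    have h2 : (y * a).natDegree ≤ 2 * d := by
      rw [h1]
      refine (Polynomial.natDegree_sub_le _ _).trans (max_le ?_ hh)
      refine Polynomial.natDegree_mul_le.trans ?_
      omega
    rw [Polynomial.natDegree_mul hy0 ha0, ha] at h2
    omega

/-- Every binary form `H` of degree `2 d` is `G₀ F₁ - G₁ F₀` for some pair `G` of forms of degree `d`.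
PROOF. Put `f i = ∑ k, F (i, k) T^k` in `ℂ[T]`, `degree ≤ d`. `f 0` and `f 1` have no common root (a root `t` would give
`app F ![t, 1] = 0`), so they are coprime (`ℂ` is algebraically closed; `Polynomial.isCoprime_of_...` or via a common irreducible
factor, which is linear). The coefficients `F (0, d)`, `F (1, d)` are not both zero (`app F ![1, 0]` is the vector of these
coefficients). Say `F (0, d) ≠ 0` (the other case is the same with the two components exchanged and a sign). Let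
`u f₁ + v f₀ = 1`, `h = ∑ H k T^k`, `g₀ = (u h) mod f₀`, of degree `< d` (Euclidean division by `f₀`, `natDegree = d`), `u h = g₀ + f₀ w`;
then `g₀ f₁ - h = f₀ g₁` with `g₁ = -(v h + w f₁)`, and `deg g₁ ≤ d` since `deg (g₀ f₁ - h) ≤ 2 d`. Let `G (i, k)` be the coefficient of
`T^k` in `g i`. The identity `g₀ f₁ - g₁ f₀ = h` gives the claim for `q = (t, 1)`, then for `q 1 ≠ 0` by homogeneity (`app_smul`), and for
`q 1 = 0` compare the coefficients of `T^(2d)` (or use that both sides are polynomial functions of `q 1`). -/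
theorem bezout (hd : 1 ≤ d) (F : Fin 2 × Fin (d + 1) → ℂ) (hF : IsMap F) (H : Fin (2 * d + 1) → ℂ) :
    ∃ G : Fin 2 × Fin (d + 1) → ℂ, ∀ q : Fin 2 → ℂ,
      wd (app G q) (app F q) = ∑ k : Fin (2 * d + 1), H k * q 0 ^ (k : ℕ) * q 1 ^ (2 * d - (k : ℕ)) := by
  obtain ⟨f, hf⟩ : ∃ f : Fin 2 → Polynomial ℂ, ∀ i, f i = B1_pol fun k => F (i, k) := ⟨_, fun _ => rfl⟩
  obtain ⟨h, hh⟩ : ∃ h : Polynomial ℂ, h = B1_pol H := ⟨_, rfl⟩
  have hfd : ∀ i, (f i).natDegree ≤ d := fun i => by rw [hf]; exact B1_deg _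
  have hhd : h.natDegree ≤ 2 * d := by rw [hh]; exact B1_deg _
  have happ : ∀ (q : Fin 2 → ℂ) (i : Fin 2), app F q i = B1_hom d (f i) (q 0) (q 1) := fun q i => by
    rw [hf, B1_app]
  have hev : ∀ (p : Polynomial ℂ), p.natDegree ≤ d → ∀ t : ℂ, B1_hom d p t 1 = p.eval t := by
    intro p hp t
    rw [B1_ne hp t one_ne_zero, one_pow, one_mul, div_one]
  have hcop : IsCoprime (f 0) (f 1) := by
    rw [Polynomial.isCoprime_iff_aeval_ne_zero_of_isAlgClosed ℂ ℂ]
    intro t
    by_contra hcon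
    push Not at hcon
    have h1 : (![t, 1] : Fin 2 → ℂ) ≠ 0 := by
      intro h0
      have := congrFun h0 1
      simp at this
    refine hF ![t, 1] h1 ?_
    funext i
    rw [happ]
    simp only [Matrix.cons_val_zero, Matrix.cons_val_one, Pi.zero_apply]
    rw [hev _ (hfd i)]
    have h2 := hcon.1
    have h3 := hcon.2
    rw [Polynomial.coe_aeval_eq_eval] at h2 h3
    fin_cases i
    · exact h2
    · exact h3
  have hlead : (f 0).coeff d ≠ 0 ∨ (f 1).coeff d ≠ 0 := by
    by_contra hcon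
    push Not at hcon
    have h1 : (![1, 0] : Fin 2 → ℂ) ≠ 0 := by
      intro h0
      have := congrFun h0 0
      simp at this
    refine hF ![1, 0] h1 ?_
    funext i
    rw [happ]
    simp only [Matrix.cons_val_zero, Matrix.cons_val_one, Pi.zero_apply]
    rw [B1_zero, one_pow, mul_one]
    fin_cases i
    · exact hcon.1
    · exact hcon.2
  have hnat : ∀ i, (f i).coeff d ≠ 0 → (f i).natDegree = d := fun i hi =>
    le_antisymm (hfd i) (Polynomial.le_natDegree_of_ne_zero hi)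
  obtain ⟨g₀, g₁, hg0, hg1, hg⟩ : ∃ g₀ g₁ : Polynomial ℂ, g₀.natDegree ≤ d ∧ g₁.natDegree ≤ d ∧
      g₀ * f 1 - g₁ * f 0 = h := by
    rcases hlead with h0 | h1
    · exact B1_core hd hcop (hnat 0 h0) (hfd 1) hhd
    · obtain ⟨x, y, hx, hy, hxy⟩ := B1_core hd hcop.symm (hnat 1 h1) (hfd 0)
        (h := -h) (by rw [Polynomial.natDegree_neg]; exact hhd)
      refine ⟨y, x, hy, hx, ?_⟩
      rw [← neg_neg h, ← hxy]
      ring
  refine ⟨fun z => if z.1 = 0 then g₀.coeff z.2 else g₁.coeff z.2, fun q => ?_⟩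
  have hG0 : app (fun z : Fin 2 × Fin (d + 1) => if z.1 = 0 then g₀.coeff z.2 else g₁.coeff z.2) q 0 =
      B1_hom d g₀ (q 0) (q 1) := by
    unfold app B1_hom
    simp
  have hG1 : app (fun z : Fin 2 × Fin (d + 1) => if z.1 = 0 then g₀.coeff z.2 else g₁.coeff z.2) q 1 =
      B1_hom d g₁ (q 0) (q 1) := by
    unfold app B1_hom
    simp
  unfold wd
  rw [hG0, hG1, happ, happ, B1_mul hg0 (hfd 1), B1_mul hg1 (hfd 0), ← B1_sub, hg, hh]
  have h2 : d + d = 2 * d := by ring
  rw [h2]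
  unfold B1_hom
  refine Finset.sum_congr rfl fun k _ => ?_
  rw [B1_coeff]

end Pool.Agent.Lib.H90M
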