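import Pool.Agent.Lib.H90M.F2

/-!
# B2 (M): binary forms with given values
-/

namespace Pool.Agent.Lib.H90M

open MvPolynomial

private def B2_form (e : ℕ) (φ : (Fin 2 → ℂ) → ℂ) : Prop :=
  ∃ a : Fin (e + 1) → ℂ, ∀ q, φ q = ∑ k : Fin (e + 1), a k * q 0 ^ (k : ℕ) * q 1 ^ (e - (k : ℕ))

private theorem B2_add {e : ℕ} {φ ψ : (Fin 2 → ℂ) → ℂ} (h1 : B2_form e φ) (h2 : B2_form e ψ) :
    B2_form e (fun q => φ q + ψ q) := by
  obtain ⟨a, ha⟩ := h1
  obtain ⟨b, hb⟩ := h2
  refine ⟨fun k => a k + b k, fun q => ?_⟩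
  beta_reduce
  rw [ha, hb, ← Finset.sum_add_distrib]
  refine Finset.sum_congr rfl fun k _ => ?_
  ring

private theorem B2_smul {e : ℕ} {φ : (Fin 2 → ℂ) → ℂ} (c : ℂ) (h1 : B2_form e φ) :
    B2_form e (fun q => c * φ q) := by
  obtain ⟨a, ha⟩ := h1
  refine ⟨fun k => c * a k, fun q => ?_⟩
  beta_reduce
  rw [ha, Finset.mul_sum]
  refine Finset.sum_congr rfl fun k _ => ?_
  ring

private theorem B2_sum {e : ℕ} {ι : Type} (s : Finset ι) {φ : ι → (Fin 2 → ℂ) → ℂ}
    (h : ∀ i, B2_form e (φ i)) : B2_form e (fun q => ∑ i ∈ s, φ i q) := by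
  choose a ha using h
  refine ⟨fun k => ∑ i ∈ s, a i k, fun q => ?_⟩
  simp only [ha, Finset.sum_mul]
  rw [Finset.sum_comm]

private theorem B2_x {e : ℕ} {φ : (Fin 2 → ℂ) → ℂ} (h1 : B2_form e φ) :
    B2_form (e + 1) (fun q => q 0 * φ q) := by
  obtain ⟨a, ha⟩ := h1
  refine ⟨Fin.cons 0 a, fun q => ?_⟩
  beta_reduce
  rw [ha, Finset.mul_sum, Fin.sum_univ_succ (n := e + 1)]
  rw [Fin.cons_zero, zero_mul, zero_mul, zero_add]
  refine Finset.sum_congr rfl fun k _ => ?_
  rw [Fin.cons_succ, Fin.val_succ, Nat.add_sub_add_right]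
  ring

private theorem B2_y {e : ℕ} {φ : (Fin 2 → ℂ) → ℂ} (h1 : B2_form e φ) :
    B2_form (e + 1) (fun q => q 1 * φ q) := by
  obtain ⟨a, ha⟩ := h1
  refine ⟨Fin.snoc a 0, fun q => ?_⟩
  beta_reduce
  rw [ha, Finset.mul_sum, Fin.sum_univ_castSucc (n := e + 1)]
  rw [Fin.snoc_last, zero_mul, zero_mul, add_zero]
  refine Finset.sum_congr rfl fun k _ => ?_
  rw [Fin.snoc_castSucc, Fin.val_castSucc]
  have hk : (k : ℕ) ≤ e := Nat.lt_succ_iff.1 k.2
  have h2 : e + 1 - (k : ℕ) = (e - (k : ℕ)) + 1 := by omega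
  rw [h2, pow_succ]
  ring

private theorem B2_lin {e : ℕ} {φ : (Fin 2 → ℂ) → ℂ} (α β : ℂ) (h1 : B2_form e φ) :
    B2_form (e + 1) (fun q => (α * q 0 + β * q 1) * φ q) := by
  obtain ⟨a, ha⟩ := B2_add (B2_smul α (B2_x h1)) (B2_smul β (B2_y h1))
  refine ⟨a, fun q => ?_⟩
  rw [← ha q]
  ring

private theorem B2_pow {e : ℕ} {φ : (Fin 2 → ℂ) → ℂ} (α β : ℂ) (h1 : B2_form e φ) (m : ℕ) :
    B2_form (e + m) (fun q => (α * q 0 + β * q 1) ^ m * φ q) := by
  induction m with
  | zero =>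
    obtain ⟨a, ha⟩ := h1
    refine ⟨a, fun q => ?_⟩
    beta_reduce
    rw [pow_zero, one_mul]
    exact ha q
  | succ m ih =>
    obtain ⟨a, ha⟩ := B2_lin α β ih
    refine ⟨a, fun q => ?_⟩
    beta_reduce
    rw [pow_succ, mul_comm ((α * q 0 + β * q 1) ^ m), mul_assoc]
    exact ha q

private theorem B2_prod {ι : Type} (S : Finset ι) (q : ι → Fin 2 → ℂ) :
    B2_form S.card (fun x => ∏ j ∈ S, wd (q j) x) := by
  classical
  induction S using Finset.induction_on with
  | empty =>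
    refine ⟨fun _ => 1, fun x => ?_⟩
    simp
  | insert i S hi ih =>
    obtain ⟨a, ha⟩ := B2_lin (-(q i 1)) (q i 0) ih
    rw [Finset.card_insert_of_notMem hi]
    refine ⟨a, fun x => ?_⟩
    rw [← ha x]
    beta_reduce
    rw [Finset.prod_insert hi, wd]
    ring

/-- There is a binary form of degree `e` with given values at `n ≤ e + 1` points of `ℂ²`, pairwise not proportional.
PROOF. It is enough to find for every `i` a form `H_i` with value `1` at `q i` and `0` at the other `q j` (then take the linear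
combination). `H_i` is a multiple of `∏ (j ≠ i) wd (q j) · ` times the power `e - (n - 1)` of a linear form which does not vanish at
`q i ≠ 0` (`q 0` or `q 1` of the argument). Products of forms are forms: prove that the functions
`φ : (Fin 2 → ℂ) → ℂ` with `∃ a : Fin (e + 1) → ℂ, ∀ q, φ q = ∑ k, a k * q 0 ^ k * q 1 ^ (e - k)` are stable under scalar multiples, sums,
and (with `e + 1`) multiplication by a linear form. -/
theorem interp {e n : ℕ} (hn : n ≤ e + 1) (q : Fin n → Fin 2 → ℂ) (hq : ∀ i, q i ≠ 0)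
    (hne : ∀ i j, i ≠ j → wd (q i) (q j) ≠ 0) (t : Fin n → ℂ) :
    ∃ H : Fin (e + 1) → ℂ, ∀ i, ∑ k : Fin (e + 1), H k * q i 0 ^ (k : ℕ) * q i 1 ^ (e - (k : ℕ)) = t i := by
  classical
  have h1 : ∀ i : Fin n, ∃ ψ : (Fin 2 → ℂ) → ℂ, B2_form e ψ ∧ ψ (q i) ≠ 0 ∧ ∀ j, j ≠ i → ψ (q j) = 0 := by
    intro i
    obtain ⟨α, β, hαβ⟩ : ∃ α β : ℂ, α * q i 0 + β * q i 1 ≠ 0 := by
      by_cases h0 : q i 0 = 0
      · refine ⟨0, 1, ?_⟩
        rw [zero_mul, zero_add, one_mul]
        intro h2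
        apply hq i
        funext k
        fin_cases k
        · exact h0
        · exact h2
      · refine ⟨1, 0, ?_⟩
        rw [zero_mul, add_zero, one_mul]
        exact h0
    have hn0 : 0 < n := i.pos
    have hcard : (Finset.univ.erase i).card = n - 1 := by
      rw [Finset.card_erase_of_mem (Finset.mem_univ i), Finset.card_univ, Fintype.card_fin]
    have hdeg : (Finset.univ.erase i).card + (e + 1 - n) = e := by
      rw [hcard]
      omega
    have hform := B2_pow α β (B2_prod (Finset.univ.erase i) q) (e + 1 - n)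
    rw [hdeg] at hform
    refine ⟨_, hform, ?_, ?_⟩
    · refine mul_ne_zero (pow_ne_zero _ hαβ) (Finset.prod_ne_zero_iff.2 fun j hj => ?_)
      exact hne j i (Finset.ne_of_mem_erase hj)
    · intro j hj
      show (α * q j 0 + β * q j 1) ^ (e + 1 - n) * ∏ l ∈ Finset.univ.erase i, wd (q l) (q j) = 0
      rw [Finset.prod_eq_zero (Finset.mem_erase.2 ⟨hj, Finset.mem_univ j⟩), mul_zero]
      unfold wd
      ring
  choose ψ hψ1 hψ2 hψ3 using h1
  obtain ⟨H, hH⟩ := B2_sum Finset.univ fun i => B2_smul (t i / ψ i (q i)) (hψ1 i)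
  refine ⟨H, fun i => ?_⟩
  rw [← hH (q i)]
  beta_reduce
  rw [Finset.sum_eq_single i]
  · exact div_mul_cancel₀ _ (hψ2 i)
  · intro j _ hj
    rw [hψ3 j i hj.symm, mul_zero]
  · intro h
    exact absurd (Finset.mem_univ i) h

/-- A form of degree `e` with more than `e` zeros is zero. PROOF. Directly: by induction on `e`, or: let `q' ` be any point not
proportional to the `q i`; dimension count: by `interp` the evaluation at the `e + 1` points is a surjective linear map from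
`Fin (e + 1) → ℂ` to itself, hence injective (`LinearMap.injective_iff_surjective`). -/
theorem form_zero {e : ℕ} (q : Fin (e + 1) → Fin 2 → ℂ) (hq : ∀ i, q i ≠ 0)
    (hne : ∀ i j, i ≠ j → wd (q i) (q j) ≠ 0) (H : Fin (e + 1) → ℂ)
    (h : ∀ i, ∑ k : Fin (e + 1), H k * q i 0 ^ (k : ℕ) * q i 1 ^ (e - (k : ℕ)) = 0) : H = 0 := by
  let L : (Fin (e + 1) → ℂ) →ₗ[ℂ] (Fin (e + 1) → ℂ) :=
    { toFun := fun H i => ∑ k : Fin (e + 1), H k * q i 0 ^ (k : ℕ) * q i 1 ^ (e - (k : ℕ))
      map_add' := by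
        intro A B
        funext i
        show ∑ k : Fin (e + 1), (A k + B k) * q i 0 ^ (k : ℕ) * q i 1 ^ (e - (k : ℕ)) =
          ∑ k : Fin (e + 1), A k * q i 0 ^ (k : ℕ) * q i 1 ^ (e - (k : ℕ)) +
            ∑ k : Fin (e + 1), B k * q i 0 ^ (k : ℕ) * q i 1 ^ (e - (k : ℕ))
        rw [← Finset.sum_add_distrib]
        refine Finset.sum_congr rfl fun k _ => ?_
        ring
      map_smul' := by
        intro c A
        funext i
        show ∑ k : Fin (e + 1), (c * A k) * q i 0 ^ (k : ℕ) * q i 1 ^ (e - (k : ℕ)) =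
          c * ∑ k : Fin (e + 1), A k * q i 0 ^ (k : ℕ) * q i 1 ^ (e - (k : ℕ))
        rw [Finset.mul_sum]
        refine Finset.sum_congr rfl fun k _ => ?_
        ring }
  have hsurj : Function.Surjective L := by
    intro t
    obtain ⟨H', hH'⟩ := interp (le_refl (e + 1)) q hq hne t
    exact ⟨H', funext hH'⟩
  have hinj : Function.Injective L := LinearMap.injective_iff_surjective.2 hsurj
  apply hinj
  rw [map_zero]
  exact funext h

end Pool.Agent.Lib.H90M
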