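import Pool.Agent.Lib.H90M.B1
import Pool.Agent.Lib.H90M.B2

/-!
# B3 (M): the conditions `G(q i) ∥ q' i` are independent
-/

namespace Pool.Agent.Lib.H90M

open MvPolynomial

variable {d : ℕ}

private theorem B3_par {p q : Fin 2 → ℂ} (hp : p ≠ 0) (hq : q ≠ 0) (h : wd p q = 0) :
    ∃ e : ℂ, e ≠ 0 ∧ p = e • q := by
  unfold wd at h
  have key : ∃ e : ℂ, p = e • q := by
    by_cases h0 : q 0 = 0
    · have h1 : q 1 ≠ 0 := by
        intro h1
        apply hq
        funext i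
        fin_cases i
        · exact h0
        · exact h1
      have h2 : p 0 = 0 := by
        rw [h0, mul_zero, sub_zero] at h
        exact (mul_eq_zero.1 h).resolve_right h1
      refine ⟨p 1 / q 1, ?_⟩
      funext i
      fin_cases i
      · simp [h2, h0]
      · simp [h1]
    · refine ⟨p 0 / q 0, ?_⟩
      funext i
      fin_cases i
      · simp [h0]
      · simp only [Pi.smul_apply, smul_eq_mul, Fin.mk_one]
        field_simp
        linear_combination -h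
  obtain ⟨e, he⟩ := key
  refine ⟨e, ?_, he⟩
  rintro rfl
  exact hp (by rw [he, zero_smul])

/-- PROOF. `q' i = c i • app F (q i)` with `c i ≠ 0` (both vectors are nonzero, `hF`, and their bracket is `0`). Take a form `H` of
degree `2 d` with `H (q i) = t i / c i` (`interp`) and `G` with `wd (app G q) (app F q) = H q` (`bezout`). -/
theorem surj {n : ℕ} (hd : 1 ≤ d) (hn : n ≤ 2 * d + 1) (F : Fin 2 × Fin (d + 1) → ℂ) (hF : IsMap F)
    (q q' : Fin n → Fin 2 → ℂ) (hq : ∀ i, q i ≠ 0) (hne : ∀ i j, i ≠ j → wd (q i) (q j) ≠ 0) (hq' : ∀ i, q' i ≠ 0)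
    (h : ∀ i, wd (app F (q i)) (q' i) = 0) (t : Fin n → ℂ) :
    ∃ G : Fin 2 × Fin (d + 1) → ℂ, ∀ i, wd (app G (q i)) (q' i) = t i := by
  have hc : ∀ i, ∃ c : ℂ, c ≠ 0 ∧ q' i = c • app F (q i) := fun i =>
    B3_par (hq' i) (hF _ (hq i)) (by
      have h1 := h i
      unfold wd at h1 ⊢
      linear_combination -h1)
  choose c hc0 hc1 using hc
  obtain ⟨H, hH⟩ := interp hn q hq hne (fun i => t i / c i)
  obtain ⟨G, hG⟩ := bezout hd F hF H
  refine ⟨G, fun i => ?_⟩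
  have h1 : wd (app G (q i)) (q' i) = c i * wd (app G (q i)) (app F (q i)) := by
    rw [hc1 i]
    simp only [wd, Pi.smul_apply, smul_eq_mul]
    ring
  rw [h1, hG, hH, mul_div_cancel₀ _ (hc0 i)]

private theorem B3_mul (a b : Fin (d + 1) → ℂ) : ∃ H : Fin (2 * d + 1) → ℂ, ∀ q : Fin 2 → ℂ,
    (∑ i : Fin (d + 1), a i * q 0 ^ (i : ℕ) * q 1 ^ (d - (i : ℕ))) *
      (∑ j : Fin (d + 1), b j * q 0 ^ (j : ℕ) * q 1 ^ (d - (j : ℕ))) =
    ∑ k : Fin (2 * d + 1), H k * q 0 ^ (k : ℕ) * q 1 ^ (2 * d - (k : ℕ)) := by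
  refine ⟨fun k => ∑ i : Fin (d + 1), ∑ j : Fin (d + 1),
    if (i : ℕ) + (j : ℕ) = (k : ℕ) then a i * b j else 0, fun q => ?_⟩
  rw [Finset.sum_mul_sum]
  simp_rw [Finset.sum_mul]
  rw [Finset.sum_comm]
  rw [Finset.sum_comm (s := (Finset.univ : Finset (Fin (2 * d + 1))))]
  rw [Finset.sum_comm]
  refine Finset.sum_congr rfl fun i _ => ?_
  rw [Finset.sum_comm]
  refine Finset.sum_congr rfl fun j _ => ?_
  have hij : (i : ℕ) + (j : ℕ) < 2 * d + 1 := by omega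
  rw [Finset.sum_eq_single (⟨(i : ℕ) + (j : ℕ), hij⟩ : Fin (2 * d + 1))]
  · have e : 2 * d - ((i : ℕ) + (j : ℕ)) = (d - (i : ℕ)) + (d - (j : ℕ)) := by omega
    simp only [if_true]
    rw [e, pow_add, pow_add]
    ring
  · intro k _ hk
    rw [if_neg (fun hh => hk (Fin.ext hh.symm))]
    ring
  · intro hh
    exact absurd (Finset.mem_univ _) hh

private theorem B3_wd (G F : Fin 2 × Fin (d + 1) → ℂ) : ∃ H : Fin (2 * d + 1) → ℂ, ∀ q : Fin 2 → ℂ,
    wd (app G q) (app F q) = ∑ k : Fin (2 * d + 1), H k * q 0 ^ (k : ℕ) * q 1 ^ (2 * d - (k : ℕ)) := by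
  obtain ⟨H1, h1⟩ := B3_mul (fun k => G (0, k)) (fun k => F (1, k))
  obtain ⟨H2, h2⟩ := B3_mul (fun k => G (1, k)) (fun k => F (0, k))
  refine ⟨fun k => H1 k - H2 k, fun q => ?_⟩
  unfold wd app
  rw [h1, h2, ← Finset.sum_sub_distrib]
  exact Finset.sum_congr rfl fun k _ => by ring

/-- the matrix of the conditions -/
private noncomputable def B3_T (F : Fin 2 × Fin (d + 1) → ℂ) :
    Matrix (Fin (2 * d + 1)) (Fin 2 × Fin (d + 1)) ℂ :=
  fun j x => (if x.1 = 0 then app F ![((j : ℕ) : ℂ), 1] 1 else -app F ![((j : ℕ) : ℂ), 1] 0) *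
    (((j : ℕ) : ℂ) ^ (x.2 : ℕ) * (1 : ℂ) ^ (d - (x.2 : ℕ)))

private theorem B3_T_mulVec (F G : Fin 2 × Fin (d + 1) → ℂ) (j : Fin (2 * d + 1)) :
    (B3_T F).mulVec G j = wd (app G ![((j : ℕ) : ℂ), 1]) (app F ![((j : ℕ) : ℂ), 1]) := by
  unfold Matrix.mulVec dotProduct B3_T wd
  rw [Fintype.sum_prod_type, Fin.sum_univ_two]
  have e0 : app G ![((j : ℕ) : ℂ), 1] 0 =
      ∑ k : Fin (d + 1), G (0, k) * ((j : ℕ) : ℂ) ^ (k : ℕ) * (1 : ℂ) ^ (d - (k : ℕ)) := rfl
  have e1 : app G ![((j : ℕ) : ℂ), 1] 1 =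
      ∑ k : Fin (d + 1), G (1, k) * ((j : ℕ) : ℂ) ^ (k : ℕ) * (1 : ℂ) ^ (d - (k : ℕ)) := rfl
  rw [e0, e1, Finset.sum_mul, Finset.sum_mul, sub_eq_add_neg, ← Finset.sum_neg_distrib]
  refine congrArg₂ (· + ·) (Finset.sum_congr rfl fun k _ => ?_) (Finset.sum_congr rfl fun k _ => ?_)
  · simp only [if_true]
    ring
  · simp only [one_ne_zero, if_false]
    ring

private theorem B3_T_poly (j : Fin (2 * d + 1)) (x : Fin 2 × Fin (d + 1)) :
    IsPoly fun F : Fin 2 × Fin (d + 1) → ℂ => B3_T F j x := by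
  have h : ∀ i : Fin 2, IsPoly fun F : Fin 2 × Fin (d + 1) → ℂ => app F ![((j : ℕ) : ℂ), 1] i := fun i =>
    isPoly_app (F := fun v => v) (q := fun _ => ![((j : ℕ) : ℂ), 1]) (fun x => isPoly_coord x)
      (fun i => isPoly_const _) i
  unfold B3_T
  by_cases hx : x.1 = 0
  · simp only [hx, if_true]
    exact isPoly_mul (h 1) (isPoly_const _)
  · simp only [hx, if_false]
    exact isPoly_mul (isPoly_neg (h 0)) (isPoly_const _)

private theorem B3_ne (i : Fin (2 * d + 1)) : (![((i : ℕ) : ℂ), 1] : Fin 2 → ℂ) ≠ 0 := by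
  intro h
  have h1 := congrFun h 1
  simp at h1

private theorem B3_wd_ne (i j : Fin (2 * d + 1)) (hij : i ≠ j) :
    wd ![((i : ℕ) : ℂ), 1] ![((j : ℕ) : ℂ), 1] ≠ 0 := by
  unfold wd
  intro h
  have h1 : ((i : ℕ) : ℂ) = ((j : ℕ) : ℂ) := by
    simp at h
    linear_combination h
  exact hij (Fin.ext (by exact_mod_cast h1))

/-- A polynomial condition which implies that `F` is a map. PROOF. Let `q j = (j, 1)`, `j ≤ 2 d`, and let `T F` be the matrix
(rows `Fin (2 d + 1)`, columns `Fin 2 × Fin (d + 1)`) of the linear map `G ↦ (wd (app G (q j)) (app F (q j)))_j`; its entries are linear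
in `F` (the entry of the column `x` is the value for `G = Pi.single x 1`). By `surj` (with `q' j = app F0 (q j)`) there is a matrix `B` with
`T F0 * B = 1`. `ρ F = det (T F * B)`. If `ρ F ≠ 0` then `T F` is surjective. If moreover `app F q = 0`, `q ≠ 0`, then all the forms
`wd (app G ·) (app F ·)` of degree `2 d` vanish at `q`; take a form `H` of degree `2 d` with `H q ≠ 0` (`interp`, one point) and `G` with the
same values at the `q j`; the difference is a form of degree `2 d` with `2 d + 1` zeros, so it is zero (`form_zero`; the product of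
two forms of degree `d` is a form of degree `2 d`). Contradiction. -/
theorem exists_rho (hd : 1 ≤ d) (F0 : Fin 2 × Fin (d + 1) → ℂ) (hF0 : IsMap F0) :
    ∃ ρ : (Fin 2 × Fin (d + 1) → ℂ) → ℂ, IsPoly ρ ∧ ρ F0 ≠ 0 ∧ ∀ F, ρ F ≠ 0 → IsMap F := by
  classical
  have hs : ∀ t : Fin (2 * d + 1) → ℂ, ∃ G : Fin 2 × Fin (d + 1) → ℂ, ∀ i : Fin (2 * d + 1),
      wd (app G ![((i : ℕ) : ℂ), 1]) (app F0 ![((i : ℕ) : ℂ), 1]) = t i := fun t =>
    surj hd le_rfl F0 hF0 (fun i => ![((i : ℕ) : ℂ), 1]) (fun i => app F0 ![((i : ℕ) : ℂ), 1])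
      B3_ne B3_wd_ne (fun i => hF0 _ (B3_ne i)) (fun i => by unfold wd; ring) t
  choose Gf hGf using fun l : Fin (2 * d + 1) => hs (Pi.single l 1)
  set B : Matrix (Fin 2 × Fin (d + 1)) (Fin (2 * d + 1)) ℂ := fun x l => Gf l x with hB
  have hone : B3_T F0 * B = 1 := by
    ext j l
    have h1 : (B3_T F0 * B) j l = (B3_T F0).mulVec (Gf l) j := rfl
    rw [h1, B3_T_mulVec, hGf l j, Matrix.one_apply, Pi.single_apply]
  refine ⟨fun F => (B3_T F * B).det, ?_, ?_, ?_⟩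
  · exact isPoly_det fun i j => isPoly_matmul (M := fun F => B3_T F) (N := fun _ => B)
      (fun i x => B3_T_poly i x) (fun x l => isPoly_const _) i j
  · simp only [hone, Matrix.det_one]
    exact one_ne_zero
  · intro F hF q hq h0
    have hu : IsUnit (B3_T F * B).det := isUnit_iff_ne_zero.2 hF
    obtain ⟨H, hH⟩ := interp (e := 2 * d) (n := 1) (by omega) (fun _ => q) (fun _ => hq)
      (fun i j hij => absurd (Subsingleton.elim i j) hij) (fun _ => 1)
    set t : Fin (2 * d + 1) → ℂ := fun j =>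
      ∑ k : Fin (2 * d + 1), H k * (![((j : ℕ) : ℂ), 1] : Fin 2 → ℂ) 0 ^ (k : ℕ) *
        (![((j : ℕ) : ℂ), 1] : Fin 2 → ℂ) 1 ^ (2 * d - (k : ℕ)) with ht
    set G : Fin 2 × Fin (d + 1) → ℂ := B.mulVec ((B3_T F * B)⁻¹.mulVec t) with hG
    have hGt : ∀ j : Fin (2 * d + 1),
        wd (app G ![((j : ℕ) : ℂ), 1]) (app F ![((j : ℕ) : ℂ), 1]) = t j := by
      intro j
      rw [← B3_T_mulVec, hG, Matrix.mulVec_mulVec, Matrix.mulVec_mulVec, Matrix.mul_nonsing_inv _ hu,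
        Matrix.one_mulVec]
    obtain ⟨H', hH'⟩ := B3_wd G F
    have hz : (fun k => H' k - H k) = 0 := by
      refine form_zero (fun j : Fin (2 * d + 1) => ![((j : ℕ) : ℂ), 1]) B3_ne B3_wd_ne _ fun j => ?_
      have h1 : ∑ k : Fin (2 * d + 1), (H' k - H k) * (![((j : ℕ) : ℂ), 1] : Fin 2 → ℂ) 0 ^ (k : ℕ) *
          (![((j : ℕ) : ℂ), 1] : Fin 2 → ℂ) 1 ^ (2 * d - (k : ℕ)) =
          (∑ k : Fin (2 * d + 1), H' k * (![((j : ℕ) : ℂ), 1] : Fin 2 → ℂ) 0 ^ (k : ℕ) *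
            (![((j : ℕ) : ℂ), 1] : Fin 2 → ℂ) 1 ^ (2 * d - (k : ℕ))) - t j := by
        rw [ht, ← Finset.sum_sub_distrib]
        exact Finset.sum_congr rfl fun k _ => by ring
      rw [h1, ← hH', hGt, sub_self]
    have h1 := hH 0
    have h2 := hH' q
    have h3 : ∀ k, H' k = H k := fun k => sub_eq_zero.1 (congrFun hz k)
    simp only [h3] at h2
    rw [h1, h0] at h2
    simp [wd] at h2

end Pool.Agent.Lib.H90M
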