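import Pool.Agent.Lib.H90M.F2

/-!
# C1 (M): the equivalence relation `Conj`
-/

namespace Pool.Agent.Lib.H90M

open MvPolynomial

variable {d : ℕ}

theorem mapOf_mk (F : Fin 2 × Fin (d + 1) → ℂ) (p : Fin 2 → ℂ) : mapOf (mk F p) = F := rfl

theorem ptOf_mk (F : Fin 2 × Fin (d + 1) → ℂ) (p : Fin 2 → ℂ) : ptOf (mk F p) = p := rfl

theorem mk_eq (v : Coord d → ℂ) : mk (mapOf v) (ptOf v) = v := by
  funext x
  rcases x with x | x
  · rfl
  · rfl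

private theorem c1_inv (g : Matrix (Fin 2) (Fin 2) ℂ) (hg : g.det ≠ 0) (q : Fin 2 → ℂ) :
    g.mulVec (g⁻¹.mulVec q) = q ∧ g⁻¹.mulVec (g.mulVec q) = q := by
  have hu : IsUnit g.det := isUnit_iff_ne_zero.2 hg
  rw [Matrix.mulVec_mulVec, Matrix.mulVec_mulVec, Matrix.mul_nonsing_inv _ hu, Matrix.nonsing_inv_mul _ hu,
    Matrix.one_mulVec]
  exact ⟨rfl, rfl⟩

private theorem c1_det_inv (g : Matrix (Fin 2) (Fin 2) ℂ) (hg : g.det ≠ 0) : g⁻¹.det ≠ 0 := by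
  rw [Matrix.det_nonsing_inv, Ring.inverse_eq_inv]
  exact inv_ne_zero hg

/-- PROOF. The inverse matrix; `app_smul` is not needed: `f' (g q) = a g f(q)` with `q = g⁻¹ r` gives
`f (g⁻¹ r) = a⁻¹ g⁻¹ f'(r)`. -/
theorem Conj.symm {v v' : Coord d → ℂ} (h : Conj v v') : Conj v' v := by
  obtain ⟨g, a, b, hg, ha, hb, h1, h2⟩ := h
  refine ⟨g⁻¹, a⁻¹, b⁻¹, c1_det_inv g hg, inv_ne_zero ha, inv_ne_zero hb, fun q => ?_, ?_⟩
  · have h3 := h1 (g⁻¹.mulVec q)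
    rw [(c1_inv g hg q).1] at h3
    rw [h3, Matrix.mulVec_smul, (c1_inv g hg _).2, smul_smul, inv_mul_cancel₀ ha, one_smul]
  · rw [h2, Matrix.mulVec_smul, (c1_inv g hg _).2, smul_smul, inv_mul_cancel₀ hb, one_smul]

theorem Conj.trans {v v' v'' : Coord d → ℂ} (h : Conj v v') (h' : Conj v' v'') : Conj v v'' := by
  obtain ⟨g, a, b, hg, ha, hb, h1, h2⟩ := h
  obtain ⟨g', a', b', hg', ha', hb', h1', h2'⟩ := h'
  refine ⟨g' * g, a' * a, b' * b, ?_, mul_ne_zero ha' ha, mul_ne_zero hb' hb, fun q => ?_, ?_⟩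
  · rw [Matrix.det_mul]
    exact mul_ne_zero hg' hg
  · rw [← Matrix.mulVec_mulVec, h1', h1, Matrix.mulVec_smul, smul_smul, ← Matrix.mulVec_mulVec]
  · rw [h2', h2, Matrix.mulVec_smul, smul_smul, ← Matrix.mulVec_mulVec]

/-- PROOF. `g = 1`, `a = μ`, `b = l`. -/
theorem conj_smul (F : Fin 2 × Fin (d + 1) → ℂ) (p : Fin 2 → ℂ) {μ l : ℂ} (hμ : μ ≠ 0) (hl : l ≠ 0) :
    Conj (mk F p) (mk (μ • F) (l • p)) := by
  refine ⟨1, μ, l, ?_, hμ, hl, fun q => ?_, ?_⟩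
  · rw [Matrix.det_one]
    exact one_ne_zero
  · rw [Matrix.one_mulVec, Matrix.one_mulVec]
    exact app_coef_smul F μ q
  · rw [Matrix.one_mulVec]
    rfl

private theorem c1_adj (g : Matrix (Fin 2) (Fin 2) ℂ) (q : Fin 2 → ℂ) :
    g.adjugate.mulVec (g.mulVec q) = g.det • q := by
  rw [Matrix.mulVec_mulVec, Matrix.adjugate_mul, Matrix.smul_mulVec, Matrix.one_mulVec]

/-- The standard conjugate. PROOF. `app (act g g.adjugate F) (g q) = g F(adj g g q) = g F(det g • q) = det g ^ d • g F(q)`. -/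
theorem conj_act (g : Matrix (Fin 2) (Fin 2) ℂ) (hg : g.det ≠ 0) (F : Fin 2 × Fin (d + 1) → ℂ) (p : Fin 2 → ℂ) :
    Conj (mk F p) (mk (act g g.adjugate F) (g.mulVec p)) := by
  refine ⟨g, g.det ^ d, 1, hg, pow_ne_zero _ hg, one_ne_zero, fun q => ?_, ?_⟩
  · change app (act g g.adjugate F) (g.mulVec q) = g.det ^ d • g.mulVec (app F q)
    rw [act_app, c1_adj, app_smul, Matrix.mulVec_smul]
  · rw [one_smul]
    rfl

/-- Every conjugate is of this form up to scalars. PROOF. `app (mapOf v') q = a g F(g⁻¹ q)` and `g⁻¹ = (det g)⁻¹ adj g`, so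
`app (mapOf v') q = a (det g)^(-d) g F(adj g q)`; `app_ext`. -/
theorem conj_form {F : Fin 2 × Fin (d + 1) → ℂ} {p : Fin 2 → ℂ} {v : Coord d → ℂ} (h : Conj (mk F p) v) :
    ∃ (g : Matrix (Fin 2) (Fin 2) ℂ) (a b : ℂ), g.det ≠ 0 ∧ a ≠ 0 ∧ b ≠ 0 ∧
      v = mk (a • act g g.adjugate F) (b • g.mulVec p) := by
  obtain ⟨g, a, b, hg, ha, hb, h1, h2⟩ := h
  have hdd : g.det ^ d ≠ 0 := pow_ne_zero _ hg
  refine ⟨g, a / g.det ^ d, b, hg, div_ne_zero ha hdd, hb, ?_⟩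
  have h3 : mapOf v = (a / g.det ^ d) • act g g.adjugate F := by
    refine app_ext fun j => ?_
    obtain ⟨q, hq⟩ : ∃ q, g.mulVec q = ![((j : ℕ) : ℂ), 1] := ⟨g⁻¹.mulVec _, (c1_inv g hg _).1⟩
    rw [← hq, h1, app_coef_smul, act_app, c1_adj, app_smul, Matrix.mulVec_smul, smul_smul, div_mul_cancel₀ _ hdd]
    rfl
  rw [← mk_eq v, h3, h2]
  rfl

/-- Iterates. PROOF. Induction on `m`, `app_smul`: `g` maps the `m`-th iterate of `p` to a nonzero multiple of the `m`-th iterate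
of `p'`. -/
theorem conj_iter {v v' : Coord d → ℂ} {g : Matrix (Fin 2) (Fin 2) ℂ} {a b : ℂ} (ha : a ≠ 0) (hb : b ≠ 0)
    (h1 : ∀ q, app (mapOf v') (g.mulVec q) = a • g.mulVec (app (mapOf v) q)) (h2 : ptOf v' = b • g.mulVec (ptOf v)) (m : ℕ) :
    ∃ c : ℂ, c ≠ 0 ∧ (app (mapOf v'))^[m] (ptOf v') = c • g.mulVec ((app (mapOf v))^[m] (ptOf v)) := by
  induction m with
  | zero => exact ⟨b, hb, h2⟩
  | succ m ih =>
    obtain ⟨c, hc, h⟩ := ih
    refine ⟨c ^ d * a, mul_ne_zero (pow_ne_zero _ hc) ha, ?_⟩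
    rw [Function.iterate_succ_apply', Function.iterate_succ_apply', h, app_smul, h1, smul_smul]

private theorem c1_wd (g : Matrix (Fin 2) (Fin 2) ℂ) (p q : Fin 2 → ℂ) :
    wd (g.mulVec p) (g.mulVec q) = g.det * wd p q := by
  simp only [wd, Matrix.mulVec, dotProduct, Fin.sum_univ_two, Matrix.det_fin_two]
  ring

private theorem c1_wd_smul (a b : ℂ) (p q : Fin 2 → ℂ) : wd (a • p) (b • q) = a * b * wd p q := by
  simp only [wd, Pi.smul_apply, smul_eq_mul]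
  ring

/-- PROOF. `wd (g p) (g q) = det g * wd p q`, `conj_iter`. -/
theorem marked_conj {n : ℕ} {v v' : Coord d → ℂ} (h : Conj v v') (hv : v ∈ Marked d n) : v' ∈ Marked d n := by
  obtain ⟨g, a, b, hg, ha, hb, h1, h2⟩ := h
  obtain ⟨hm, hp, hn, hmin⟩ := hv
  have hinj : ∀ q, g.mulVec q = 0 → q = 0 := by
    intro q hq
    rw [← (c1_inv g hg q).2, hq, Matrix.mulVec_zero]
  refine ⟨fun r hr h0 => ?_, fun h0 => ?_, ?_, fun m hm0 hmn => ?_⟩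
  · have h3 := h1 (g⁻¹.mulVec r)
    rw [(c1_inv g hg r).1, h0] at h3
    have h4 := (smul_eq_zero.1 h3.symm).resolve_left ha
    refine hm (g⁻¹.mulVec r) (fun h5 => hr ?_) (hinj _ h4)
    rw [← (c1_inv g hg r).1, h5, Matrix.mulVec_zero]
  · rw [h2] at h0
    exact hp (hinj _ ((smul_eq_zero.1 h0).resolve_left hb))
  · obtain ⟨c, hc, h3⟩ := conj_iter ha hb h1 h2 n
    rw [h3, h2, c1_wd_smul, c1_wd, hn, mul_zero, mul_zero]
  · obtain ⟨c, hc, h3⟩ := conj_iter ha hb h1 h2 m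
    rw [h3, h2, c1_wd_smul, c1_wd]
    exact mul_ne_zero (mul_ne_zero hc hb) (mul_ne_zero hg (hmin m hm0 hmn))

end Pool.Agent.Lib.H90M
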