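import Pool.Agent.Lib.H90M.C1

/-!
# C2 (M): existence of maps with a point of exact period `n`
-/

namespace Pool.Agent.Lib.H90M

open MvPolynomial

/-- The forms `x^d`, `y^d`. -/
private def c2F (d : ℕ) : Fin 2 × Fin (d + 1) → ℂ :=
  fun x => if (x.1 = 0 ∧ (x.2 : ℕ) = d) ∨ (x.1 = 1 ∧ (x.2 : ℕ) = 0) then 1 else 0

private theorem c2_app (d : ℕ) (q : Fin 2 → ℂ) : app (c2F d) q = fun i => q i ^ d := by
  have h0 : app (c2F d) q 0 = q 0 ^ d := by
    unfold app
    rw [Finset.sum_eq_single (Fin.last d)]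
    · have h : c2F d (0, Fin.last d) = 1 := by
        unfold c2F
        rw [if_pos (Or.inl ⟨rfl, Fin.val_last d⟩)]
      rw [h, Fin.val_last, Nat.sub_self, pow_zero, one_mul, mul_one]
    · intro b _ hb
      have h : c2F d (0, b) = 0 := by
        unfold c2F
        rw [if_neg]
        rintro (h | h)
        · exact hb (Fin.ext (by rw [Fin.val_last]; exact h.2))
        · exact absurd h.1 (by norm_num)
      rw [h, zero_mul, zero_mul]
    · intro h
      exact absurd (Finset.mem_univ _) h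
  have h1 : app (c2F d) q 1 = q 1 ^ d := by
    unfold app
    rw [Finset.sum_eq_single (0 : Fin (d + 1))]
    · have h : c2F d (1, 0) = 1 := by
        unfold c2F
        rw [if_pos (Or.inr ⟨rfl, rfl⟩)]
      rw [h, one_mul]
      simp
    · intro b _ hb
      have h : c2F d (1, b) = 0 := by
        unfold c2F
        rw [if_neg]
        rintro (h | h)
        · exact absurd h.1 (by norm_num)
        · exact hb (Fin.ext h.2)
      rw [h, zero_mul, zero_mul]
    · intro h
      exact absurd (Finset.mem_univ _) h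
  funext i
  fin_cases i
  · exact h0
  · exact h1

private theorem c2_iter (d m : ℕ) (q : Fin 2 → ℂ) :
    (app (c2F d))^[m] q = fun i => q i ^ (d ^ m) := by
  induction m with
  | zero =>
    funext i
    simp
  | succ m ih =>
    rw [Function.iterate_succ_apply', ih, c2_app]
    funext i
    rw [← pow_mul, pow_succ]

/-- PROOF. `F = (x^d, y^d)`, that is `F (0, k) = 1` if `k = d`, `F (1, k) = 1` if `k = 0`, zero otherwise; `app F q = (q 0 ^ d, q 1 ^ d)`, so
`app F^[m] q = (q 0 ^ (d^m), q 1 ^ (d^m))`. `p = (ζ, 1)`, `ζ` a primitive root of unity of order `d ^ n - 1 ≥ 1`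
(`Complex.isPrimitiveRoot_exp`). `ζ ^ (d^m) = ζ` iff `ζ ^ (d^m - 1) = 1` iff `d ^ n - 1` divides `d ^ m - 1`, which fails for `0 < m < n` since
`0 < d^m - 1 < d^n - 1` (`d ≥ 2`). -/
theorem exists_marked (d n : ℕ) (hd : 2 ≤ d) (hn : 1 ≤ n) : (Marked d n).Nonempty := by
  have hdn : 2 ≤ d ^ n := by
    calc 2 ≤ d := hd
      _ = d ^ 1 := (pow_one d).symm
      _ ≤ d ^ n := Nat.pow_le_pow_right (by omega) hn
  have hN : d ^ n - 1 ≠ 0 := by omega
  obtain ⟨ζ, hζ⟩ : ∃ ζ : ℂ, IsPrimitiveRoot ζ (d ^ n - 1) := ⟨_, Complex.isPrimitiveRoot_exp _ hN⟩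
  have hζ0 : ζ ≠ 0 := hζ.ne_zero hN
  have hw : ∀ m, wd ((app (c2F d))^[m] ![ζ, 1]) ![ζ, 1] = ζ ^ (d ^ m) - ζ := by
    intro m
    rw [c2_iter]
    unfold wd
    simp
  have hz : ∀ m, ζ ^ (d ^ m) - ζ = ζ * (ζ ^ (d ^ m - 1) - 1) := by
    intro m
    have h1 : 1 ≤ d ^ m := Nat.one_le_pow _ _ (by omega)
    have h2 : ζ ^ (d ^ m) = ζ * ζ ^ (d ^ m - 1) := by
      rw [← pow_succ', Nat.sub_add_cancel h1]
    rw [h2]
    ring
  refine ⟨mk (c2F d) ![ζ, 1], ?_, ?_, ?_, ?_⟩
  · change IsMap (c2F d)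
    intro q hq h
    rw [c2_app] at h
    apply hq
    funext i
    have := congrFun h i
    exact pow_eq_zero_iff (by omega) |>.1 this
  · change (![ζ, 1] : Fin 2 → ℂ) ≠ 0
    intro h
    have := congrFun h 1
    simp at this
  · change wd ((app (c2F d))^[n] ![ζ, 1]) ![ζ, 1] = 0
    rw [hw, hz, hζ.pow_eq_one, sub_self, mul_zero]
  · intro m hm hmn
    change wd ((app (c2F d))^[m] ![ζ, 1]) ![ζ, 1] ≠ 0
    rw [hw, hz]
    intro h
    have h1 : ζ ^ (d ^ m - 1) = 1 := by
      have := (mul_eq_zero.1 h).resolve_left hζ0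
      exact sub_eq_zero.1 this
    have h2 := hζ.dvd_of_pow_eq_one _ h1
    have h3 : d ^ m < d ^ n := Nat.pow_lt_pow_right (by omega) hmn
    have h4 : 2 ≤ d ^ m := by
      calc 2 ≤ d := hd
        _ = d ^ 1 := (pow_one d).symm
        _ ≤ d ^ m := Nat.pow_le_pow_right (by omega) hm
    have h5 := Nat.le_of_dvd (by omega) h2
    omega

end Pool.Agent.Lib.H90M
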