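import Mathlib

/-!
# H90M: the moduli space of maps of degree `d` with a marked point of period `n` (definitions)
-/

namespace Pool.Agent.Lib.H90M

open MvPolynomial

noncomputable section

/-- The coordinates: the coefficients of two binary forms of degree `d`, and a vector of `ℂ²`. -/
abbrev Coord (d : ℕ) : Type := (Fin 2 × Fin (d + 1)) ⊕ Fin 2

/-- The pair of binary forms with coefficients `F`, as a map `ℂ² → ℂ²`: `(x, y) ↦ (∑ F i k x^k y^(d-k))_i`. -/
def app {d : ℕ} (F : Fin 2 × Fin (d + 1) → ℂ) (q : Fin 2 → ℂ) : Fin 2 → ℂ :=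
  fun i => ∑ k : Fin (d + 1), F (i, k) * q 0 ^ (k : ℕ) * q 1 ^ (d - (k : ℕ))

/-- The pair `F` defines a morphism `ℙ¹ → ℙ¹` of degree `d`: the two forms have no common zero. -/
def IsMap {d : ℕ} (F : Fin 2 × Fin (d + 1) → ℂ) : Prop := ∀ q : Fin 2 → ℂ, q ≠ 0 → app F q ≠ 0

/-- The bracket `p 0 * q 1 - p 1 * q 0`. -/
def wd (p q : Fin 2 → ℂ) : ℂ := p 0 * q 1 - p 1 * q 0

/-- The class of `p ≠ 0` in `ℙ¹` has exact period `n`. -/
def ExactPeriod {d : ℕ} (n : ℕ) (F : Fin 2 × Fin (d + 1) → ℂ) (p : Fin 2 → ℂ) : Prop :=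
  p ≠ 0 ∧ wd ((app F)^[n] p) p = 0 ∧ ∀ m, 0 < m → m < n → wd ((app F)^[m] p) p ≠ 0

/-- The pair of forms of a point. -/
def mapOf {d : ℕ} (v : Coord d → ℂ) : Fin 2 × Fin (d + 1) → ℂ := fun x => v (Sum.inl x)

/-- The marked point. -/
def ptOf {d : ℕ} (v : Coord d → ℂ) : Fin 2 → ℂ := fun i => v (Sum.inr i)

/-- The point with given forms and marked point. -/
def mk {d : ℕ} (F : Fin 2 × Fin (d + 1) → ℂ) (p : Fin 2 → ℂ) : Coord d → ℂ := Sum.elim F p

/-- The maps of degree `d` with a marked point of exact period `n`. -/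
def Marked (d n : ℕ) : Set (Coord d → ℂ) := {v | IsMap (mapOf v) ∧ ExactPeriod n (mapOf v) (ptOf v)}

/-- `v` and `v'` give the same point of the moduli space: there is `g` in `GL₂(ℂ)` with `f' ∘ g = g ∘ f` on `ℙ¹` and
`P' = g P`. -/
def Conj {d : ℕ} (v v' : Coord d → ℂ) : Prop :=
  ∃ (g : Matrix (Fin 2) (Fin 2) ℂ) (a b : ℂ), g.det ≠ 0 ∧ a ≠ 0 ∧ b ≠ 0 ∧
    (∀ q, app (mapOf v') (g.mulVec q) = a • g.mulVec (app (mapOf v) q)) ∧ ptOf v' = b • g.mulVec (ptOf v)

/-- The set `V` is irreducible in the Zariski topology. -/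
def Irred {X : Type} (V : Set (X → ℂ)) : Prop :=
  V.Nonempty ∧ ∀ f g : MvPolynomial X ℂ, (∀ v ∈ V, eval v f = 0 ∨ eval v g = 0) →
    (∀ v ∈ V, eval v f = 0) ∨ (∀ v ∈ V, eval v g = 0)

/-- The quotient of `V` by the relation `R` is a rational variety with coordinates indexed by `P`: `V` is irreducible, and there are
a nonempty Zariski open subset `V_h = {h ≠ 0}` of `V`, rational functions `N j / D j` on `V_h` which are constant on the classes of
`R` (that is, invariant rational functions), a nonempty Zariski open set `{e ≠ 0}` of `ℂ^P` and a polynomial map `s`, such that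
`N / D` induces a bijection from the set of the classes which meet `V_h` onto `{e ≠ 0}`, with inverse `s`. -/
def RatQuot {X : Type} (V : Set (X → ℂ)) (R : (X → ℂ) → (X → ℂ) → Prop) (P : Type) : Prop :=
  Irred V ∧ ∃ (h : MvPolynomial X ℂ) (N D : P → MvPolynomial X ℂ) (s : X → MvPolynomial P ℂ) (e : MvPolynomial P ℂ),
    e ≠ 0 ∧ (∃ v ∈ V, eval v h ≠ 0) ∧
    (∀ v ∈ V, eval v h ≠ 0 → (∀ j, eval v (D j) ≠ 0) ∧ eval (fun j => eval v (N j) / eval v (D j)) e ≠ 0 ∧
      R v (fun x => eval (fun j => eval v (N j) / eval v (D j)) (s x))) ∧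
    (∀ v ∈ V, ∀ v' ∈ V, R v v' → eval v h ≠ 0 → eval v' h ≠ 0 →
      ∀ j, eval v' (N j) / eval v' (D j) = eval v (N j) / eval v (D j)) ∧
    (∀ u : P → ℂ, eval u e ≠ 0 → (fun x => eval u (s x)) ∈ V ∧ eval (fun x => eval u (s x)) h ≠ 0 ∧
      ∀ j, eval (fun x => eval u (s x)) (N j) / eval (fun x => eval u (s x)) (D j) = u j)

/-- `φ` is a polynomial function. -/
def IsPoly {X : Type} (φ : (X → ℂ) → ℂ) : Prop := ∃ P : MvPolynomial X ℂ, ∀ v, eval v P = φ v

end

end Pool.Agent.Lib.H90M
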