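import Pool.Agent.Lib.H90M.Defs

/-!
# F1 (M): polynomial functions
-/

namespace Pool.Agent.Lib.H90M

open MvPolynomial

variable {X Y : Type}

theorem isPoly_const (c : ℂ) : IsPoly (fun _ : X → ℂ => c) := by
  exact ⟨C c, fun v => by simp⟩

theorem isPoly_coord (x : X) : IsPoly (fun v : X → ℂ => v x) := by
  exact ⟨MvPolynomial.X x, fun v => by simp⟩

theorem isPoly_add {φ ψ : (X → ℂ) → ℂ} (h1 : IsPoly φ) (h2 : IsPoly ψ) : IsPoly (fun v => φ v + ψ v) := by
  obtain ⟨P, hP⟩ := h1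
  obtain ⟨Q, hQ⟩ := h2
  exact ⟨P + Q, fun v => by rw [map_add, hP, hQ]⟩

theorem isPoly_mul {φ ψ : (X → ℂ) → ℂ} (h1 : IsPoly φ) (h2 : IsPoly ψ) : IsPoly (fun v => φ v * ψ v) := by
  obtain ⟨P, hP⟩ := h1
  obtain ⟨Q, hQ⟩ := h2
  exact ⟨P * Q, fun v => by rw [map_mul, hP, hQ]⟩

theorem isPoly_neg {φ : (X → ℂ) → ℂ} (h1 : IsPoly φ) : IsPoly (fun v => -φ v) := by
  obtain ⟨P, hP⟩ := h1
  exact ⟨-P, fun v => by rw [map_neg, hP]⟩

theorem isPoly_sub {φ ψ : (X → ℂ) → ℂ} (h1 : IsPoly φ) (h2 : IsPoly ψ) : IsPoly (fun v => φ v - ψ v) := by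
  obtain ⟨P, hP⟩ := h1
  obtain ⟨Q, hQ⟩ := h2
  exact ⟨P - Q, fun v => by rw [map_sub, hP, hQ]⟩

theorem isPoly_pow {φ : (X → ℂ) → ℂ} (h1 : IsPoly φ) (k : ℕ) : IsPoly (fun v => φ v ^ k) := by
  obtain ⟨P, hP⟩ := h1
  exact ⟨P ^ k, fun v => by rw [map_pow, hP]⟩

theorem isPoly_sum {ι : Type} (s : Finset ι) {φ : ι → (X → ℂ) → ℂ} (h : ∀ i, IsPoly (φ i)) :
    IsPoly (fun v => ∑ i ∈ s, φ i v) := by
  choose P hP using h
  exact ⟨∑ i ∈ s, P i, fun v => by rw [map_sum]; exact Finset.sum_congr rfl fun i _ => hP i v⟩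

theorem isPoly_prod {ι : Type} (s : Finset ι) {φ : ι → (X → ℂ) → ℂ} (h : ∀ i, IsPoly (φ i)) :
    IsPoly (fun v => ∏ i ∈ s, φ i v) := by
  choose P hP using h
  exact ⟨∏ i ∈ s, P i, fun v => by rw [map_prod]; exact Finset.prod_congr rfl fun i _ => hP i v⟩

/-- Composition with a polynomial map. PROOF. `MvPolynomial.aeval` or `bind₁` of the polynomials of the components of `s`. -/
theorem isPoly_comp {φ : (X → ℂ) → ℂ} (h : IsPoly φ) {s : (Y → ℂ) → X → ℂ} (hs : ∀ x, IsPoly fun w => s w x) :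
    IsPoly fun w => φ (s w) := by
  obtain ⟨P, hP⟩ := h
  choose Q hQ using hs
  refine ⟨MvPolynomial.aeval Q P, fun w => ?_⟩
  have h1 : (eval w).comp ((MvPolynomial.aeval Q : MvPolynomial X ℂ →ₐ[ℂ] MvPolynomial Y ℂ) :
      MvPolynomial X ℂ →+* MvPolynomial Y ℂ) = eval (s w) := by
    refine MvPolynomial.ringHom_ext (fun r => ?_) (fun x => ?_)
    · simp
    · simp [hQ]
  have h2 := RingHom.congr_fun h1 P
  change (eval w) ((aeval Q) P) = φ (s w)
  rw [← hP]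
  exact h2

theorem isPoly_mulVec {ι κ : Type} [Fintype κ] {M : (X → ℂ) → Matrix ι κ ℂ} {w : (X → ℂ) → κ → ℂ}
    (hM : ∀ i j, IsPoly fun v => M v i j) (hw : ∀ j, IsPoly fun v => w v j) (i : ι) :
    IsPoly fun v => (M v).mulVec (w v) i := by
  exact isPoly_sum Finset.univ (φ := fun j v => M v i j * w v j) fun j => isPoly_mul (hM i j) (hw j)

theorem isPoly_matmul {ι κ l : Type} [Fintype κ] {M : (X → ℂ) → Matrix ι κ ℂ} {N : (X → ℂ) → Matrix κ l ℂ}
    (hM : ∀ i j, IsPoly fun v => M v i j) (hN : ∀ i j, IsPoly fun v => N v i j) (i : ι) (j : l) :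
    IsPoly fun v => (M v * N v) i j := by
  have h := isPoly_sum Finset.univ (φ := fun k v => M v i k * N v k j)
    fun k => isPoly_mul (hM i k) (hN k j)
  obtain ⟨P, hP⟩ := h
  refine ⟨P, fun v => ?_⟩
  rw [hP]
  exact (Matrix.mul_apply).symm

/-- PROOF. Choose a matrix `P` of polynomials; `RingHom.map_det`. -/
theorem isPoly_det {ι : Type} [Fintype ι] [DecidableEq ι] {M : (X → ℂ) → Matrix ι ι ℂ}
    (hM : ∀ i j, IsPoly fun v => M v i j) : IsPoly fun v => (M v).det := by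
  choose P hP using hM
  refine ⟨(Matrix.of P).det, fun v => ?_⟩
  rw [RingHom.map_det]
  congr 1
  ext i j
  exact hP i j v

/-- PROOF. As for the determinant, with `RingHom.map_adjugate`. -/
theorem isPoly_adj {ι : Type} [Fintype ι] [DecidableEq ι] {M : (X → ℂ) → Matrix ι ι ℂ}
    (hM : ∀ i j, IsPoly fun v => M v i j) (i j : ι) : IsPoly fun v => (M v).adjugate i j := by
  choose P hP using hM
  refine ⟨(Matrix.of P).adjugate i j, fun v => ?_⟩
  have h1 : (eval v).mapMatrix (Matrix.of P) = M v := by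
    ext i j
    exact hP i j v
  have h2 := RingHom.map_adjugate (eval v) (Matrix.of P)
  rw [h1] at h2
  exact congrFun (congrFun h2 i) j

theorem isPoly_app {d : ℕ} {F : (X → ℂ) → Fin 2 × Fin (d + 1) → ℂ} {q : (X → ℂ) → Fin 2 → ℂ}
    (hF : ∀ x, IsPoly fun v => F v x) (hq : ∀ i, IsPoly fun v => q v i) (i : Fin 2) :
    IsPoly fun v => app (F v) (q v) i := by
  exact isPoly_sum Finset.univ
    (φ := fun (k : Fin (d + 1)) v => F v (i, k) * q v 0 ^ (k : ℕ) * q v 1 ^ (d - (k : ℕ)))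
    fun k => isPoly_mul (isPoly_mul (hF (i, k)) (isPoly_pow (hq 0) _)) (isPoly_pow (hq 1) _)

theorem isPoly_iter {d : ℕ} {F : (X → ℂ) → Fin 2 × Fin (d + 1) → ℂ} {q : (X → ℂ) → Fin 2 → ℂ}
    (hF : ∀ x, IsPoly fun v => F v x) (hq : ∀ i, IsPoly fun v => q v i) (m : ℕ) (i : Fin 2) :
    IsPoly fun v => (app (F v))^[m] (q v) i := by
  induction m generalizing q with
  | zero => exact hq i
  | succ m ih =>
    simp only [Function.iterate_succ_apply]
    exact ih (q := fun v => app (F v) (q v)) fun i => isPoly_app hF hq i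

/-- PROOF. Nonzero polynomials have a nonzero product, which does not vanish identically (`MvPolynomial.funext`). -/
theorem exists_common {φ ψ : (X → ℂ) → ℂ} (h1 : IsPoly φ) (h2 : IsPoly ψ) (hφ : ∃ v, φ v ≠ 0) (hψ : ∃ v, ψ v ≠ 0) :
    ∃ v, φ v ≠ 0 ∧ ψ v ≠ 0 := by
  obtain ⟨P, hP⟩ := h1
  obtain ⟨Q, hQ⟩ := h2
  obtain ⟨a, ha⟩ := hφ
  obtain ⟨b, hb⟩ := hψ
  have hP0 : P ≠ 0 := by
    rintro rfl
    exact ha (by rw [← hP, map_zero])
  have hQ0 : Q ≠ 0 := by
    rintro rfl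
    exact hb (by rw [← hQ, map_zero])
  by_contra hcon
  push Not at hcon
  apply mul_ne_zero hP0 hQ0
  apply MvPolynomial.funext
  intro v
  rw [map_zero, map_mul, hP, hQ]
  by_cases h : φ v = 0
  · rw [h, zero_mul]
  · rw [hcon v h, mul_zero]

/-- Clearing denominators. PROOF. For every `e` there are `k` and a polynomial `E` with
`E v = (∏ D j v)^k * e (N v / D v)` if all `D j v ≠ 0`: induction on `e` (`MvPolynomial.induction_on`: constants `k = 0`;
sums: multiply with powers of `∏ D j`; product with a variable `X j`: `k + 1`, times `N j * ∏ (i ≠ j) D i`). Take `E * ∏ D j`. -/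
theorem clear_den {P : Type} [Fintype P] (N D : P → MvPolynomial X ℂ) (e : MvPolynomial P ℂ) :
    ∃ h : MvPolynomial X ℂ, ∀ v, eval v h ≠ 0 ↔
      (∀ j, eval v (D j) ≠ 0) ∧ eval (fun j => eval v (N j) / eval v (D j)) e ≠ 0 := by
  classical
  have key : ∀ e : MvPolynomial P ℂ, ∃ (k : ℕ) (E : MvPolynomial X ℂ), ∀ v, (∀ j, eval v (D j) ≠ 0) →
      eval v E = (∏ j, eval v (D j)) ^ k * eval (fun j => eval v (N j) / eval v (D j)) e := by
    intro e
    induction e using MvPolynomial.induction_on with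
    | C a => exact ⟨0, C a, fun v _ => by simp⟩
    | add p q hp hq =>
      obtain ⟨k1, E1, h1⟩ := hp
      obtain ⟨k2, E2, h2⟩ := hq
      refine ⟨k1 + k2, (∏ j, D j) ^ k2 * E1 + (∏ j, D j) ^ k1 * E2, fun v hv => ?_⟩
      rw [map_add, map_mul, map_mul, map_pow, map_pow, map_prod, h1 v hv, h2 v hv, map_add]
      ring
    | mul_X p j hp =>
      obtain ⟨k, E, h⟩ := hp
      refine ⟨k + 1, E * N j * ∏ i ∈ Finset.univ.erase j, D i, fun v hv => ?_⟩
      rw [map_mul, map_mul, map_prod, h v hv, map_mul, eval_X]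
      have h1 : ∏ i, eval v (D i) = eval v (D j) * ∏ i ∈ Finset.univ.erase j, eval v (D i) :=
        (Finset.mul_prod_erase _ _ (Finset.mem_univ j)).symm
      rw [pow_succ]
      nth_rewrite 3 [h1]
      have h2 := hv j
      field_simp
  obtain ⟨k, E, hE⟩ := key e
  refine ⟨E * ∏ j, D j, fun v => ?_⟩
  rw [map_mul, map_prod]
  constructor
  · intro h
    have h1 : ∀ j, eval v (D j) ≠ 0 := fun j =>
      Finset.prod_ne_zero_iff.1 (right_ne_zero_of_mul h) j (Finset.mem_univ j)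
    refine ⟨h1, ?_⟩
    have h2 := left_ne_zero_of_mul h
    rw [hE v h1] at h2
    exact right_ne_zero_of_mul h2
  · rintro ⟨h1, h2⟩
    rw [hE v h1]
    have h3 : ∏ j, eval v (D j) ≠ 0 := Finset.prod_ne_zero_iff.2 fun j _ => h1 j
    exact mul_ne_zero (mul_ne_zero (pow_ne_zero _ h3) h2) h3

end Pool.Agent.Lib.H90M
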