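import Pool.Agent.Lib.H90M.F1

/-!
# F2 (M): pairs of binary forms
-/

namespace Pool.Agent.Lib.H90M

open MvPolynomial

noncomputable section

variable {X : Type} {d : ℕ}

private theorem F2_det (d : ℕ) :
    (Matrix.vandermonde fun j : Fin (d + 1) => ((j : ℕ) : ℂ)).det ≠ 0 := by
  rw [Matrix.det_vandermonde_ne_zero_iff]
  intro i j hij
  have h : ((i : ℕ) : ℂ) = ((j : ℕ) : ℂ) := hij
  exact Fin.ext (by exact_mod_cast h)

private theorem F2_mulVec (d : ℕ) (a : Fin (d + 1) → ℂ) (j : Fin (d + 1)) :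
    (Matrix.vandermonde fun j : Fin (d + 1) => ((j : ℕ) : ℂ)).mulVec a j =
      ∑ k : Fin (d + 1), a k * ((j : ℕ) : ℂ) ^ (k : ℕ) := by
  simp only [Matrix.mulVec, dotProduct, Matrix.vandermonde_apply]
  exact Finset.sum_congr rfl fun k _ => mul_comm _ _

/-- binary forms of degree `e`, as functions -/
private def F2_form (e : ℕ) (φ : (Fin 2 → ℂ) → ℂ) : Prop :=
  ∃ a : Fin (e + 1) → ℂ, ∀ q, φ q = ∑ k : Fin (e + 1), a k * q 0 ^ (k : ℕ) * q 1 ^ (e - (k : ℕ))

private theorem F2_congr {e : ℕ} {φ ψ : (Fin 2 → ℂ) → ℂ} (h : F2_form e φ) (hq : ∀ q, ψ q = φ q) :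
    F2_form e ψ := by
  obtain ⟨a, ha⟩ := h
  exact ⟨a, fun q => (hq q).trans (ha q)⟩

private theorem F2_const (c : ℂ) : F2_form 0 (fun _ => c) := by
  refine ⟨fun _ => c, fun q => ?_⟩
  simp

private theorem F2_add {e : ℕ} {φ ψ : (Fin 2 → ℂ) → ℂ} (h1 : F2_form e φ) (h2 : F2_form e ψ) :
    F2_form e (fun q => φ q + ψ q) := by
  obtain ⟨a, ha⟩ := h1
  obtain ⟨b, hb⟩ := h2
  refine ⟨fun k => a k + b k, fun q => ?_⟩
  simp only [ha q, hb q]
  rw [← Finset.sum_add_distrib]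
  exact Finset.sum_congr rfl fun k _ => by ring

private theorem F2_smul {e : ℕ} {φ : (Fin 2 → ℂ) → ℂ} (c : ℂ) (h1 : F2_form e φ) :
    F2_form e (fun q => c * φ q) := by
  obtain ⟨a, ha⟩ := h1
  refine ⟨fun k => c * a k, fun q => ?_⟩
  simp only [ha q, Finset.mul_sum]
  exact Finset.sum_congr rfl fun k _ => by ring

private theorem F2_sum {e : ℕ} {ι : Type} (s : Finset ι) {φ : ι → (Fin 2 → ℂ) → ℂ}
    (h : ∀ i, F2_form e (φ i)) : F2_form e (fun q => ∑ i ∈ s, φ i q) := by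
  choose a ha using h
  refine ⟨fun k => ∑ i ∈ s, a i k, fun q => ?_⟩
  simp only [fun i => ha i q]
  rw [Finset.sum_comm]
  refine Finset.sum_congr rfl fun k _ => ?_
  rw [Finset.sum_mul, Finset.sum_mul]

private theorem F2_mul0 {e : ℕ} {φ : (Fin 2 → ℂ) → ℂ} (h1 : F2_form e φ) :
    F2_form (e + 1) (fun q => q 0 * φ q) := by
  obtain ⟨a, ha⟩ := h1
  refine ⟨Fin.cons 0 a, fun q => ?_⟩
  rw [Fin.sum_univ_succ]
  simp only [ha q, Fin.cons_zero, zero_mul, zero_add, Fin.cons_succ, Finset.mul_sum, Fin.val_succ]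
  refine Finset.sum_congr rfl fun k _ => ?_
  have h2 : e + 1 - ((k : ℕ) + 1) = e - (k : ℕ) := by omega
  rw [h2]
  ring

private theorem F2_mul1 {e : ℕ} {φ : (Fin 2 → ℂ) → ℂ} (h1 : F2_form e φ) :
    F2_form (e + 1) (fun q => q 1 * φ q) := by
  obtain ⟨a, ha⟩ := h1
  refine ⟨Fin.snoc a 0, fun q => ?_⟩
  rw [Fin.sum_univ_castSucc]
  simp only [ha q, Fin.snoc_last, zero_mul, add_zero, Fin.snoc_castSucc, Finset.mul_sum,
    Fin.val_castSucc]
  refine Finset.sum_congr rfl fun k _ => ?_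
  have h2 : e + 1 - (k : ℕ) = e - (k : ℕ) + 1 := by omega
  rw [h2, pow_succ]
  ring

private theorem F2_lin {e : ℕ} (α β : ℂ) {φ : (Fin 2 → ℂ) → ℂ} (h1 : F2_form e φ) :
    F2_form (e + 1) (fun q => (α * q 0 + β * q 1) * φ q) := by
  refine F2_congr (F2_add (F2_smul α (F2_mul0 h1)) (F2_smul β (F2_mul1 h1))) fun q => ?_
  ring

private theorem F2_pow {e : ℕ} (α β : ℂ) {φ : (Fin 2 → ℂ) → ℂ} (h1 : F2_form e φ) (n : ℕ) :
    F2_form (e + n) (fun q => (α * q 0 + β * q 1) ^ n * φ q) := by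
  induction n with
  | zero => exact F2_congr h1 fun q => by simp
  | succ n ih =>
    refine F2_congr (F2_lin α β ih) fun q => ?_
    rw [pow_succ]
    ring

theorem app_smul (F : Fin 2 × Fin (d + 1) → ℂ) (c : ℂ) (q : Fin 2 → ℂ) : app F (c • q) = c ^ d • app F q := by
  funext i
  simp only [app, Pi.smul_apply, smul_eq_mul, Finset.mul_sum]
  refine Finset.sum_congr rfl fun k _ => ?_
  have hk : (k : ℕ) + (d - (k : ℕ)) = d := by omega
  have h1 : c ^ d = c ^ (k : ℕ) * c ^ (d - (k : ℕ)) := by rw [← pow_add, hk]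
  rw [h1, mul_pow, mul_pow]
  ring

theorem app_coef_smul (F : Fin 2 × Fin (d + 1) → ℂ) (c : ℂ) (q : Fin 2 → ℂ) : app (c • F) q = c • app F q := by
  funext i
  simp only [app, Pi.smul_apply, smul_eq_mul, Finset.mul_sum]
  refine Finset.sum_congr rfl fun k _ => ?_
  ring

/-- The value at the point `(t, 1)`. -/
theorem app_one (F : Fin 2 × Fin (d + 1) → ℂ) (t : ℂ) (i : Fin 2) :
    app F ![t, 1] i = ∑ k : Fin (d + 1), F (i, k) * t ^ (k : ℕ) := by
  simp [app]

/-- The coefficients are determined by the values at the points `(j, 1)`, `j ≤ d`. PROOF. `app_one`, the Vandermonde matrix is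
invertible (`Matrix.det_vandermonde_ne_zero_iff`). -/
theorem app_ext {F G : Fin 2 × Fin (d + 1) → ℂ} (h : ∀ j : Fin (d + 1), app F ![((j : ℕ) : ℂ), 1] = app G ![((j : ℕ) : ℂ), 1]) :
    F = G := by
  have hdet : (Matrix.vandermonde fun j : Fin (d + 1) => ((j : ℕ) : ℂ)).det ≠ 0 := F2_det d
  funext x
  obtain ⟨i, k⟩ := x
  have h1 : (Matrix.vandermonde fun j : Fin (d + 1) => ((j : ℕ) : ℂ)).mulVec
      (fun k => F (i, k) - G (i, k)) = 0 := by
    funext j
    have h2 := congrFun (h j) i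
    rw [app_one, app_one] at h2
    rw [F2_mulVec, Pi.zero_apply]
    have h3 : ∑ k : Fin (d + 1), (F (i, k) - G (i, k)) * ((j : ℕ) : ℂ) ^ (k : ℕ) =
        ∑ k : Fin (d + 1), F (i, k) * ((j : ℕ) : ℂ) ^ (k : ℕ) -
        ∑ k : Fin (d + 1), G (i, k) * ((j : ℕ) : ℂ) ^ (k : ℕ) := by
      rw [← Finset.sum_sub_distrib]
      exact Finset.sum_congr rfl fun k _ => by ring
    rw [h3, h2, sub_self]
  have h4 := Matrix.eq_zero_of_mulVec_eq_zero hdet h1
  have h5 := congrFun h4 k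
  simp only [Pi.zero_apply] at h5
  exact sub_eq_zero.mp h5

/-- The composition of a pair of forms with linear maps is a pair of forms. PROOF. For a scalar form: the functions
`q ↦ (a q 0 + b q 1)^k (a' q 0 + b' q 1)^(d-k)` are forms of degree `d` (products of forms are forms: prove for functions
`φ : (Fin 2 → ℂ) → ℂ` that `(∃ a : Fin (e + 1) → ℂ, ∀ q, φ q = ∑ k, a k * q 0 ^ k * q 1 ^ (e - k))` is stable under sums, scalar
multiples and, with degrees added, under multiplication by `q 0` and `q 1`, so by linear forms; induction). -/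
theorem exists_comp (A C : Matrix (Fin 2) (Fin 2) ℂ) (F : Fin 2 × Fin (d + 1) → ℂ) :
    ∃ G : Fin 2 × Fin (d + 1) → ℂ, ∀ q, app G q = A.mulVec (app F (C.mulVec q)) := by
  have h1 : ∀ i : Fin 2, F2_form d (fun q => app F (C.mulVec q) i) := by
    intro i
    have h2 : ∀ k : Fin (d + 1), F2_form d (fun q => F (i, k) * (C.mulVec q 0) ^ (k : ℕ) *
        (C.mulVec q 1) ^ (d - (k : ℕ))) := by
      intro k
      have h3 : F2_form 0 (fun _ : Fin 2 → ℂ => F (i, k)) := F2_const _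
      have h4 := F2_pow (C 1 0) (C 1 1) h3 (d - (k : ℕ))
      have h5 := F2_pow (C 0 0) (C 0 1) h4 (k : ℕ)
      have h6 : 0 + (d - (k : ℕ)) + (k : ℕ) = d := by omega
      rw [h6] at h5
      refine F2_congr h5 fun q => ?_
      simp only [Matrix.mulVec, dotProduct, Fin.sum_univ_two]
      ring
    exact F2_sum Finset.univ h2
  have h7 : ∀ i : Fin 2, F2_form d (fun q => A.mulVec (app F (C.mulVec q)) i) := by
    intro i
    have h8 := F2_add (F2_smul (A i 0) (h1 0)) (F2_smul (A i 1) (h1 1))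
    refine F2_congr h8 fun q => ?_
    simp only [Matrix.mulVec, dotProduct, Fin.sum_univ_two]
  choose a ha using h7
  refine ⟨fun x => a x.1 x.2, fun q => ?_⟩
  funext i
  exact (ha i q).symm

/-- The inverse of the Vandermonde matrix of `0, 1, ..., d`. -/
def lam (d : ℕ) : Matrix (Fin (d + 1)) (Fin (d + 1)) ℂ := (Matrix.vandermonde fun j : Fin (d + 1) => ((j : ℕ) : ℂ))⁻¹

/-- The coefficients of the pair of forms `q ↦ A F(C q)`. -/
def act (A C : Matrix (Fin 2) (Fin 2) ℂ) (F : Fin 2 × Fin (d + 1) → ℂ) : Fin 2 × Fin (d + 1) → ℂ :=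
  fun x => ∑ j : Fin (d + 1), lam d x.2 j * A.mulVec (app F (C.mulVec ![((j : ℕ) : ℂ), 1])) x.1

/-- PROOF. Let `G` be as in `exists_comp`. Its coefficients are `lam` times the values at the points `(j, 1)` (`app_one`), so
`G = act A C F`. -/
theorem act_app (A C : Matrix (Fin 2) (Fin 2) ℂ) (F : Fin 2 × Fin (d + 1) → ℂ) (q : Fin 2 → ℂ) :
    app (act A C F) q = A.mulVec (app F (C.mulVec q)) := by
  obtain ⟨G, hG⟩ := exists_comp A C F
  have h1 : act A C F = G := by
    funext x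
    obtain ⟨i, k⟩ := x
    unfold act
    simp only
    have h2 : ∀ j : Fin (d + 1), A.mulVec (app F (C.mulVec ![((j : ℕ) : ℂ), 1])) i =
        (Matrix.vandermonde fun j : Fin (d + 1) => ((j : ℕ) : ℂ)).mulVec (fun k => G (i, k)) j := by
      intro j
      rw [← hG, app_one, F2_mulVec]
    have h3 : ∑ j : Fin (d + 1), lam d k j * A.mulVec (app F (C.mulVec ![((j : ℕ) : ℂ), 1])) i =
        (lam d).mulVec ((Matrix.vandermonde fun j : Fin (d + 1) => ((j : ℕ) : ℂ)).mulVec
          (fun k => G (i, k))) k := by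
      simp only [h2]
      rfl
    rw [h3, Matrix.mulVec_mulVec]
    have h4 : lam d * (Matrix.vandermonde fun j : Fin (d + 1) => ((j : ℕ) : ℂ)) = 1 :=
      Matrix.nonsing_inv_mul _ (isUnit_iff_ne_zero.mpr (F2_det d))
    rw [h4, Matrix.one_mulVec]
  rw [h1, hG]

theorem isPoly_act {A C : (X → ℂ) → Matrix (Fin 2) (Fin 2) ℂ} {F : (X → ℂ) → Fin 2 × Fin (d + 1) → ℂ}
    (hA : ∀ i j, IsPoly fun v => A v i j) (hC : ∀ i j, IsPoly fun v => C v i j) (hF : ∀ x, IsPoly fun v => F v x)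
    (x : Fin 2 × Fin (d + 1)) : IsPoly fun v => act (A v) (C v) (F v) x := by
  unfold act
  refine isPoly_sum _ fun j => isPoly_mul (isPoly_const _) ?_
  refine isPoly_mulVec hA (fun i => isPoly_app hF (fun i => ?_) i) x.1
  refine isPoly_mulVec hC (fun i => ?_) i
  exact isPoly_const _

/-- Diagonal matrices (`!![b, 0; 0, a]` is the adjugate of `!![a, 0; 0, b]`). PROOF. Both sides have the same values (`act_app`), `app_ext`. -/
theorem act_diag (a b : ℂ) (F : Fin 2 × Fin (d + 1) → ℂ) (k : Fin (d + 1)) :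
    act !![a, 0; 0, b] !![b, 0; 0, a] F (0, k) = a * (b ^ (k : ℕ) * a ^ (d - (k : ℕ))) * F (0, k) ∧
    act !![a, 0; 0, b] !![b, 0; 0, a] F (1, k) = b * (b ^ (k : ℕ) * a ^ (d - (k : ℕ))) * F (1, k) := by
  have h1 : act !![a, 0; 0, b] !![b, 0; 0, a] F = fun x : Fin 2 × Fin (d + 1) =>
      (if x.1 = 0 then a else b) * (b ^ (x.2 : ℕ) * a ^ (d - (x.2 : ℕ))) * F x := by
    refine app_ext fun j => ?_
    rw [act_app]
    have h2 : (!![b, 0; 0, a] : Matrix (Fin 2) (Fin 2) ℂ).mulVec ![((j : ℕ) : ℂ), 1] =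
        ![b * ((j : ℕ) : ℂ), a] := by
      funext i
      fin_cases i <;> simp [Matrix.mulVec, dotProduct, Fin.sum_univ_two]
    rw [h2]
    funext i
    fin_cases i
    · simp only [Matrix.mulVec, dotProduct, Fin.sum_univ_two, app, Finset.mul_sum]
      simp only [Fin.zero_eta, Fin.isValue, Matrix.of_apply, Matrix.cons_val', Matrix.cons_val_zero,
        Matrix.cons_val_fin_one, Matrix.cons_val_one, zero_mul, Finset.sum_const_zero, add_zero,
        if_true]
      refine Finset.sum_congr rfl fun k _ => ?_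
      rw [mul_pow]
      ring
    · simp only [Matrix.mulVec, dotProduct, Fin.sum_univ_two, app, Finset.mul_sum]
      simp only [Fin.mk_one, Fin.isValue, Matrix.of_apply, Matrix.cons_val', Matrix.cons_val_zero,
        Matrix.cons_val_fin_one, Matrix.cons_val_one, zero_mul, Finset.sum_const_zero, zero_add,
        one_ne_zero, if_false]
      refine Finset.sum_congr rfl fun k _ => ?_
      rw [mul_pow]
      ring
  rw [h1]
  simp

end

end Pool.Agent.Lib.H90M
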