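import Pool.Agent.Lib.H90M.F1

/-!
# Q0: rational quotients from polynomial functions
-/

namespace Pool.Agent.Lib.H90M

open MvPolynomial

/-- The conditions of `RatQuot` with polynomial functions instead of polynomials. -/
theorem ratQuot_of {X P : Type} [Finite P] {V : Set (X → ℂ)} {R : (X → ℂ) → (X → ℂ) → Prop} (hirr : Irred V)
    {A : (X → ℂ) → ℂ} (hA : IsPoly A) {N D : P → (X → ℂ) → ℂ} (hN : ∀ j, IsPoly (N j)) (hD : ∀ j, IsPoly (D j))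
    {s : (P → ℂ) → X → ℂ} (hs : ∀ x, IsPoly fun u => s u x) {E : (P → ℂ) → ℂ} (hE : IsPoly E) (hE0 : ∃ u, E u ≠ 0)
    (h1 : ∀ v ∈ V, A v ≠ 0 → (∀ j, D j v ≠ 0) → E (fun j => N j v / D j v) ≠ 0 → R v (s fun j => N j v / D j v))
    (h2 : ∀ v ∈ V, ∀ v' ∈ V, R v v' → A v ≠ 0 → A v' ≠ 0 → (∀ j, D j v ≠ 0) → (∀ j, D j v' ≠ 0) →
      E (fun j => N j v / D j v) ≠ 0 → E (fun j => N j v' / D j v') ≠ 0 → ∀ j, N j v' / D j v' = N j v / D j v)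
    (h3 : ∀ u, E u ≠ 0 → s u ∈ V ∧ A (s u) ≠ 0 ∧ (∀ j, D j (s u) ≠ 0) ∧ ∀ j, N j (s u) / D j (s u) = u j) :
    RatQuot V R P := by
  have : Fintype P := Fintype.ofFinite P
  obtain ⟨a, ha⟩ := hA
  choose n hn using hN
  choose dd hdd using hD
  choose σ hσ using hs
  obtain ⟨e, he⟩ := hE
  obtain ⟨h, hh⟩ := clear_den n dd e
  have hs' : ∀ u, (fun x => eval u (σ x)) = s u := fun u => funext fun x => hσ x u
  have hr : ∀ v, (fun j => eval v (n j) / eval v (dd j)) = fun j => N j v / D j v := fun v => funext fun j => by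
    rw [hn, hdd]
  have key : ∀ v, eval v (a * h) ≠ 0 ↔ A v ≠ 0 ∧ (∀ j, D j v ≠ 0) ∧ E (fun j => N j v / D j v) ≠ 0 := by
    intro v
    rw [map_mul, ha, mul_ne_zero_iff, hh, hr, he]
    simp only [hdd]
  have h3' : ∀ u, E u ≠ 0 → s u ∈ V ∧ eval (s u) (a * h) ≠ 0 ∧ ∀ j, N j (s u) / D j (s u) = u j := by
    intro u hu
    obtain ⟨k1, k2, k3, k4⟩ := h3 u hu
    refine ⟨k1, (key _).2 ⟨k2, k3, ?_⟩, k4⟩
    have h5 : (fun j => N j (s u) / D j (s u)) = u := funext k4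
    rw [h5]
    exact hu
  refine ⟨hirr, a * h, n, dd, σ, e, ?_, ?_, ?_, ?_, ?_⟩
  · rintro rfl
    obtain ⟨u, hu⟩ := hE0
    apply hu
    rw [← he, map_zero]
  · obtain ⟨u, hu⟩ := hE0
    obtain ⟨k1, k2, -⟩ := h3' u hu
    exact ⟨s u, k1, k2⟩
  · intro v hv hv0
    obtain ⟨k1, k2, k3⟩ := (key v).1 hv0
    refine ⟨fun j => ?_, ?_, ?_⟩
    · rw [hdd]
      exact k2 j
    · rw [hr, he]
      exact k3
    · rw [hr, hs']
      exact h1 v hv k1 k2 k3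
  · intro v hv v' hv' hR hv0 hv0' j
    obtain ⟨k1, k2, k3⟩ := (key v).1 hv0
    obtain ⟨l1, l2, l3⟩ := (key v').1 hv0'
    rw [hn, hdd, hn, hdd]
    exact h2 v hv v' hv' hR k1 l1 k2 l2 k3 l3 j
  · intro u hu
    rw [he] at hu
    obtain ⟨k1, k2, k3⟩ := h3' u hu
    rw [hs']
    refine ⟨k1, k2, fun j => ?_⟩
    rw [hn, hdd]
    exact k3 j

end Pool.Agent.Lib.H90M
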