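import Pool.Agent.Lib.H90M.S2
import Pool.Agent.Lib.H90M.Q0

/-!
# R2 (M/L): rationality for `n = 2`
-/

namespace Pool.Agent.Lib.H90M

open MvPolynomial

noncomputable section

variable {d : ℕ}

/-- The free coordinates are those with `Fr2 x`. -/
def Fr2 (d : ℕ) (x : Fin 2 × Fin (d + 1)) : Prop :=
  ¬(x.1 = 0 ∧ (x.2 : ℕ) = d) ∧ ¬(x.1 = 1 ∧ ((x.2 : ℕ) = 0 ∨ (x.2 : ℕ) = d ∨ (x.2 : ℕ) + 1 = d))

open Classical in
/-- The section: the free coordinates are `u`, `F (1, d) = F (1, d - 1) = 1`, `F (0, d) = F (1, 0) = 0`. -/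
def ss2 (u : {x : Fin 2 × Fin (d + 1) // Fr2 d x} → ℂ) : Fin 2 × Fin (d + 1) → ℂ :=
  fun x => if h : Fr2 d x then u ⟨x, h⟩ else if x.1 = 1 ∧ (x.2 : ℕ) ≠ 0 then 1 else 0

theorem card_Fr2 (hd : 2 ≤ d) : Nat.card {x : Fin 2 × Fin (d + 1) // Fr2 d x} = 2 * d - 2 := by
  classical
  rw [Nat.card_eq_fintype_card, Fintype.card_subtype]
  have h1 : (Finset.univ.filter fun x : Fin 2 × Fin (d + 1) => ¬ Fr2 d x) =
      {(0, Fin.last d), (1, 0), (1, Fin.last d), (1, ⟨d - 1, by omega⟩)} := by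
    ext ⟨i, k⟩
    simp only [Finset.mem_filter, Finset.mem_univ, true_and, Finset.mem_insert, Finset.mem_singleton,
      Prod.mk.injEq, Fr2, not_and_or, Fin.ext_iff, Fin.val_last, Fin.val_zero, Fin.val_one]
    have := i.isLt
    have := k.isLt
    constructor
    · rintro (h | h)
      · left
        omega
      · right
        omega
    · rintro (h | h | h | h)
      · left
        omega
      · right
        omega
      · right
        omega
      · right
        omega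
  have h2 : (Finset.univ.filter fun x : Fin 2 × Fin (d + 1) => ¬ Fr2 d x).card = 4 := by
    rw [h1, Finset.card_insert_of_notMem, Finset.card_insert_of_notMem, Finset.card_insert_of_notMem,
      Finset.card_singleton]
    · simp only [Finset.mem_singleton, Prod.mk.injEq, Fin.ext_iff, Fin.val_last, not_and]
      omega
    · simp only [Finset.mem_insert, Finset.mem_singleton, Prod.mk.injEq, Fin.ext_iff, Fin.val_last,
        Fin.val_zero, Fin.val_one]
      omega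
    · simp only [Finset.mem_insert, Finset.mem_singleton, Prod.mk.injEq, Fin.ext_iff, Fin.val_last,
        Fin.val_zero, Fin.val_one]
      omega
  have h3 := Finset.card_filter_add_card_filter_not (s := (Finset.univ : Finset (Fin 2 × Fin (d + 1))))
    (fun x => Fr2 d x)
  have h4 : (Finset.univ : Finset (Fin 2 × Fin (d + 1))).card = 2 * (d + 1) := by
    rw [Finset.card_univ, Fintype.card_prod, Fintype.card_fin, Fintype.card_fin]
  omega

private theorem ss2_zero_last (u : {x : Fin 2 × Fin (d + 1) // Fr2 d x} → ℂ) : ss2 u (0, Fin.last d) = 0 := by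
  unfold ss2
  rw [dif_neg, if_neg]
  · rintro ⟨h, -⟩
    exact zero_ne_one h
  · rintro ⟨h, -⟩
    exact h ⟨rfl, rfl⟩

private theorem ss2_one_zero (u : {x : Fin 2 × Fin (d + 1) // Fr2 d x} → ℂ) : ss2 u (1, 0) = 0 := by
  unfold ss2
  rw [dif_neg, if_neg]
  · rintro ⟨-, h⟩
    exact h rfl
  · rintro ⟨-, h⟩
    exact h ⟨rfl, Or.inl rfl⟩

private theorem ss2_one_last (hd : 2 ≤ d) (u : {x : Fin 2 × Fin (d + 1) // Fr2 d x} → ℂ) :
    ss2 u (1, Fin.last d) = 1 := by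
  unfold ss2
  rw [dif_neg, if_pos]
  · refine ⟨rfl, ?_⟩
    simp only [Fin.val_last]
    omega
  · rintro ⟨-, h⟩
    exact h ⟨rfl, Or.inr (Or.inl rfl)⟩

private theorem ss2_one_pred (hd : 2 ≤ d) (u : {x : Fin 2 × Fin (d + 1) // Fr2 d x} → ℂ) :
    ss2 u (1, ⟨d - 1, by omega⟩) = 1 := by
  unfold ss2
  rw [dif_neg, if_pos]
  · refine ⟨rfl, ?_⟩
    simp only
    omega
  · rintro ⟨-, h⟩
    refine h ⟨rfl, Or.inr (Or.inr ?_)⟩
    simp only
    omega

private theorem ss2_key (hd : 2 ≤ d) (F : Fin 2 × Fin (d + 1) → ℂ) (h0 : F (0, Fin.last d) = 0) (h1 : F (1, 0) = 0)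
    (hA : F (1, ⟨d - 1, by omega⟩) ≠ 0) (hB : F (1, Fin.last d) ≠ 0) :
    (fun x => (F (1, Fin.last d))⁻¹ * ((F (1, Fin.last d) / F (1, ⟨d - 1, by omega⟩)) ^ ex x * F x)) =
      ss2 fun x => F (1, Fin.last d) ^ ex x.1 * F x.1 / (F (1, Fin.last d) * F (1, ⟨d - 1, by omega⟩) ^ ex x.1) := by
  classical
  funext x
  by_cases hx : Fr2 d x
  · have h2 : (ss2 fun x : {x : Fin 2 × Fin (d + 1) // Fr2 d x} => F (1, Fin.last d) ^ ex x.1 * F x.1 /
        (F (1, Fin.last d) * F (1, ⟨d - 1, by omega⟩) ^ ex x.1)) x = F (1, Fin.last d) ^ ex x * F x /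
        (F (1, Fin.last d) * F (1, ⟨d - 1, by omega⟩) ^ ex x) := by
      unfold ss2
      rw [dif_pos hx]
    rw [h2, div_pow]
    field_simp
  · have hcases : x = (0, Fin.last d) ∨ x = (1, 0) ∨ x = (1, Fin.last d) ∨ x = (1, ⟨d - 1, by omega⟩) := by
      obtain ⟨i, k⟩ := x
      simp only [Prod.mk.injEq, Fin.ext_iff, Fin.val_last, Fin.val_zero, Fin.val_one]
      simp only [Fr2, not_and_or, Fin.ext_iff, Fin.val_zero, Fin.val_one] at hx
      have := i.isLt
      have := k.isLt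
      rcases hx with h | h <;> omega
    rcases hcases with rfl | rfl | rfl | rfl
    · rw [ss2_zero_last, h0, mul_zero, mul_zero]
    · rw [ss2_one_zero, h1, mul_zero, mul_zero]
    · rw [ss2_one_last hd]
      have h3 : ex ((1, Fin.last d) : Fin 2 × Fin (d + 1)) = 0 := by
        unfold ex
        rw [if_neg (by simp)]
        simp
      rw [h3, pow_zero, one_mul, inv_mul_cancel₀ hB]
    · rw [ss2_one_pred hd]
      have h3 : ex ((1, ⟨d - 1, by omega⟩) : Fin 2 × Fin (d + 1)) = 1 := by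
        unfold ex
        rw [if_neg (by simp)]
        simp only
        omega
      rw [h3, pow_one]
      field_simp

private theorem ss2_free (u : {x : Fin 2 × Fin (d + 1) // Fr2 d x} → ℂ) (x : {x : Fin 2 × Fin (d + 1) // Fr2 d x}) :
    ss2 u x.1 = u x := by
  unfold ss2
  rw [dif_pos x.2]

/-- The normal form of a marked map is conjugate to the section. -/
private theorem conj_ss2 (hd : 2 ≤ d) {v : Coord d → ℂ} (hv : v ∈ Marked d 2) (hA : G2 v (1, ⟨d - 1, by omega⟩) ≠ 0)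
    (hB : G2 v (1, Fin.last d) ≠ 0) :
    Conj v (mk (ss2 fun x => G2 v (1, Fin.last d) ^ ex x.1 * G2 v x.1 /
      (G2 v (1, Fin.last d) * G2 v (1, ⟨d - 1, by omega⟩) ^ ex x.1)) ![1, 0]) := by
  obtain ⟨k1, k2, k3, k4⟩ := normalise2 hv
  rw [← ss2_key hd (G2 v) k2 k3 hA hB]
  exact k4.trans (conj_torus _ _ (div_ne_zero hB hA) (inv_ne_zero hB) _)

private theorem ss2_B_ne {v : Coord d → ℂ} (hv : v ∈ Marked d 2) : G2 v (1, Fin.last d) ≠ 0 := by
  obtain ⟨k1, k2, k3, k4⟩ := normalise2 hv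
  intro h
  have h1 := k1 ![1, 0] (by
    intro h2
    have := congrFun h2 0
    simp at this)
  apply h1
  rw [(app_axes _).1, k2, h]
  ext i
  fin_cases i <;> rfl

private theorem free00 (hd : 2 ≤ d) : Fr2 d ((0, 0) : Fin 2 × Fin (d + 1)) := by
  refine ⟨?_, ?_⟩
  · rintro ⟨-, h⟩
    simp only [Fin.val_zero] at h
    omega
  · rintro ⟨h, -⟩
    exact zero_ne_one h

private theorem base_map (hd : 2 ≤ d) : ∃ u : {x : Fin 2 × Fin (d + 1) // Fr2 d x} → ℂ, IsMap (ss2 u) := by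
  classical
  refine ⟨Pi.single (⟨(0, 0), free00 hd⟩ : {x : Fin 2 × Fin (d + 1) // Fr2 d x}) 1, ?_⟩
  intro q hq h
  apply hq
  have h0 := congrFun h 0
  have h1 := congrFun h 1
  unfold app at h0 h1
  simp only [Pi.zero_apply] at h0 h1
  rw [Finset.sum_eq_single (0 : Fin (d + 1))] at h0
  · have hs0 : ss2 (Pi.single (⟨(0, 0), free00 hd⟩ : {x : Fin 2 × Fin (d + 1) // Fr2 d x}) 1) (0, 0) = 1 := by
      rw [ss2_free _ ⟨(0, 0), free00 hd⟩, Pi.single_eq_same]
    rw [hs0] at h0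
    simp only [Fin.val_zero, pow_zero, mul_one, one_mul, Nat.sub_zero] at h0
    have hq1 : q 1 = 0 := (pow_eq_zero_iff (by omega)).1 h0
    rw [Finset.sum_eq_single (Fin.last d)] at h1
    · rw [ss2_one_last hd] at h1
      simp only [Fin.val_last, Nat.sub_self, pow_zero, mul_one, one_mul] at h1
      have hq0 : q 0 = 0 := (pow_eq_zero_iff (by omega)).1 h1
      ext i
      fin_cases i
      · exact hq0
      · exact hq1
    · intro k _ hk
      have h5 : (k : ℕ) ≠ d := fun h => hk (Fin.ext h)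
      have := k.isLt
      rw [hq1, zero_pow (by omega), mul_zero]
    · intro h
      exact absurd (Finset.mem_univ _) h
  · intro k _ hk
    have hs0 : ss2 (Pi.single (⟨(0, 0), free00 hd⟩ : {x : Fin 2 × Fin (d + 1) // Fr2 d x}) 1) (0, k) = 0 := by
      by_cases hx : Fr2 d (0, k)
      · rw [ss2_free _ ⟨(0, k), hx⟩, Pi.single_eq_of_ne]
        intro h
        apply hk
        have h6 := congrArg Subtype.val h
        exact congrArg Prod.snd h6
      · unfold ss2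
        rw [dif_neg hx, if_neg]
        rintro ⟨h, -⟩
        exact zero_ne_one h
    rw [hs0, zero_mul, zero_mul]
  · intro h
    exact absurd (Finset.mem_univ _) h

private theorem isPoly_ss2 (x : Fin 2 × Fin (d + 1)) :
    IsPoly fun u : {x : Fin 2 × Fin (d + 1) // Fr2 d x} → ℂ => ss2 u x := by
  classical
  by_cases hx : Fr2 d x
  · have h1 : (fun u : {x : Fin 2 × Fin (d + 1) // Fr2 d x} → ℂ => ss2 u x) = fun u => u ⟨x, hx⟩ := by
      funext u
      exact ss2_free u ⟨x, hx⟩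
    rw [h1]
    exact isPoly_coord _
  · have h1 : (fun u : {x : Fin 2 × Fin (d + 1) // Fr2 d x} → ℂ => ss2 u x) =
        fun _ => if x.1 = 1 ∧ (x.2 : ℕ) ≠ 0 then 1 else 0 := by
      funext u
      unfold ss2
      rw [dif_neg hx]
    rw [h1]
    exact isPoly_const _

/-- Numerators and denominators. -/
private def N2 (x : {x : Fin 2 × Fin (d + 1) // Fr2 d x}) (v : Coord d → ℂ) : ℂ :=
  G2 v (1, Fin.last d) ^ ex x.1 * G2 v x.1

private def A2 (hd : 2 ≤ d) (v : Coord d → ℂ) : ℂ := G2 v (1, ⟨d - 1, by omega⟩)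

private def D2 (hd : 2 ≤ d) (x : {x : Fin 2 × Fin (d + 1) // Fr2 d x}) (v : Coord d → ℂ) : ℂ :=
  G2 v (1, Fin.last d) * A2 hd v ^ ex x.1

private theorem conj2 (hd : 2 ≤ d) {v : Coord d → ℂ} (hv : v ∈ Marked d 2) (hA : A2 hd v ≠ 0) :
    Conj v (mk (ss2 fun x => N2 x v / D2 hd x v) ![1, 0]) :=
  conj_ss2 hd hv hA (ss2_B_ne hv)

private theorem rig2 (hd : 2 ≤ d) {u u' : {x : Fin 2 × Fin (d + 1) // Fr2 d x} → ℂ}
    (h : Conj (mk (ss2 u) ![1, 0]) (mk (ss2 u') ![1, 0])) (x : {x : Fin 2 × Fin (d + 1) // Fr2 d x}) : u' x = u x := by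
  have h3 := rigid2 hd h (ss2_zero_last _) (ss2_one_last hd _) (ss2_one_pred hd _)
    (ss2_zero_last _) (ss2_one_last hd _) (ss2_one_pred hd _)
  have h4 := congrFun h3 x.1
  rw [ss2_free, ss2_free] at h4
  exact h4

private theorem A2_sec (hd : 2 ≤ d) (u : {x : Fin 2 × Fin (d + 1) // Fr2 d x} → ℂ) : A2 hd (mk (ss2 u) ![1, 0]) ≠ 0 := by
  have hg : g2 (mk (ss2 u) ![1, 0]) = !![1, 0; 0, -1] := by
    unfold g2
    rw [mapOf_mk, ptOf_mk, (app_axes _).1, ss2_zero_last, ss2_one_last hd]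
    simp
  have hadj : (g2 (mk (ss2 u) ![1, 0])).adjugate = !![-1, 0; 0, 1] := by
    rw [hg, Matrix.adjugate_fin_two_of]
    simp
  unfold A2 G2
  rw [hadj, hg, mapOf_mk, (act_diag 1 (-1) (ss2 u) ⟨d - 1, by omega⟩).2, ss2_one_pred hd]
  exact mul_ne_zero (mul_ne_zero (by norm_num) (mul_ne_zero (pow_ne_zero _ (by norm_num))
    (pow_ne_zero _ one_ne_zero))) one_ne_zero

/-- PROOF. Let `A v = G2 v (1, d - 1)`, `B v = G2 v (1, d)`, `ex` as in `T0`. `N x = B ^ ex x * G2 v x`, `D x = B * A ^ ex x` for free `x`;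
`h v ≠ 0` iff `A v ≠ 0`, all `D ≠ 0` (so `B v ≠ 0`) and `e (N / D) ≠ 0` (`clear_den`, times the polynomial of `A`); `s (inl x) = ss2 x`, `s (inr i) = ![1, 0] i`. `e` is the polynomial of `ρ (ss2 u)`, `ρ` from
`exists_rho` for `ss2 u₀`, where `u₀ (0, 0) = 1` and all other `u₀ = 0`: the pair `(y^d, x^d + x^(d-1) y)` is a map (`d ≥ 2`).
The key computation: for `F` with `F (0, d) = F (1, 0) = 0`, `A = F (1, d-1) ≠ 0`, `B = F (1, d) ≠ 0`, put `t = B / A`, `c = 1 / B`; then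
`(fun x => c * (t ^ ex x * F x)) = ss2 (fun x => B ^ ex x * F x / (B * A ^ ex x))` (`ex (1, d) = 0`, `ex (1, d - 1) = 1`), and it is conjugate to `F` (`conj_torus`).
(0) `e u ≠ 0`: `v = mk (ss2 u) ![1, 0] ∈ Marked d 2` (`marked2`). `normalise2` gives `Conj v (mk (G2 v) ![1, 0])`. `B v ≠ 0` since `G2 v` is a map (`app_axes`). `g2 v = !![1, 0; 0, -1]` (`app (ss2 u) ![1, 0] = ![0, 1]`), so `G2 v x = ± ss2 u x` (`act_diag` with
`a = 1`, `b = -1`) and `A v ≠ 0`. So `mk (G2 v) ![1, 0]` is conjugate to `mk (ss2 u') ![1, 0]`, `u' = N / D` at `v`, and `rigid2` gives `ss2 u' = ss2 u`, `u' = u`.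
(1) `v ∈ Marked`, `h v ≠ 0`: key computation, `Conj.trans`. (2) If `Conj v v'`, both in `Marked`, both `h ≠ 0`: `rigid2` for `ss2 (N/D)` at `v` and at `v'`.
Irreducibility: `irred_marked2`. -/
theorem ratQuot2 (hd : 2 ≤ d) : RatQuot (Marked d 2) Conj {x : Fin 2 × Fin (d + 1) // Fr2 d x} := by
  obtain ⟨u0, hu0⟩ := base_map hd
  obtain ⟨ρ, hρ1, hρ2, hρ3⟩ := exists_rho (d := d) (by omega) (ss2 u0) hu0
  have hA : IsPoly (A2 hd) := isPoly_G2 _
  have hN : ∀ x : {x : Fin 2 × Fin (d + 1) // Fr2 d x}, IsPoly (N2 x) := fun x =>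
    isPoly_mul (isPoly_pow (isPoly_G2 _) _) (isPoly_G2 _)
  have hD : ∀ x : {x : Fin 2 × Fin (d + 1) // Fr2 d x}, IsPoly (D2 hd x) := fun x =>
    isPoly_mul (isPoly_G2 _) (isPoly_pow hA _)
  have hs : ∀ x : Coord d, IsPoly fun u : {x : Fin 2 × Fin (d + 1) // Fr2 d x} → ℂ => mk (ss2 u) ![1, 0] x := by
    rintro (x | i)
    · exact isPoly_ss2 x
    · exact isPoly_const _
  have hE : IsPoly fun u : {x : Fin 2 × Fin (d + 1) // Fr2 d x} → ℂ => ρ (ss2 u) := isPoly_comp hρ1 isPoly_ss2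
  have hmem : ∀ u : {x : Fin 2 × Fin (d + 1) // Fr2 d x} → ℂ, ρ (ss2 u) ≠ 0 → mk (ss2 u) ![1, 0] ∈ Marked d 2 :=
    fun u hu => marked2 (hρ3 _ hu) (ss2_zero_last u) (ss2_one_zero u)
  refine ratQuot_of (irred_marked2 (by omega)) hA hN hD hs hE ⟨u0, hρ2⟩ ?_ ?_ ?_
  · intro v hv hA _ _
    exact conj2 hd hv hA
  · intro v hv v' hv' hR hA hA' _ _ _ _ x
    exact rig2 hd (((conj2 hd hv hA).symm.trans hR).trans (conj2 hd hv' hA')) x
  · intro u hu
    have hv := hmem u hu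
    have hA := A2_sec hd u
    exact ⟨hv, hA, fun x => mul_ne_zero (ss2_B_ne hv) (pow_ne_zero _ hA), fun x => rig2 hd (conj2 hd hv hA) x⟩

end

end Pool.Agent.Lib.H90M
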