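import Pool.Agent.Lib.H90M.N0

/-!
# N2 (M): rigidity of the normal form
-/

namespace Pool.Agent.Lib.H90M

open MvPolynomial

variable {d m : ℕ}

private theorem N2_par {p q : Fin 2 → ℂ} (hp : p ≠ 0) (hq : q ≠ 0) (h : wd p q = 0) :
    ∃ e : ℂ, e ≠ 0 ∧ p = e • q := by
  unfold wd at h
  have key : ∃ e : ℂ, p = e • q := by
    by_cases h0 : q 0 = 0
    · have h1 : q 1 ≠ 0 := by
        intro h1
        apply hq
        funext i
        fin_cases i
        · exact h0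
        · exact h1
      have h2 : p 0 = 0 := by
        rw [h0, mul_zero, sub_zero] at h
        exact (mul_eq_zero.1 h).resolve_right h1
      refine ⟨p 1 / q 1, ?_⟩
      funext i
      fin_cases i
      · simp [h2, h0]
      · simp [h1]
    · refine ⟨p 0 / q 0, ?_⟩
      funext i
      fin_cases i
      · simp [h0]
      · simp only [Pi.smul_apply, smul_eq_mul, Fin.mk_one]
        field_simp
        linear_combination -h
  obtain ⟨e, he⟩ := key
  refine ⟨e, ?_, he⟩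
  rintro rfl
  exact hp (by rw [he, zero_smul])

private theorem N2_QQ_ne {z : Fin m → ℂ} {F : Fin 2 × Fin (d + 1) → ℂ} (h : Nrm z F) (i : Fin (m + 3)) :
    QQ z i ≠ 0 := by
  intro h0
  obtain ⟨j, hj⟩ := exists_ne i
  apply h.ne i j hj.symm
  rw [h0]
  simp [wd]

private theorem N2_step {z z' : Fin m → ℂ} {F F' : Fin 2 × Fin (d + 1) → ℂ} (h : Nrm z F) (h' : Nrm z' F')
    {g : Matrix (Fin 2) (Fin 2) ℂ} {a : ℂ} (ha : a ≠ 0)
    (h1 : ∀ q, app F' (g.mulVec q) = a • g.mulVec (app F q)) (i : Fin (m + 3))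
    (hi : ∃ c : ℂ, c ≠ 0 ∧ g.mulVec (QQ z i) = c • QQ z' i) :
    ∃ c : ℂ, c ≠ 0 ∧ g.mulVec (QQ z (i + 1)) = c • QQ z' (i + 1) := by
  obtain ⟨c, hc, hgc⟩ := hi
  obtain ⟨e, he, hFe⟩ := N2_par (h.map _ (N2_QQ_ne h i)) (N2_QQ_ne h (i + 1)) (h.cyc i)
  obtain ⟨e', he', hFe'⟩ := N2_par (h'.map _ (N2_QQ_ne h' i)) (N2_QQ_ne h' (i + 1)) (h'.cyc i)
  have h2 := h1 (QQ z i)
  rw [hgc, app_smul, hFe', hFe, Matrix.mulVec_smul, smul_smul, smul_smul] at h2
  refine ⟨(a * e)⁻¹ * (c ^ d * e'), mul_ne_zero (inv_ne_zero (mul_ne_zero ha he))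
    (mul_ne_zero (pow_ne_zero _ hc) he'), ?_⟩
  rw [mul_smul, h2, smul_smul, inv_mul_cancel₀ (mul_ne_zero ha he), one_smul]

/-- PROOF. Let `g, a, b` be as in `Conj`. By `conj_iter` (or directly, by induction with `cyc`) `g (QQ z i)` is proportional to `QQ z' i` for all
`i`. For `i = 0, 1, 2` this says that `g` maps `(1, 0), (0, 1), (1, 1)` to multiples of themselves, so `g = c • 1` with `c ≠ 0`. Then
`(z j, 1) ∥ (z' j, 1)`, so `z = z'`, and `app F' (c • q) = (a c) • app F q` for all `q`, that is `c^d • app F' q = (a c) • app F q` (`app_smul`);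
`app_ext`, `μ = a c / c^d`. -/
theorem rigid {z z' : Fin m → ℂ} {F F' : Fin 2 × Fin (d + 1) → ℂ} (h : Nrm z F) (h' : Nrm z' F')
    (hc : Conj (mk F ![1, 0]) (mk F' ![1, 0])) : z = z' ∧ ∃ μ : ℂ, μ ≠ 0 ∧ F' = μ • F := by
  obtain ⟨g, a, b, hg, ha, hb, h1, h2⟩ := hc
  rw [mapOf_mk, mapOf_mk] at h1
  rw [ptOf_mk, ptOf_mk] at h2
  have hind : ∀ (k : ℕ) (hk : k < m + 3), ∃ c : ℂ, c ≠ 0 ∧
      g.mulVec (QQ z ⟨k, hk⟩) = c • QQ z' ⟨k, hk⟩ := by
    intro k
    induction k with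
    | zero =>
      intro hk
      refine ⟨b⁻¹, inv_ne_zero hb, ?_⟩
      have e : QQ z ⟨0, hk⟩ = ![1, 0] := rfl
      have e' : QQ z' ⟨0, hk⟩ = ![1, 0] := rfl
      rw [e, e']
      have h3 : b⁻¹ • (![1, 0] : Fin 2 → ℂ) = b⁻¹ • (b • g.mulVec ![1, 0]) := by rw [← h2]
      rw [h3, smul_smul, inv_mul_cancel₀ hb, one_smul]
    | succ k ih =>
      intro hk
      have h3 := N2_step h h' ha h1 ⟨k, by omega⟩ (ih (by omega))
      have e : (⟨k, by omega⟩ : Fin (m + 3)) + 1 = ⟨k + 1, hk⟩ := by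
        apply Fin.ext
        rw [Fin.val_add]
        simp only [Fin.val_one]
        exact Nat.mod_eq_of_lt hk
      rw [e] at h3
      exact h3
  obtain ⟨c0, hc0, e0⟩ := hind 0 (by omega)
  obtain ⟨c1, hc1, e1⟩ := hind 1 (by omega)
  obtain ⟨c2, hc2, e2⟩ := hind 2 (by omega)
  have q0 : ∀ w : Fin m → ℂ, QQ w ⟨0, by omega⟩ = ![1, 0] := fun w => rfl
  have q1 : ∀ w : Fin m → ℂ, QQ w ⟨1, by omega⟩ = ![0, 1] := fun w => rfl
  have q2 : ∀ w : Fin m → ℂ, QQ w ⟨2, by omega⟩ = ![1, 1] := fun w => rfl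
  rw [q0, q0] at e0
  rw [q1, q1] at e1
  rw [q2, q2] at e2
  have a00 := congrFun e0 0
  have a01 := congrFun e0 1
  have a10 := congrFun e1 0
  have a11 := congrFun e1 1
  have a20 := congrFun e2 0
  have a21 := congrFun e2 1
  simp [Matrix.mulVec, dotProduct, Fin.sum_univ_two] at a00 a01 a10 a11 a20 a21
  have g11 : g 1 1 = c0 := by
    have h3 : g 0 0 = c2 := by rw [← a20, a10, add_zero]
    have h4 : g 1 1 = c2 := by rw [← a21, a01, zero_add]
    rw [h4, ← h3, a00]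
  have hgq : ∀ q : Fin 2 → ℂ, g.mulVec q = c0 • q := by
    intro q
    funext i
    fin_cases i
    · simp [Matrix.mulVec, dotProduct, Fin.sum_univ_two, a00, a10]
    · simp [Matrix.mulVec, dotProduct, Fin.sum_univ_two, a01, g11]
  refine ⟨?_, a * c0 / c0 ^ d, div_ne_zero (mul_ne_zero ha hc0) (pow_ne_zero _ hc0), ?_⟩
  · funext j
    obtain ⟨c, hc, e⟩ := hind (j + 3) (by omega)
    have e3 : ∀ w : Fin m → ℂ, QQ w ⟨j + 3, by omega⟩ = ![w j, 1] := fun w => rfl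
    rw [e3, e3, hgq] at e
    have b0 := congrFun e 0
    have b1 := congrFun e 1
    simp at b0 b1
    rw [b1] at b0
    exact mul_left_cancel₀ hc b0
  · refine app_ext fun j => ?_
    have h3 := h1 ![((j : ℕ) : ℂ), 1]
    rw [hgq, hgq, app_smul, smul_smul] at h3
    rw [app_coef_smul, div_eq_inv_mul, mul_smul, ← h3, smul_smul, inv_mul_cancel₀ (pow_ne_zero _ hc0), one_smul]

end Pool.Agent.Lib.H90M
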