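import Pool.Agent.Lib.H90M.I3
import Pool.Agent.Lib.H90M.N2
import Pool.Agent.Lib.H90M.Q0

/-!
# R3 (L): rationality for `n = m + 3`
-/

namespace Pool.Agent.Lib.H90M

open MvPolynomial

variable {d m : ℕ}

/-- The base point: `σ` and `x₀` such that the coordinates outside of the range of `σ` and different from `x₀` can be used. PROOF. A normalised pair
`(z, F)` exists (`exists_marked`, `normalise`). `exists_sel` for `MM d z` (`MM_surj`). If `F x = 0` for all `x` outside of the range of `σ` then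
`ker (MM d z) (sel σ) F = ker (MM d z) (sel σ) 0 = 0` (`ker_sel_congr`), and it is `det • F` (`ker_of_mem`), so `F = 0`, which contradicts `IsMap F`. -/
theorem base (hd : 2 ≤ d) (hm : m + 3 ≤ 2 * d + 1) : ∃ (z : Fin m → ℂ) (F : Fin 2 × Fin (d + 1) → ℂ)
    (σ : Fin (m + 3) → Fin 2 × Fin (d + 1)) (x₀ : Fin 2 × Fin (d + 1)), Nrm z F ∧ Function.Injective σ ∧
      (MM d z * sel σ).det ≠ 0 ∧ (∀ i, x₀ ≠ σ i) ∧ F x₀ ≠ 0 := by
  obtain ⟨v, hv⟩ := exists_marked d (m + 3) hd (by omega)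
  obtain ⟨-, -, hN, -⟩ := normalise hv
  obtain ⟨σ, hσ, hdet⟩ := exists_sel (MM d (zz m v)) (MM_surj (by omega) hm hN)
  by_contra hcon
  push Not at hcon
  have h0 : ∀ x, (∀ i, x ≠ σ i) → FF v x = 0 := fun x hx => hcon _ _ σ x hN hσ hdet hx
  have h1 : ker (MM d (zz m v)) (sel σ) (FF v) = ker (MM d (zz m v)) (sel σ) 0 :=
    ker_sel_congr _ σ hσ _ _ fun x hx => by rw [h0 x hx, Pi.zero_apply]
  have hk := ((nrm_iff _ _).1 hN).2.2
  have hz : (MM d (zz m v)).mulVec (0 : Fin 2 × Fin (d + 1) → ℂ) = 0 := Matrix.mulVec_zero _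
  rw [ker_of_mem _ _ _ hk, ker_of_mem _ _ _ hz, smul_zero] at h1
  have h2 : FF v = 0 := (smul_eq_zero.1 h1).resolve_left hdet
  apply hN.map ![1, 0]
  · intro h
    have := congrFun h 0
    simp at this
  · rw [h2]
    funext i
    simp [app]

/-- The indices of the coordinates. -/
abbrev PP {d m : ℕ} (σ : Fin (m + 3) → Fin 2 × Fin (d + 1)) (x₀ : Fin 2 × Fin (d + 1)) : Type :=
  Fin m ⊕ {x : Fin 2 × Fin (d + 1) // (∀ i, x ≠ σ i) ∧ x ≠ x₀}

open Classical in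
/-- The vector with the free coordinates `u`, the coordinate `x₀` equal to `1`, the coordinates `σ i` equal to `0`. -/
noncomputable def ww {σ : Fin (m + 3) → Fin 2 × Fin (d + 1)} {x₀ : Fin 2 × Fin (d + 1)} (u : PP σ x₀ → ℂ) :
    Fin 2 × Fin (d + 1) → ℂ :=
  fun x => if h : (∀ i, x ≠ σ i) ∧ x ≠ x₀ then u (Sum.inr ⟨x, h⟩) else if x = x₀ then 1 else 0

/-- The section. -/
noncomputable def ss {σ : Fin (m + 3) → Fin 2 × Fin (d + 1)} {x₀ : Fin 2 × Fin (d + 1)} (u : PP σ x₀ → ℂ) :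
    Fin 2 × Fin (d + 1) → ℂ :=
  ker (MM d fun j => u (Sum.inl j)) (sel σ) (ww u)

/-- A vector in the kernel is a multiple of the section. PROOF. Let `δ = det (MM d z * sel σ)`. `δ • F = ker F` (`ker_of_mem`) `= ker (F x₀ • ww u)`
(`ker_sel_congr`: outside of the range of `σ` we have `F x = F x₀ * (F x / F x₀)`) `= F x₀ • ss u` (`ker_smul`). -/
theorem eq_ss {σ : Fin (m + 3) → Fin 2 × Fin (d + 1)} {x₀ : Fin 2 × Fin (d + 1)} (hσ : Function.Injective σ)
    (hx₀ : ∀ i, x₀ ≠ σ i) {z : Fin m → ℂ} {F : Fin 2 × Fin (d + 1) → ℂ} (hF : (MM d z).mulVec F = 0)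
    (hδ : (MM d z * sel σ).det ≠ 0) (h0 : F x₀ ≠ 0) (u : PP σ x₀ → ℂ) (hu1 : ∀ j, u (Sum.inl j) = z j)
    (hu2 : ∀ x, u (Sum.inr x) = F x.1 / F x₀) : F = (F x₀ / (MM d z * sel σ).det) • ss u := by
  have hz : (fun j => u (Sum.inl j)) = z := funext hu1
  have h1 : ker (MM d z) (sel σ) F = ker (MM d z) (sel σ) (F x₀ • ww u) := by
    refine ker_sel_congr _ σ hσ _ _ fun x hx => ?_
    rw [Pi.smul_apply, smul_eq_mul]
    by_cases h : x = x₀
    · rw [ww, dif_neg (fun h' => h'.2 h), if_pos h, h, mul_one]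
    · rw [ww, dif_pos ⟨hx, h⟩, hu2, mul_div_cancel₀ _ h0]
  rw [ker_of_mem _ _ _ hF, ker_smul] at h1
  have h2 : ker (MM d z) (sel σ) (ww u) = ss u := by
    rw [ss, hz]
  rw [h2] at h1
  calc F = (MM d z * sel σ).det⁻¹ • ((MM d z * sel σ).det • F) := by rw [smul_smul, inv_mul_cancel₀ hδ, one_smul]
    _ = (F x₀ / (MM d z * sel σ).det) • ss u := by rw [h1, smul_smul, div_eq_inv_mul]

/-- PROOF. `ker_sel_apply`. -/
theorem ss_apply {σ : Fin (m + 3) → Fin 2 × Fin (d + 1)} {x₀ : Fin 2 × Fin (d + 1)} (hx₀ : ∀ i, x₀ ≠ σ i)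
    (u : PP σ x₀ → ℂ) : ss u x₀ = (MM d (fun j => u (Sum.inl j)) * sel σ).det ∧
      ∀ x : {x : Fin 2 × Fin (d + 1) // (∀ i, x ≠ σ i) ∧ x ≠ x₀},
        ss u x.1 = (MM d (fun j => u (Sum.inl j)) * sel σ).det * u (Sum.inr x) := by
  constructor
  · rw [ss, ker_sel_apply _ _ _ _ hx₀, ww, dif_neg (fun h' => h'.2 rfl), if_pos rfl, mul_one]
  · intro x
    rw [ss, ker_sel_apply _ _ _ _ x.2.1, ww, dif_pos x.2]

/-- PROOF. `#(Fin 2 × Fin (d + 1)) = 2 d + 2`, remove the `m + 3` elements `σ i` and `x₀`. -/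
theorem card_PP {σ : Fin (m + 3) → Fin 2 × Fin (d + 1)} {x₀ : Fin 2 × Fin (d + 1)} (hσ : Function.Injective σ)
    (hx₀ : ∀ i, x₀ ≠ σ i) (hm : m + 3 ≤ 2 * d + 1) : Nat.card (PP σ x₀) = 2 * d - 2 := by
  classical
  have h1 : Nat.card {x : Fin 2 × Fin (d + 1) // (∀ i, x ≠ σ i) ∧ x ≠ x₀} =
      ((insert x₀ (Finset.univ.image σ))ᶜ : Finset (Fin 2 × Fin (d + 1))).card := by
    rw [Nat.card_eq_fintype_card, Fintype.card_subtype]
    congr 1
    ext x
    simp only [Finset.mem_filter, Finset.mem_univ, true_and, Finset.mem_compl, Finset.mem_insert, Finset.mem_image,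
      not_or, not_exists]
    constructor
    · rintro ⟨h1, h2⟩
      exact ⟨h2, fun i hi => h1 i hi.symm⟩
    · rintro ⟨h1, h2⟩
      exact ⟨fun i hi => h2 i hi.symm, h1⟩
  have h2 : (insert x₀ (Finset.univ.image σ)).card = m + 3 + 1 := by
    rw [Finset.card_insert_of_notMem, Finset.card_image_of_injective _ hσ, Finset.card_univ, Fintype.card_fin]
    intro h
    obtain ⟨i, -, hi⟩ := Finset.mem_image.1 h
    exact hx₀ i hi.symm
  rw [Nat.card_sum, h1, Finset.card_compl, h2, Nat.card_eq_fintype_card, Fintype.card_fin, Fintype.card_prod,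
    Fintype.card_fin, Fintype.card_fin]
  omega

/-- PROOF. Take `σ, x₀`, the base point `(z*, F*)` of `base`, `u* = (z*, F* x / F* x₀)`; `F*` is a nonzero multiple of `ss u*` (`eq_ss`), so `ss u*` is a map
(`IsMap (c • F)` for `c ≠ 0`, `app_coef_smul`); `ρ` as in `exists_rho` for `ss u*`. Let
`E u = det (MM d z * sel σ) * dst z * ρ (ss u)`, `z j = u (inl j)`: a polynomial function (`isPoly_det`, `isPoly_MM`, `isPoly_dst`, `isPoly_ker`, `isPoly_comp`), nonzero at `u*`; `e` is its polynomial.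
`N (inl j) = zN j`, `D (inl j) = zD j`, `N (inr x) = FF x`, `D (inr x) = FF x₀` (`isPoly_zN` etc.), `s (inl x) = ss x`, `s (inr i) = ![1, 0] i`, `h` from `clear_den`.
(0) If `E u ≠ 0` then `Nrm z (ss u)` (`nrm_iff`, `mulVec_ker`), so `v = mk (ss u) ![1, 0] ∈ Marked` (`nrm_marked`). By `normalise`, `Nrm (zz v) (FF v)` and `Conj v (mk (FF v) ![1, 0])`; `rigid`:
`zz v = z`, `FF v = μ • ss u`. By `ss_apply` `FF v x₀ = μ δ ≠ 0` and `FF v x / FF v x₀ = u (inr x)`. So `N / D = u`, all `D ≠ 0`, and `h v ≠ 0` by `clear_den`. This is the last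
condition; it also gives `∃ v, h v ≠ 0` (`u = u*`).
(1) Let `v ∈ Marked`, `h v ≠ 0`; let `u = N / D`. `u (inl j) = zz v j`, `E u ≠ 0`, so `δ ≠ 0`; `FF v = c • ss u` with `c ≠ 0` by `eq_ss` (`nrm_iff`). `Conj v (mk (ss u) ![1, 0])`:
`normalise`, `conj_smul`, `Conj.trans`. (2) If `Conj v v'` then `Conj (mk (FF v) ![1, 0]) (mk (FF v') ![1, 0])`, `rigid`: the coordinates are equal.
Irreducibility: `irred_marked3`. -/
theorem ratQuot3 (hd : 2 ≤ d) (hm : m + 3 ≤ 2 * d + 1) : ∃ P : Type, Nat.card P = 2 * d - 2 ∧ Finite P ∧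
    RatQuot (Marked d (m + 3)) Conj P := by
  classical
  obtain ⟨z₁, F₁, σ, x₀, hN₁, hσ, hdet₁, hx₀, hF₁⟩ := base (d := d) (m := m) hd hm
  have hd1 : 1 ≤ d := by omega
  -- the base point
  set u₁ : PP σ x₀ → ℂ := Sum.elim z₁ (fun x => F₁ x.1 / F₁ x₀) with hu₁
  have hk₁ := ((nrm_iff _ _).1 hN₁).2.2
  have hF₁s := eq_ss hσ hx₀ hk₁ hdet₁ hF₁ u₁ (fun j => rfl) (fun x => rfl)
  have hmap₁ : IsMap (ss u₁) := by
    intro q hq h0
    apply hN₁.map q hq
    rw [hF₁s, app_coef_smul, h0, smul_zero]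
  obtain ⟨ρ, hρ, hρ1, hρ2⟩ := exists_rho hd1 (ss u₁) hmap₁
  -- the polynomial functions
  have hzP : ∀ j : Fin m, IsPoly fun u : PP σ x₀ → ℂ => u (Sum.inl j) := fun j => isPoly_coord _
  have hMP : ∀ (i : Fin (m + 3)) (x : Fin 2 × Fin (d + 1)),
      IsPoly fun u : PP σ x₀ → ℂ => MM d (fun j => u (Sum.inl j)) i x := fun i x => isPoly_MM hzP i x
  have hdetP : IsPoly fun u : PP σ x₀ → ℂ => (MM d (fun j => u (Sum.inl j)) * sel σ).det :=
    isPoly_det fun i j => isPoly_matmul (N := fun _ => sel σ) hMP (fun _ _ => isPoly_const _) i j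
  have hdstP : IsPoly fun u : PP σ x₀ → ℂ => dst fun j : Fin m => u (Sum.inl j) := isPoly_dst hzP
  have hwwP : ∀ x, IsPoly fun u : PP σ x₀ → ℂ => ww u x := by
    intro x
    by_cases h : (∀ i, x ≠ σ i) ∧ x ≠ x₀
    · have : (fun u : PP σ x₀ → ℂ => ww u x) = fun u => u (Sum.inr ⟨x, h⟩) := by
        funext u
        rw [ww, dif_pos h]
      rw [this]
      exact isPoly_coord _
    · have : (fun u : PP σ x₀ → ℂ => ww u x) = fun _ => if x = x₀ then 1 else 0 := by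
        funext u
        rw [ww, dif_neg h]
      rw [this]
      exact isPoly_const _
  have hssP : ∀ x, IsPoly fun u : PP σ x₀ → ℂ => ss u x := fun x => isPoly_ker hMP hwwP x
  have hρP : IsPoly fun u : PP σ x₀ → ℂ => ρ (ss u) := isPoly_comp hρ hssP
  set E : (PP σ x₀ → ℂ) → ℂ := fun u =>
    (MM d (fun j => u (Sum.inl j)) * sel σ).det * dst (fun j : Fin m => u (Sum.inl j)) * ρ (ss u) with hE
  have hEP : IsPoly E := isPoly_mul (isPoly_mul hdetP hdstP) hρP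
  have hE1 : E u₁ ≠ 0 := by
    have h1 : (fun j => u₁ (Sum.inl j)) = z₁ := rfl
    rw [hE]
    simp only
    rw [h1]
    exact mul_ne_zero (mul_ne_zero hdet₁ ((nrm_iff _ _).1 hN₁).2.1) hρ1
  -- the section
  have hsec : ∀ u, E u ≠ 0 → (MM d (fun j => u (Sum.inl j)) * sel σ).det ≠ 0 ∧ Nrm (fun j => u (Sum.inl j)) (ss u) := by
    intro u hu
    have h1 := mul_ne_zero_iff.1 hu
    have h2 := mul_ne_zero_iff.1 h1.1
    exact ⟨h2.1, (nrm_iff _ _).2 ⟨hρ2 _ h1.2, h2.2, mulVec_ker _ _ _⟩⟩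
  refine ⟨PP σ x₀, card_PP hσ hx₀ hm, inferInstance, ?_⟩
  refine ratQuot_of (A := fun v => FF v x₀) (N := fun j v => Sum.elim (fun j : Fin m => zN v j) (fun x => FF v x.1) j)
    (D := fun j v => Sum.elim (fun j : Fin m => zD v j) (fun _ => FF v x₀) j) (s := fun u => mk (ss u) ![1, 0]) (E := E)
    (irred_marked3 hd hm) (isPoly_FF _) ?_ ?_ ?_ hEP ⟨u₁, hE1⟩ ?_ ?_ ?_
  · rintro (j | x)
    · exact isPoly_zN _
    · exact isPoly_FF _
  · rintro (j | x)
    · exact isPoly_zD _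
    · exact isPoly_FF _
  · rintro (x | i)
    · exact hssP x
    · exact isPoly_const _
  · -- every good point is conjugate to its normal form
    intro v hv hx hD hEv
    obtain ⟨-, -, hN, hc⟩ := normalise (m := m) hv
    set u : PP σ x₀ → ℂ := fun j => Sum.elim (fun j : Fin m => zN v j) (fun x => FF v x.1) j /
      Sum.elim (fun j : Fin m => zD v j) (fun _ => FF v x₀) j with hu
    have hu1 : (fun j : Fin m => u (Sum.inl j)) = zz m v := rfl
    obtain ⟨hdet, -⟩ := hsec u hEv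
    rw [hu1] at hdet
    have h1 := eq_ss hσ hx₀ ((nrm_iff _ _).1 hN).2.2 hdet hx u (fun j => rfl) (fun x => rfl)
    have hne : FF v x₀ / (MM d (zz m v) * sel σ).det ≠ 0 := div_ne_zero hx hdet
    have h2 : Conj (mk (ss u) ![1, 0]) (mk (FF v) ![1, 0]) := by
      have h3 := conj_smul (ss u) ![1, 0] hne one_ne_zero
      rw [one_smul, ← h1] at h3
      exact h3
    exact hc.trans h2.symm
  · intro v hv v' hv' hR _ _ hD hD' hEv hEv' j
    obtain ⟨-, -, hN, hc⟩ := normalise (m := m) hv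
    obtain ⟨-, -, hN', hc'⟩ := normalise (m := m) hv'
    obtain ⟨hz, μ, hμ, hF⟩ := rigid hN hN' ((hc.symm.trans hR).trans hc')
    rcases j with j | x
    · exact (congrFun hz j).symm
    · simp only [Sum.elim_inr]
      rw [hF, Pi.smul_apply, Pi.smul_apply, smul_eq_mul, smul_eq_mul, mul_div_mul_left _ _ hμ]
  · intro u hu
    obtain ⟨hdet, hN⟩ := hsec u hu
    have hv := nrm_marked hN
    obtain ⟨-, hzD, hN', hc⟩ := normalise (m := m) hv
    obtain ⟨hz, μ, hμ, hF⟩ := rigid hN hN' hc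
    obtain ⟨ha, hb⟩ := ss_apply hx₀ u
    have hx : FF (mk (ss u) ![1, 0]) x₀ ≠ 0 := by
      rw [hF, Pi.smul_apply, smul_eq_mul, ha]
      exact mul_ne_zero hμ hdet
    refine ⟨hv, hx, ?_, ?_⟩
    · rintro (j | x)
      · exact hzD j
      · exact hx
    · rintro (j | x)
      · exact (congrFun hz j).symm
      · simp only [Sum.elim_inr]
        rw [hF, Pi.smul_apply, Pi.smul_apply, smul_eq_mul, smul_eq_mul, mul_div_mul_left _ _ hμ, ha, hb x,
          mul_div_cancel_left₀ _ hdet]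

end Pool.Agent.Lib.H90M
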