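import Pool.Agent.Lib.H90M.R1
import Pool.Agent.Lib.H90M.R2
import Pool.Agent.Lib.H90M.R3

/-!
# Fin (S/M): the theorem
-/

namespace Pool.Agent.Lib.H90M

open MvPolynomial

/-- Change of the index type. PROOF. `MvPolynomial.rename` with the equivalence and its inverse (`eval_rename`). -/
theorem ratQuot_equiv {X P P' : Type} (ε : P ≃ P') {V : Set (X → ℂ)} {R : (X → ℂ) → (X → ℂ) → Prop}
    (h : RatQuot V R P) : RatQuot V R P' := by
  obtain ⟨hI, h, N, D, s, e, he, hne, h1, h2, h3⟩ := h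
  have hc : ∀ v : X → ℂ, (fun j' => eval v (N (ε.symm j')) / eval v (D (ε.symm j'))) ∘ ε =
      fun j => eval v (N j) / eval v (D j) := by
    intro v
    funext j
    simp only [Function.comp_apply, Equiv.symm_apply_apply]
  refine ⟨hI, h, fun j' => N (ε.symm j'), fun j' => D (ε.symm j'), fun x => rename ε (s x),
    rename ε e, ?_, hne, ?_, ?_, ?_⟩
  · intro h0
    exact he (rename_injective ε ε.injective (by rw [h0, map_zero]))
  · intro v hv hvh
    obtain ⟨h4, h5, h6⟩ := h1 v hv hvh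
    refine ⟨fun j' => h4 _, ?_, ?_⟩
    · rw [eval_rename, hc]
      exact h5
    · simp only [eval_rename, hc]
      exact h6
  · intro v hv v' hv' hR hvh hvh' j'
    exact h2 v hv v' hv' hR hvh hvh' (ε.symm j')
  · intro u hu
    rw [eval_rename] at hu
    obtain ⟨h4, h5, h6⟩ := h3 (u ∘ ε) hu
    simp only [eval_rename]
    refine ⟨h4, h5, fun j' => ?_⟩
    rw [h6 (ε.symm j'), Function.comp_apply, Equiv.apply_symm_apply]

/-- **Theorem.** For `d ≥ 2` and `1 ≤ n ≤ 2 d + 1` the moduli space of maps of degree `d` with a marked point of exact period `n` is irreducible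
and rational, of dimension `2 d - 2`. -/
theorem main (d n : ℕ) (hd : 2 ≤ d) (hn : 1 ≤ n) (hn' : n ≤ 2 * d + 1) :
    RatQuot (Marked d n) Conj (Fin (2 * d - 2)) := by
  obtain rfl | rfl | ⟨m, rfl⟩ : n = 1 ∨ n = 2 ∨ ∃ m, n = m + 3 := by
    rcases n with _ | _ | _ | m
    · omega
    · exact Or.inl rfl
    · exact Or.inr (Or.inl rfl)
    · exact Or.inr (Or.inr ⟨m, rfl⟩)
  · exact ratQuot_equiv (Finite.equivFinOfCardEq (card_Fr1 hd)) (ratQuot1 hd)
  · exact ratQuot_equiv (Finite.equivFinOfCardEq (card_Fr2 hd)) (ratQuot2 hd)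
  · obtain ⟨P, hP, hfin, h⟩ := ratQuot3 (d := d) (m := m) hd hn'
    exact ratQuot_equiv (Finite.equivFinOfCardEq hP) h

end Pool.Agent.Lib.H90M
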