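import Pool.Agent.Lib.H90M.C1

/-!
# I0 (M): irreducibility of `Marked d n`
-/

namespace Pool.Agent.Lib.H90M

open MvPolynomial

variable {d : ℕ}

/-- The matrix with entries `w (inl (i, j))`. -/
private def i0A (w : (Fin 2 × Fin 2) ⊕ Fin 2 → ℂ) : Matrix (Fin 2) (Fin 2) ℂ := Matrix.of fun i j => w (Sum.inl (i, j))

private noncomputable def i0G (w : (Fin 2 × Fin 2) ⊕ Fin 2 → ℂ) (F : Fin 2 × Fin (d + 1) → ℂ) : Coord d → ℂ :=
  mk (w (Sum.inr 0) • act (i0A w) (i0A w).adjugate F) (w (Sum.inr 1) • (i0A w).mulVec ![1, 0])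

private theorem i0_param (A : Matrix (Fin 2) (Fin 2) ℂ) (a b : ℂ) :
    ∃ w, i0A w = A ∧ w (Sum.inr 0) = a ∧ w (Sum.inr 1) = b := by
  refine ⟨Sum.elim (fun p => A p.1 p.2) ![a, b], ?_, rfl, rfl⟩
  ext i j
  rfl

private theorem i0_poly {X : Type} {A : (X → ℂ) → Matrix (Fin 2) (Fin 2) ℂ} {a b : (X → ℂ) → ℂ}
    {F : (X → ℂ) → Fin 2 × Fin (d + 1) → ℂ} (hA : ∀ i j, IsPoly fun v => A v i j) (ha : IsPoly a) (hb : IsPoly b)
    (hF : ∀ x, IsPoly fun v => F v x) (x : Coord d) :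
    IsPoly fun v => mk (a v • act (A v) (A v).adjugate (F v)) (b v • (A v).mulVec ![1, 0]) x := by
  rcases x with x | i
  · have h1 : ∀ x, IsPoly fun v => act (A v) (A v).adjugate (F v) x :=
      isPoly_act (A := A) (C := fun v => (A v).adjugate) (F := F) hA (isPoly_adj hA) hF
    have h2 : (fun v => mk (a v • act (A v) (A v).adjugate (F v)) (b v • (A v).mulVec ![1, 0]) (Sum.inl x)) =
        fun v => a v * act (A v) (A v).adjugate (F v) x := rfl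
    rw [h2]
    exact isPoly_mul ha (h1 x)
  · have h1 : IsPoly fun v => (A v).mulVec ((fun _ => ![1, 0] : (X → ℂ) → Fin 2 → ℂ) v) i :=
      isPoly_mulVec (M := A) (w := fun _ => ![1, 0]) hA (fun k => isPoly_const ((![1, 0] : Fin 2 → ℂ) k)) i
    have h2 : (fun v => mk (a v • act (A v) (A v).adjugate (F v)) (b v • (A v).mulVec ![1, 0]) (Sum.inr i)) =
        fun v => b v * (A v).mulVec ![1, 0] i := rfl
    rw [h2]
    exact isPoly_mul hb h1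

/-- Irreducibility of the set of all conjugates of an irreducible family. PROOF. Nonempty: `h1`. Let `f * g` vanish on
`V = Marked d n`, `f v₀ ≠ 0`, `g v₁ ≠ 0`, `v₀, v₁ ∈ V`. By `h2` and `conj_form`, `v₀ = Γ (A₀, a₀, b₀) (Φ y₀)` where
`Γ (A, a, b) F = mk (a • act A A.adjugate F) (b • A.mulVec ![1, 0])`, `y₀ ∈ 𝒩`, `det A₀ ≠ 0`, `a₀ ≠ 0`, `b₀ ≠ 0`; the same for `v₁`.
The functions `(A, a, b) ↦ f (Γ (A, a, b) (Φ y₀))`, `g (Γ (A, a, b) (Φ y₁))`, `det A * a * b` are polynomial functions of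
`(A, a, b)` (use the variables `(Fin 2 × Fin 2) ⊕ Fin 2`; `isPoly_act`, `isPoly_adj`, `isPoly_comp`), and none of them is identically zero: by
`exists_common` (twice) there is `(A, a, b)` where all three are nonzero. For this fixed `(A, a, b)` the functions
`y ↦ f (Γ (A, a, b) (Φ y))` and `g (Γ (A, a, b) (Φ y))` are polynomial functions on `Y → ℂ` which are not identically zero on `𝒩`
(at `y₀`, `y₁`), so by `hirr` there is `y ∈ 𝒩` with both nonzero. But `Γ (A, a, b) (Φ y) ∈ V` (`h1`, `conj_act`, `conj_smul`,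
`Conj.trans`, `marked_conj`). Contradiction. -/
theorem irred_marked {n : ℕ} {Y : Type} (𝒩 : Set (Y → ℂ)) (hirr : Irred 𝒩) (Φ : (Y → ℂ) → Fin 2 × Fin (d + 1) → ℂ)
    (hΦ : ∀ x, IsPoly fun y => Φ y x) (h1 : ∀ y ∈ 𝒩, mk (Φ y) ![1, 0] ∈ Marked d n)
    (h2 : ∀ v ∈ Marked d n, ∃ y ∈ 𝒩, Conj (mk (Φ y) ![1, 0]) v) : Irred (Marked d n) := by
  refine ⟨?_, fun f g hfg => ?_⟩
  · obtain ⟨y, hy⟩ := hirr.1
    exact ⟨_, h1 y hy⟩
  by_contra hcon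
  push Not at hcon
  obtain ⟨⟨v₀, hv₀, hf₀⟩, v₁, hv₁, hg₁⟩ := hcon
  obtain ⟨y₀, hy₀, hc₀⟩ := h2 v₀ hv₀
  obtain ⟨y₁, hy₁, hc₁⟩ := h2 v₁ hv₁
  obtain ⟨A₀, a₀, b₀, hA₀, ha₀, hb₀, e₀⟩ := conj_form hc₀
  obtain ⟨A₁, a₁, b₁, hA₁, ha₁, hb₁, e₁⟩ := conj_form hc₁
  obtain ⟨w₀, rfl, rfl, rfl⟩ := i0_param A₀ a₀ b₀
  obtain ⟨w₁, rfl, rfl, rfl⟩ := i0_param A₁ a₁ b₁
  -- the parameters
  have hAP : ∀ i j, IsPoly fun w => i0A w i j := fun i j => isPoly_coord _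
  have haP : IsPoly fun w : (Fin 2 × Fin 2) ⊕ Fin 2 → ℂ => w (Sum.inr 0) := isPoly_coord _
  have hbP : IsPoly fun w : (Fin 2 × Fin 2) ⊕ Fin 2 → ℂ => w (Sum.inr 1) := isPoly_coord _
  have hΓ1 : ∀ (F : Fin 2 × Fin (d + 1) → ℂ) x, IsPoly fun w => i0G w F x := fun F x =>
    i0_poly (F := fun _ => F) hAP haP hbP (fun _ => isPoly_const _) x
  have hΓ2 : ∀ w x, IsPoly fun y => i0G w (Φ y) x := fun w x =>
    i0_poly (A := fun _ => i0A w) (a := fun _ => w (Sum.inr 0)) (b := fun _ => w (Sum.inr 1)) (F := Φ)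
      (fun _ _ => isPoly_const _) (isPoly_const _) (isPoly_const _) hΦ x
  have hfP : IsPoly fun v : Coord d → ℂ => eval v f := ⟨f, fun _ => rfl⟩
  have hgP : IsPoly fun v : Coord d → ℂ => eval v g := ⟨g, fun _ => rfl⟩
  have k₀ : ∃ w, eval (i0G w (Φ y₀)) f ≠ 0 := by
    refine ⟨w₀, ?_⟩
    rw [e₀] at hf₀
    exact hf₀
  have k₁ : ∃ w, eval (i0G w (Φ y₁)) g ≠ 0 := by
    refine ⟨w₁, ?_⟩
    rw [e₁] at hg₁
    exact hg₁
  have k₂ : ∃ w, (i0A w).det * (w (Sum.inr 0) * w (Sum.inr 1)) ≠ 0 :=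
    ⟨w₀, mul_ne_zero hA₀ (mul_ne_zero ha₀ hb₀)⟩
  have p₀ : IsPoly fun w => eval (i0G w (Φ y₀)) f := isPoly_comp hfP (hΓ1 _)
  have p₁ : IsPoly fun w => eval (i0G w (Φ y₁)) g := isPoly_comp hgP (hΓ1 _)
  have p₂ : IsPoly fun w => (i0A w).det * (w (Sum.inr 0) * w (Sum.inr 1)) :=
    isPoly_mul (isPoly_det hAP) (isPoly_mul haP hbP)
  obtain ⟨w', hw'⟩ := exists_common p₀ p₁ k₀ k₁
  obtain ⟨w, hw1, hw2⟩ := exists_common (isPoly_mul p₀ p₁) p₂ ⟨w', mul_ne_zero hw'.1 hw'.2⟩ k₂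
  obtain ⟨hw3, hw4⟩ := mul_ne_zero_iff.1 hw1
  obtain ⟨hdet, hab⟩ := mul_ne_zero_iff.1 hw2
  obtain ⟨ha, hb⟩ := mul_ne_zero_iff.1 hab
  -- all conjugates are marked
  have hmem : ∀ y ∈ 𝒩, i0G w (Φ y) ∈ Marked d n := fun y hy =>
    marked_conj ((conj_act (i0A w) hdet (Φ y) ![1, 0]).trans (conj_smul _ _ ha hb)) (h1 y hy)
  obtain ⟨f', hf'⟩ := isPoly_comp hfP (hΓ2 w)
  obtain ⟨g', hg'⟩ := isPoly_comp hgP (hΓ2 w)
  rcases hirr.2 f' g' (fun y hy => by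
    rw [hf', hg']
    exact hfg _ (hmem y hy)) with h | h
  · exact hw3 ((hf' y₀).symm.trans (h y₀ hy₀))
  · exact hw4 ((hg' y₁).symm.trans (h y₁ hy₁))

end Pool.Agent.Lib.H90M
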