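import Pool.Agent.Lib.H90M.N0

/-!
# N1 (M): normalised maps have a marked point; normalisation
-/

namespace Pool.Agent.Lib.H90M

open MvPolynomial

variable {d m : ℕ}

theorem gg_mulVec (v : Coord d → ℂ) (q : Fin 2 → ℂ) :
    (gg v).mulVec q = ![wd (pp v 2) (pp v 0) * wd q (pp v 1), wd (pp v 2) (pp v 1) * wd q (pp v 0)] := by
  funext i
  fin_cases i
  · simp only [gg, wd, Matrix.mulVec, dotProduct, Fin.sum_univ_two, Matrix.of_apply, Matrix.cons_val_zero,
      Matrix.cons_val_one, Fin.zero_eta]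
    ring
  · simp only [gg, wd, Matrix.mulVec, dotProduct, Fin.sum_univ_two, Matrix.of_apply, Matrix.cons_val_zero,
      Matrix.cons_val_one, Fin.mk_one]
    ring

private theorem N1_poly_pp (i : ℕ) (k : Fin 2) : IsPoly (fun v : Coord d → ℂ => pp v i k) :=
  isPoly_iter (F := fun v : Coord d → ℂ => mapOf v) (q := fun v => ptOf v)
    (fun x => isPoly_coord (Sum.inl x)) (fun i => isPoly_coord (Sum.inr i)) i k

private theorem N1_poly_wd (i j : ℕ) : IsPoly (fun v : Coord d → ℂ => wd (pp v i) (pp v j)) :=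
  isPoly_sub (isPoly_mul (N1_poly_pp i 0) (N1_poly_pp j 1)) (isPoly_mul (N1_poly_pp i 1) (N1_poly_pp j 0))

private theorem N1_poly_gg (i j : Fin 2) : IsPoly (fun v : Coord d → ℂ => gg v i j) := by
  fin_cases i <;> fin_cases j
  · exact isPoly_mul (N1_poly_wd 2 0) (N1_poly_pp 1 1)
  · exact isPoly_neg (isPoly_mul (N1_poly_wd 2 0) (N1_poly_pp 1 0))
  · exact isPoly_mul (N1_poly_wd 2 1) (N1_poly_pp 0 1)
  · exact isPoly_neg (isPoly_mul (N1_poly_wd 2 1) (N1_poly_pp 0 0))

theorem isPoly_zN (j : ℕ) : IsPoly (fun v : Coord d → ℂ => zN v j) :=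
  isPoly_mulVec (M := fun v : Coord d → ℂ => gg v) (w := fun v => pp v (j + 3)) N1_poly_gg
    (fun k => N1_poly_pp (j + 3) k) 0

theorem isPoly_zD (j : ℕ) : IsPoly (fun v : Coord d → ℂ => zD v j) :=
  isPoly_mulVec (M := fun v : Coord d → ℂ => gg v) (w := fun v => pp v (j + 3)) N1_poly_gg
    (fun k => N1_poly_pp (j + 3) k) 1

theorem isPoly_FF (x : Fin 2 × Fin (d + 1)) : IsPoly (fun v : Coord d → ℂ => FF v x) :=
  isPoly_act N1_poly_gg (isPoly_adj N1_poly_gg) (fun x => isPoly_coord (Sum.inl x)) x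

private theorem N1_par {p q : Fin 2 → ℂ} (h : wd p q = 0) (hq : q ≠ 0) : ∃ c : ℂ, p = c • q := by
  unfold wd at h
  by_cases h0 : q 0 = 0
  · have h1 : q 1 ≠ 0 := by
      intro h1
      apply hq
      funext i
      fin_cases i
      · exact h0
      · exact h1
    refine ⟨p 1 / q 1, ?_⟩
    funext i
    fin_cases i
    · have : p 0 = 0 := by
        rw [h0, mul_zero, sub_zero] at h
        exact (mul_eq_zero.1 h).resolve_right h1
      simp [this, h0]
    · simp [h1]
  · refine ⟨p 0 / q 0, ?_⟩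
    funext i
    fin_cases i
    · simp [h0]
    · change p 1 = p 0 / q 0 * q 1
      field_simp
      linear_combination -h

private theorem N1_par' {p q : Fin 2 → ℂ} (h : wd p q = 0) (hq : q ≠ 0) (hp : p ≠ 0) : ∃ c : ℂ, c ≠ 0 ∧ p = c • q := by
  obtain ⟨c, hc⟩ := N1_par h hq
  refine ⟨c, ?_, hc⟩
  rintro rfl
  exact hp (by rw [hc, zero_smul])

private theorem N1_wd_smul (a b : ℂ) (p q : Fin 2 → ℂ) : wd (a • p) (b • q) = a * b * wd p q := by
  simp only [wd, Pi.smul_apply, smul_eq_mul]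
  ring

private theorem N1_wd_smul_left (a : ℂ) (p q : Fin 2 → ℂ) : wd (a • p) q = a * wd p q := by
  simp only [wd, Pi.smul_apply, smul_eq_mul]
  ring

private theorem N1_wd_self (p : Fin 2 → ℂ) : wd p p = 0 := by
  unfold wd
  ring

private theorem N1_wd_mulVec (g : Matrix (Fin 2) (Fin 2) ℂ) (p q : Fin 2 → ℂ) :
    wd (g.mulVec p) (g.mulVec q) = g.det * wd p q := by
  rw [Matrix.det_fin_two]
  simp only [wd, Matrix.mulVec, dotProduct, Fin.sum_univ_two]
  ring

private theorem N1_QQ_ne {z : Fin m → ℂ} {F : Fin 2 × Fin (d + 1) → ℂ} (h : Nrm z F) (i : Fin (m + 3)) :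
    QQ z i ≠ 0 := by
  intro h0
  have hne : i ≠ i + 1 := by
    intro h
    have h1 : (1 : Fin (m + 3)) = 0 := by
      have := h.symm
      rwa [add_eq_left] at this
    have := congrArg Fin.val h1
    simp at this
  apply h.ne i (i + 1) hne
  rw [h0]
  simp [wd]

private theorem N1_orbit {z : Fin m → ℂ} {F : Fin 2 × Fin (d + 1) → ℂ} (h : Nrm z F) (i : ℕ) (hi : i < m + 3) :
    ∃ c : ℂ, c ≠ 0 ∧ (app F)^[i] ![1, 0] = c • QQ z ⟨i, hi⟩ := by
  induction i with
  | zero =>
    refine ⟨1, one_ne_zero, ?_⟩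
    rw [one_smul, Function.iterate_zero, id_eq]
    rfl
  | succ i ih =>
    obtain ⟨c, hc, h1⟩ := ih (by omega)
    have hi1 : (⟨i, by omega⟩ : Fin (m + 3)) + 1 = ⟨i + 1, hi⟩ := by
      apply Fin.ext
      rw [Fin.val_add_one_of_lt]
      exact Fin.lt_def.2 (by simp only [Fin.val_last]; omega)
    have h2 := h.cyc ⟨i, by omega⟩
    rw [hi1] at h2
    obtain ⟨c', hc', h3⟩ := N1_par' h2 (N1_QQ_ne h _) (h.map _ (N1_QQ_ne h _))
    refine ⟨c ^ d * c', mul_ne_zero (pow_ne_zero _ hc) hc', ?_⟩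
    rw [Function.iterate_succ_apply', h1, app_smul, h3, smul_smul]

/-- PROOF. Let `p = l • (1, 0)`. By induction `app F^[i] p` is a nonzero multiple of `QQ z i` for `i < m + 3` (if
`p_i = c • QQ z i` then `app F p_i = c^d • app F (QQ z i)` (`app_smul`), nonzero by `map`, and proportional to `QQ z (i + 1)` by `cyc`), and
`app F^[m + 3] p` is a multiple of `QQ z 0` (the index `m + 2 + 1 = 0` in `Fin (m + 3)`). Exact period `m + 3`: `ne` with `j = 0`. -/
theorem nrm_marked {z : Fin m → ℂ} {F : Fin 2 × Fin (d + 1) → ℂ} (h : Nrm z F) : mk F ![1, 0] ∈ Marked d (m + 3) := by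
  refine ⟨by rw [mapOf_mk]; exact h.map, ?_⟩
  rw [mapOf_mk, ptOf_mk]
  have hQ0 : QQ z 0 = ![1, 0] := rfl
  refine ⟨fun h => one_ne_zero (congrFun h 0), ?_, fun k hk1 hk2 => ?_⟩
  · obtain ⟨c, hc, h1⟩ := N1_orbit h (m + 2) (by omega)
    rw [Function.iterate_succ_apply', h1, app_smul, N1_wd_smul_left, ← hQ0]
    have h2 := h.cyc (Fin.last (m + 2))
    rw [Fin.last_add_one] at h2
    have : (⟨m + 2, by omega⟩ : Fin (m + 3)) = Fin.last (m + 2) := rfl
    rw [this, h2, mul_zero]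
  · obtain ⟨c, hc, h1⟩ := N1_orbit h k hk2
    rw [h1, N1_wd_smul_left, ← hQ0]
    refine mul_ne_zero hc (h.ne _ _ ?_)
    intro h0
    have := congrArg Fin.val h0
    simp at this
    omega

private theorem N1_pp_succ (v : Coord d → ℂ) (i : ℕ) : pp v (i + 1) = app (mapOf v) (pp v i) :=
  Function.iterate_succ_apply' _ _ _

private theorem N1_pp_ne {v : Coord d → ℂ} (hF : IsMap (mapOf v)) (hp : ptOf v ≠ 0) (i : ℕ) : pp v i ≠ 0 := by
  induction i with
  | zero => exact hp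
  | succ i ih =>
    rw [N1_pp_succ]
    exact hF _ ih

private theorem N1_shift {v : Coord d → ℂ} (hF : IsMap (mapOf v)) (hp : ptOf v ≠ 0) {i j : ℕ}
    (h : wd (pp v i) (pp v j) = 0) (k : ℕ) : wd (pp v (i + k)) (pp v (j + k)) = 0 := by
  induction k with
  | zero => exact h
  | succ k ih =>
    obtain ⟨c, hc⟩ := N1_par ih (N1_pp_ne hF hp _)
    rw [← add_assoc, ← add_assoc, N1_pp_succ, N1_pp_succ, hc, app_smul, N1_wd_smul_left, N1_wd_self, mul_zero]

/-- The orbit points of a marked map are nonzero and pairwise different in `ℙ¹`. PROOF. Nonzero: `IsMap`, induction. If `p_i ∥ p_j` with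
`i < j < n` then, applying `app F^[n - j]` (proportional nonzero vectors have proportional images, `app_smul`),
`p_(n - j + i) ∥ p_n ∥ p_0` with `0 < n - j + i < n`, a contradiction. -/
theorem pp_ne {n : ℕ} {v : Coord d → ℂ} (hv : v ∈ Marked d n) : (∀ i, pp v i ≠ 0) ∧
    ∀ i j, i < n → j < n → i ≠ j → wd (pp v i) (pp v j) ≠ 0 := by
  obtain ⟨hF, hp, hper, hmin⟩ := hv
  have hn := N1_pp_ne hF hp
  refine ⟨hn, ?_⟩
  have key : ∀ i j, i < j → j < n → wd (pp v i) (pp v j) ≠ 0 := by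
    intro i j hij hj h
    have h1 := N1_shift hF hp h (n - j)
    have h2 : j + (n - j) = n := by omega
    rw [h2] at h1
    apply hmin (i + (n - j)) (by omega) (by omega)
    obtain ⟨c, hc⟩ := N1_par h1 (hn n)
    change wd (pp v (i + (n - j))) (ptOf v) = 0
    rw [hc, N1_wd_smul_left]
    change c * wd ((app (mapOf v))^[n] (ptOf v)) (ptOf v) = 0
    rw [hper, mul_zero]
  intro i j hi hj hij
  rcases Nat.lt_or_gt_of_ne hij with h | h
  · exact key i j h hj
  · intro h0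
    apply key j i h hi
    unfold wd at h0 ⊢
    linear_combination -h0

/-- PROOF. `pp_ne` with `n = m + 3`. `det (gg v) = ± wd (p 2) (p 0) wd (p 2) (p 1) wd (p 0) (p 1)`; `zD v j = wd (p 2) (p 1) wd (p (j+3)) (p 0)`.
`gg v` maps `p 0, p 1, p 2` to nonzero multiples of `(1, 0), (0, 1), (1, 1)` and `p (j + 3)` to a multiple of `(zz j, 1)`. The brackets of the
points `QQ (zz v) i` are nonzero multiples of those of the `p i` (`wd (g p) (g q) = det g * wd p q`). `app (FF v) (gg v q) = det^d • gg v (app f q)` (`act_app`, `app_smul`)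
gives `cyc` (for `i = m + 2` use `p_(m+3) ∥ p_0`). `Conj`: `conj_act` and `conj_smul`. -/
theorem normalise {v : Coord d → ℂ} (hv : v ∈ Marked d (m + 3)) : (gg v).det ≠ 0 ∧ (∀ j : Fin m, zD v j ≠ 0) ∧
    Nrm (zz m v) (FF v) ∧ Conj v (mk (FF v) ![1, 0]) := by
  obtain ⟨hn, hw⟩ := pp_ne hv
  have w20 := hw 2 0 (by omega) (by omega) (by omega)
  have w21 := hw 2 1 (by omega) (by omega) (by omega)
  have w01 := hw 0 1 (by omega) (by omega) (by omega)
  have w10 := hw 1 0 (by omega) (by omega) (by omega)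
  have hdet : (gg v).det ≠ 0 := by
    have : (gg v).det = -(wd (pp v 2) (pp v 0) * wd (pp v 2) (pp v 1) * wd (pp v 0) (pp v 1)) := by
      rw [gg, Matrix.det_fin_two_of]
      unfold wd
      ring
    rw [this]
    exact neg_ne_zero.2 (mul_ne_zero (mul_ne_zero w20 w21) w01)
  have hzD : ∀ j : Fin m, zD v j ≠ 0 := by
    intro j
    rw [zD, gg_mulVec]
    simp only [Matrix.cons_val_one, Matrix.cons_val_zero]
    exact mul_ne_zero w21 (hw _ _ (by omega) (by omega) (by omega))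
  have hQ : ∀ i : Fin (m + 3), ∃ c : ℂ, c ≠ 0 ∧ (gg v).mulVec (pp v i) = c • QQ (zz m v) i := by
    intro i
    refine Fin.cases ?_ (fun i => ?_) i
    · refine ⟨wd (pp v 2) (pp v 0) * wd (pp v 0) (pp v 1), mul_ne_zero w20 w01, ?_⟩
      rw [gg_mulVec]
      funext k
      fin_cases k
      · simp [QQ]
      · simp [QQ, N1_wd_self]
    refine Fin.cases ?_ (fun i => ?_) i
    · refine ⟨wd (pp v 2) (pp v 1) * wd (pp v 1) (pp v 0), mul_ne_zero w21 w10, ?_⟩
      rw [gg_mulVec]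
      funext k
      fin_cases k
      · simp [QQ, N1_wd_self]
      · simp [QQ]
    refine Fin.cases ?_ (fun i => ?_) i
    · refine ⟨wd (pp v 2) (pp v 1) * wd (pp v 2) (pp v 0), mul_ne_zero w21 w20, ?_⟩
      have hi : (((Fin.succ (Fin.succ (0 : Fin (m + 1))) : Fin (m + 3))) : ℕ) = 2 := by simp
      rw [hi, gg_mulVec]
      funext k
      fin_cases k
      · change wd (pp v 2) (pp v 0) * wd (pp v 2) (pp v 1) = wd (pp v 2) (pp v 1) * wd (pp v 2) (pp v 0) * 1
        ring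
      · change wd (pp v 2) (pp v 1) * wd (pp v 2) (pp v 0) = wd (pp v 2) (pp v 1) * wd (pp v 2) (pp v 0) * 1
        ring
    · refine ⟨zD v i, hzD i, ?_⟩
      have hi : (((i.succ.succ.succ : Fin (m + 3))) : ℕ) = (i : ℕ) + 3 := by simp
      rw [hi]
      funext k
      fin_cases k
      · change zN v i = zD v i * (zN v i / zD v i)
        rw [mul_div_cancel₀ _ (hzD i)]
      · change zD v i = zD v i * 1
        rw [mul_one]
  obtain ⟨c0, hc0, h0⟩ := hQ 0
  have hQ0 : QQ (zz m v) 0 = ![1, 0] := rfl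
  have hconj : Conj v (mk (FF v) ![1, 0]) := by
    have hc := conj_act (gg v) hdet (mapOf v) (ptOf v)
    rw [mk_eq] at hc
    have hp : (gg v).mulVec (ptOf v) = c0 • ![1, 0] := by
      rw [← hQ0, ← h0]
      rfl
    rw [hp] at hc
    have hc2 := conj_smul (act (gg v) (gg v).adjugate (mapOf v)) (c0 • ![1, 0]) (μ := 1)
      (l := c0⁻¹) one_ne_zero (inv_ne_zero hc0)
    rw [one_smul, smul_smul, inv_mul_cancel₀ hc0, one_smul] at hc2
    exact hc.trans hc2
  have hmap : IsMap (FF v) := by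
    have := (marked_conj hconj hv).1
    rwa [mapOf_mk] at this
  have happ : ∀ q, app (FF v) ((gg v).mulVec q) = (gg v).det ^ d • (gg v).mulVec (app (mapOf v) q) := by
    intro q
    rw [FF, act_app, Matrix.mulVec_mulVec, Matrix.adjugate_mul, Matrix.smul_mulVec, Matrix.one_mulVec, app_smul,
      Matrix.mulVec_smul]
  refine ⟨hdet, hzD, ⟨hmap, ?_, ?_⟩, hconj⟩
  · intro i j hij h
    obtain ⟨c, hc, h1⟩ := hQ i
    obtain ⟨c', hc', h2⟩ := hQ j
    have h3 := N1_wd_mulVec (gg v) (pp v i) (pp v j)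
    rw [h1, h2, N1_wd_smul, h, mul_zero] at h3
    exact mul_ne_zero hdet (hw i j i.2 j.2 fun h => hij (Fin.ext h)) h3.symm
  · intro i
    obtain ⟨c, hc, h1⟩ := hQ i
    have h2 := happ (pp v i)
    rw [h1, app_smul, ← N1_pp_succ] at h2
    obtain ⟨c', h3⟩ : ∃ c' : ℂ, (gg v).mulVec (pp v ((i : ℕ) + 1)) = c' • QQ (zz m v) (i + 1) := by
      rcases Fin.eq_castSucc_or_eq_last i with ⟨k, rfl⟩ | rfl
      · obtain ⟨c', _, h4⟩ := hQ (k.castSucc + 1)
        refine ⟨c', ?_⟩
        rw [← h4, Fin.val_add_one_of_lt (Fin.castSucc_lt_last k)]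
      · have h5 : wd (pp v (m + 3)) (pp v 0) = 0 := hv.2.2.1
        obtain ⟨c', h6⟩ := N1_par h5 (hn 0)
        refine ⟨c' * c0, ?_⟩
        rw [Fin.last_add_one, Fin.val_last, h6, Matrix.mulVec_smul]
        have : (gg v).mulVec (pp v 0) = c0 • QQ (zz m v) 0 := h0
        rw [this, smul_smul]
    rw [h3, smul_smul] at h2
    have h4 : c ^ d * wd (app (FF v) (QQ (zz m v) i)) (QQ (zz m v) (i + 1)) = 0 := by
      rw [← N1_wd_smul_left, h2, N1_wd_smul_left, N1_wd_self, mul_zero]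
    exact (mul_eq_zero.1 h4).resolve_left (pow_ne_zero _ hc)

end Pool.Agent.Lib.H90M
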