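import Pool.Agent.Lib.H90M.K2
import Pool.Agent.Lib.H90M.I0
import Pool.Agent.Lib.H90M.N1
import Pool.Agent.Lib.H90M.C2

/-!
# I3 (M/L): irreducibility of the set of normalised pairs, `n = m + 3`
-/

namespace Pool.Agent.Lib.H90M

open MvPolynomial

variable {d m : ℕ}

/-- The normalised pairs `(z, F)`. -/
def NN (d m : ℕ) : Set (Fin m ⊕ (Fin 2 × Fin (d + 1)) → ℂ) :=
  {y | Nrm (fun j => y (Sum.inl j)) (fun x => y (Sum.inr x))}

/-- PROOF. Nonempty: `exists_marked` and `normalise`. Let `φ, ψ` be polynomials with `φ * ψ = 0` on `NN`, `φ y₀ ≠ 0`, `ψ y₁ ≠ 0`, `y₀ = (z₀, F₀)`,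
`y₁ = (z₁, F₁)` in `NN`. Let `B₀`, `B₁` be right inverses of `MM z₀`, `MM z₁` (`MM_surj`, `exists_right_inv`), `ρ₀`, `ρ₁` as in `exists_rho` for `F₀`, `F₁`,
`c₀ (z, w) = ker (MM z) B₀ w`, `c₁` similarly, `δ₀ z = det (MM z * B₀)`. All these are polynomial functions of `(z, w)`. If `δ₀ z ≠ 0`, `dst z ≠ 0` and `ρ₀ (c₀ (z, w)) ≠ 0` then
`(z, c₀ (z, w)) ∈ NN` (`nrm_iff`, `mulVec_ker`). The polynomial functions `φ (z, c₀ (z, w))`, `δ₀ z`, `dst z`, `ρ₀ (c₀ (z, w))` are nonzero at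
`(z₀, F₀)`, since `c₀ (z₀, F₀) = F₀` (`ker_of_mem`, `det 1 = 1`); the same with `1` in the place of `0`. By `exists_common` there is `(z, w₁)` with
`δ₀ z ≠ 0` and `ψ (z, c₁ (z, w₁)) ≠ 0`. With `F = c₁ (z, w₁)`, `MM z F = 0`, and `w = (δ₀ z)⁻¹ • F` we have `c₀ (z, w) = F` (`ker_of_mem`, `ker_smul`), so
`ψ (z, c₀ (z, w)) ≠ 0`: this polynomial function is not identically zero. By `exists_common` (several times) there is `(z, w)` with
`φ (z, c₀ (z, w)) ≠ 0`, `δ₀ z ≠ 0`, `dst z ≠ 0`, `ρ₀ (c₀ (z, w)) ≠ 0`, `ψ (z, c₀ (z, w)) ≠ 0`: contradiction. -/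
theorem irred_NN (hd : 2 ≤ d) (hm : m + 3 ≤ 2 * d + 1) : Irred (NN d m) := by
  classical
  refine ⟨?_, ?_⟩
  · obtain ⟨v, hv⟩ := exists_marked d (m + 3) hd (by omega)
    exact ⟨Sum.elim (zz m v) (FF v), (normalise hv).2.2.1⟩
  · intro f g hfg
    by_contra hcon
    push Not at hcon
    obtain ⟨⟨y₀, hy₀, hf₀⟩, ⟨y₁, hy₁, hg₁⟩⟩ := hcon
    have hd1 : 1 ≤ d := by omega
    have n0 := (nrm_iff (fun j => y₀ (Sum.inl j)) (fun x => y₀ (Sum.inr x))).1 hy₀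
    have n1 := (nrm_iff (fun j => y₁ (Sum.inl j)) (fun x => y₁ (Sum.inr x))).1 hy₁
    obtain ⟨B₀, hB₀⟩ := exists_right_inv (MM d (fun j => y₀ (Sum.inl j))) (MM_surj hd1 hm hy₀)
    obtain ⟨B₁, hB₁⟩ := exists_right_inv (MM d (fun j => y₁ (Sum.inl j))) (MM_surj hd1 hm hy₁)
    obtain ⟨ρ, hρ, hρ0, hρm⟩ := exists_rho hd1 (fun x => y₀ (Sum.inr x)) n0.1
    have hz : ∀ j, IsPoly fun y : Fin m ⊕ (Fin 2 × Fin (d + 1)) → ℂ => y (Sum.inl j) := fun j => isPoly_coord _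
    have hw : ∀ x, IsPoly fun y : Fin m ⊕ (Fin 2 × Fin (d + 1)) → ℂ => y (Sum.inr x) := fun x => isPoly_coord _
    have hMM : ∀ i x, IsPoly fun y : Fin m ⊕ (Fin 2 × Fin (d + 1)) → ℂ => MM d (fun j => y (Sum.inl j)) i x :=
      fun i x => isPoly_MM hz i x
    have hker : ∀ (B : Matrix (Fin 2 × Fin (d + 1)) (Fin (m + 3)) ℂ) x,
        IsPoly fun y : Fin m ⊕ (Fin 2 × Fin (d + 1)) → ℂ => ker (MM d (fun j => y (Sum.inl j))) B (fun x => y (Sum.inr x)) x :=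
      fun B x => isPoly_ker hMM hw x
    obtain ⟨s, hs⟩ : ∃ s : Matrix (Fin 2 × Fin (d + 1)) (Fin (m + 3)) ℂ → (Fin m ⊕ (Fin 2 × Fin (d + 1)) → ℂ) →
        (Fin m ⊕ (Fin 2 × Fin (d + 1)) → ℂ), s = fun B y =>
          Sum.elim (fun j => y (Sum.inl j)) (ker (MM d (fun j => y (Sum.inl j))) B (fun x => y (Sum.inr x))) := ⟨_, rfl⟩
    have hsl : ∀ B y j, s B y (Sum.inl j) = y (Sum.inl j) := fun B y j => by rw [hs]; rfl
    have hsr : ∀ B y x, s B y (Sum.inr x) = ker (MM d (fun j => y (Sum.inl j))) B (fun x => y (Sum.inr x)) x :=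
      fun B y x => by rw [hs]; rfl
    have hsp : ∀ B x, IsPoly fun y => s B y x := by
      intro B x
      rw [hs]
      cases x with
      | inl j => exact hz j
      | inr x => exact hker B x
    have hev : ∀ (B) (q : MvPolynomial (Fin m ⊕ (Fin 2 × Fin (d + 1))) ℂ), IsPoly fun y => eval (s B y) q :=
      fun B q => isPoly_comp (φ := fun v => eval v q) ⟨q, fun _ => rfl⟩ (hsp B)
    have hδ : IsPoly fun y : Fin m ⊕ (Fin 2 × Fin (d + 1)) → ℂ => (MM d (fun j => y (Sum.inl j)) * B₀).det :=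
      isPoly_det fun i j => isPoly_matmul (N := fun _ => B₀) hMM (fun a b => isPoly_const (B₀ a b)) i j
    have fix : ∀ (B : Matrix (Fin 2 × Fin (d + 1)) (Fin (m + 3)) ℂ) (y : Fin m ⊕ (Fin 2 × Fin (d + 1)) → ℂ),
        MM d (fun j => y (Sum.inl j)) * B = 1 → (MM d (fun j => y (Sum.inl j))).mulVec (fun x => y (Sum.inr x)) = 0 →
        s B y = y := by
      intro B y h1 h2
      funext x
      cases x with
      | inl j => exact hsl B y j
      | inr x =>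
        rw [hsr, ker_of_mem _ _ _ h2, h1, Matrix.det_one, one_smul]
    have e0 := fix B₀ y₀ hB₀ n0.2.2
    have e1 := fix B₁ y₁ hB₁ n1.2.2
    obtain ⟨y₂, hy₂, hy₂'⟩ := exists_common hδ (hev B₁ g) ⟨y₀, by
      show (MM d (fun j => y₀ (Sum.inl j)) * B₀).det ≠ 0
      rw [hB₀, Matrix.det_one]
      exact one_ne_zero⟩ ⟨y₁, by
      show eval (s B₁ y₁) g ≠ 0
      rw [e1]
      exact hg₁⟩
    have hb : ∃ y, eval (s B₀ y) g ≠ 0 := by
      refine ⟨Sum.elim (fun j => y₂ (Sum.inl j)) ((MM d (fun j => y₂ (Sum.inl j)) * B₀).det⁻¹ •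
        ker (MM d (fun j => y₂ (Sum.inl j))) B₁ (fun x => y₂ (Sum.inr x))), ?_⟩
      have h1 : s B₀ (Sum.elim (fun j => y₂ (Sum.inl j)) ((MM d (fun j => y₂ (Sum.inl j)) * B₀).det⁻¹ •
        ker (MM d (fun j => y₂ (Sum.inl j))) B₁ (fun x => y₂ (Sum.inr x)))) = s B₁ y₂ := by
        funext x
        cases x with
        | inl j => rw [hsl, hsl]; rfl
        | inr x =>
          rw [hsr, hsr]
          show ker (MM d (fun j => y₂ (Sum.inl j))) B₀ ((MM d (fun j => y₂ (Sum.inl j)) * B₀).det⁻¹ •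
            ker (MM d (fun j => y₂ (Sum.inl j))) B₁ (fun x => y₂ (Sum.inr x))) x = _
          rw [ker_smul, ker_of_mem _ B₀ _ (mulVec_ker _ _ _), smul_smul, inv_mul_cancel₀ hy₂, one_smul]
      rw [h1]
      exact hy₂'
    have hd0 : IsPoly fun y : Fin m ⊕ (Fin 2 × Fin (d + 1)) → ℂ => dst (fun j => y (Sum.inl j)) := isPoly_dst hz
    have hρp : IsPoly fun y : Fin m ⊕ (Fin 2 × Fin (d + 1)) → ℂ =>
        ρ (ker (MM d (fun j => y (Sum.inl j))) B₀ (fun x => y (Sum.inr x))) :=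
      isPoly_comp hρ (hker B₀)
    have k0 : ker (MM d (fun j => y₀ (Sum.inl j))) B₀ (fun x => y₀ (Sum.inr x)) = fun x => y₀ (Sum.inr x) := by
      rw [ker_of_mem _ _ _ n0.2.2, hB₀, Matrix.det_one, one_smul]
    obtain ⟨y, hy, hy'⟩ := exists_common (isPoly_mul (isPoly_mul (hev B₀ f) hd0) hρp) (hev B₀ g) ⟨y₀, by
      show eval (s B₀ y₀) f * dst (fun j => y₀ (Sum.inl j)) *
        ρ (ker (MM d (fun j => y₀ (Sum.inl j))) B₀ (fun x => y₀ (Sum.inr x))) ≠ 0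
      rw [e0, k0]
      exact mul_ne_zero (mul_ne_zero hf₀ n0.2.1) hρ0⟩ hb
    have m1 := left_ne_zero_of_mul (left_ne_zero_of_mul hy)
    have m2 := right_ne_zero_of_mul (left_ne_zero_of_mul hy)
    have m3 := right_ne_zero_of_mul hy
    have hmem : s B₀ y ∈ NN d m := by
      show Nrm (fun j => s B₀ y (Sum.inl j)) (fun x => s B₀ y (Sum.inr x))
      have h1 : (fun j => s B₀ y (Sum.inl j)) = fun j => y (Sum.inl j) := funext fun j => hsl B₀ y j
      have h2 : (fun x => s B₀ y (Sum.inr x)) = ker (MM d (fun j => y (Sum.inl j))) B₀ (fun x => y (Sum.inr x)) :=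
        funext fun x => hsr B₀ y x
      rw [h1, h2]
      exact (nrm_iff _ _).2 ⟨hρm _ m3, m2, mulVec_ker _ _ _⟩
    rcases hfg _ hmem with h | h
    · exact m1 h
    · exact hy' h

/-- PROOF. `irred_marked` with `𝒩 = NN d m`, `Φ y = fun x => y (Sum.inr x)`, `nrm_marked`, `normalise`, `Conj.symm`. -/
theorem irred_marked3 (hd : 2 ≤ d) (hm : m + 3 ≤ 2 * d + 1) : Irred (Marked d (m + 3)) := by
  refine irred_marked (NN d m) (irred_NN hd hm) (fun y x => y (Sum.inr x)) (fun x => isPoly_coord _) ?_ ?_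
  · intro y hy
    exact nrm_marked hy
  · intro v hv
    have h := normalise hv
    exact ⟨Sum.elim (zz m v) (FF v), h.2.2.1, Conj.symm h.2.2.2⟩

end Pool.Agent.Lib.H90M
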