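import Pool.Agent.Lib.H90M.F1
import Pool.Agent.Lib.H89N.CV3A

/-!
# K1 (M): polynomial parametrisation of the kernel of a matrix of polynomials
-/

namespace Pool.Agent.Lib.H90M

open MvPolynomial

noncomputable section

variable {Z ι κ : Type} [Fintype ι] [DecidableEq ι] [Fintype κ] [DecidableEq κ]

/-- The vector `det (M B) w - B adj (M B) M w`. -/
def ker (M : Matrix κ ι ℂ) (B : Matrix ι κ ℂ) (w : ι → ℂ) : ι → ℂ :=
  (M * B).det • w - B.mulVec ((M * B).adjugate.mulVec (M.mulVec w))

/-- PROOF. `M B adj (M B) = det (M B) • 1`. -/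
theorem mulVec_ker (M : Matrix κ ι ℂ) (B : Matrix ι κ ℂ) (w : ι → ℂ) : M.mulVec (ker M B w) = 0 := by
  rw [ker, Matrix.mulVec_sub, Matrix.mulVec_smul, Matrix.mulVec_mulVec _ M B, Matrix.mulVec_mulVec _ (M * B) _,
    Matrix.mul_adjugate, Matrix.smul_mulVec, Matrix.one_mulVec, sub_self]

theorem ker_of_mem (M : Matrix κ ι ℂ) (B : Matrix ι κ ℂ) (w : ι → ℂ) (h : M.mulVec w = 0) :
    ker M B w = (M * B).det • w := by
  rw [ker, h, Matrix.mulVec_zero, Matrix.mulVec_zero, sub_zero]

theorem ker_smul (M : Matrix κ ι ℂ) (B : Matrix ι κ ℂ) (c : ℂ) (w : ι → ℂ) : ker M B (c • w) = c • ker M B w := by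
  rw [ker, ker, Matrix.mulVec_smul, Matrix.mulVec_smul, Matrix.mulVec_smul, smul_sub, smul_comm]

theorem ker_sub (M : Matrix κ ι ℂ) (B : Matrix ι κ ℂ) (w w' : ι → ℂ) : ker M B (w - w') = ker M B w - ker M B w' := by
  rw [ker, ker, ker, Matrix.mulVec_sub, Matrix.mulVec_sub, Matrix.mulVec_sub, smul_sub]
  abel

/-- PROOF. `adj (M B) (M B) = det (M B) • 1`. -/
theorem ker_range (M : Matrix κ ι ℂ) (B : Matrix ι κ ℂ) (y : κ → ℂ) : ker M B (B.mulVec y) = 0 := by
  rw [ker, Matrix.mulVec_mulVec _ M B, Matrix.mulVec_mulVec _ _ (M * B), Matrix.adjugate_mul, Matrix.smul_mulVec,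
    Matrix.one_mulVec, Matrix.mulVec_smul, sub_self]

theorem isPoly_ker {M : (Z → ℂ) → Matrix κ ι ℂ} {B : Matrix ι κ ℂ} {w : (Z → ℂ) → ι → ℂ}
    (hM : ∀ i j, IsPoly fun z => M z i j) (hw : ∀ i, IsPoly fun z => w z i) (i : ι) :
    IsPoly fun z => ker (M z) B (w z) i := by
  have hB : ∀ i j, IsPoly fun _ : Z → ℂ => B i j := fun i j => isPoly_const _
  have hMB : ∀ i j, IsPoly fun z => (M z * B) i j := fun i j => isPoly_matmul hM hB i j
  have h1 : IsPoly fun z => (M z * B).det * w z i := isPoly_mul (isPoly_det hMB) (hw i)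
  have h2 : IsPoly fun z => B.mulVec ((M z * B).adjugate.mulVec ((M z).mulVec (w z))) i :=
    isPoly_mulVec (M := fun _ => B) hB
      (isPoly_mulVec (M := fun z => (M z * B).adjugate) (fun i j => isPoly_adj hMB i j) (isPoly_mulVec hM hw)) i
  exact isPoly_sub h1 h2

/-- A right inverse of a surjective matrix. PROOF. The columns of `B` are preimages of the unit vectors. -/
theorem exists_right_inv (M : Matrix κ ι ℂ) (h : ∀ t : κ → ℂ, ∃ w, M.mulVec w = t) : ∃ B : Matrix ι κ ℂ, M * B = 1 := by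
  choose w hw using fun j : κ => h (Pi.single j 1)
  refine ⟨Matrix.of fun i j => w j i, ?_⟩
  ext i j
  have h1 := congrFun (hw j) i
  rw [Matrix.mul_apply, Matrix.one_apply]
  rw [Pi.single_apply] at h1
  exact h1

/-- The matrix which puts the coordinates of `κ` at the places `σ`. -/
def sel (σ : κ → ι) : Matrix ι κ ℂ := Matrix.of fun x i => if x = σ i then 1 else 0

/-- PROOF. `Pool.Agent.Lib.H89N.exists_minor` (file `Pool/Agent/Lib/H89N/CV3A.lean`, import it, or copy): the rows of `M` are linearly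
independent since `M` is surjective; `M * sel σ = M.submatrix id σ`. -/
theorem exists_sel (M : Matrix κ ι ℂ) (h : ∀ t : κ → ℂ, ∃ w, M.mulVec w = t) :
    ∃ σ : κ → ι, Function.Injective σ ∧ (M * sel σ).det ≠ 0 := by
  obtain ⟨B, hB⟩ := exists_right_inv M h
  have hli : LinearIndependent ℂ M.row := by
    rw [Fintype.linearIndependent_iff]
    intro g hg i
    have h1 : Matrix.vecMul g M = 0 := by
      ext j
      have := congrFun hg j
      rw [Finset.sum_apply] at this
      exact this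
    have h2 : Matrix.vecMul g (M * B) = 0 := by
      rw [← Matrix.vecMul_vecMul, h1, Matrix.zero_vecMul]
    rw [hB, Matrix.vecMul_one] at h2
    exact congrFun h2 i
  obtain ⟨σ, hσ, hd⟩ := Pool.Agent.Lib.H89N.exists_minor M hli
  refine ⟨σ, hσ, ?_⟩
  have e : M * sel σ = M.submatrix id σ := by
    ext i j
    rw [Matrix.mul_apply]
    simp [sel]
  rw [e]
  exact hd

/-- PROOF. The vector `(sel σ).mulVec y` is zero outside of the range of `σ`. -/
theorem ker_sel_apply (M : Matrix κ ι ℂ) (σ : κ → ι) (w : ι → ℂ) (x : ι) (hx : ∀ i, x ≠ σ i) :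
    ker M (sel σ) w x = (M * sel σ).det * w x := by
  have h : ∀ y : κ → ℂ, (sel σ).mulVec y x = 0 := by
    intro y
    rw [Matrix.mulVec, dotProduct]
    refine Finset.sum_eq_zero fun i _ => ?_
    simp [sel, hx i]
  rw [ker, Pi.sub_apply, h, sub_zero]
  rfl

/-- Only the coordinates of `w` outside of the range of `σ` matter. PROOF. `ker_sub`, `ker_range`: `w - w' = (sel σ).mulVec y` with
`y i = (w - w') (σ i)` (`σ` injective). -/
theorem ker_sel_congr (M : Matrix κ ι ℂ) (σ : κ → ι) (hσ : Function.Injective σ) (w w' : ι → ℂ)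
    (h : ∀ x, (∀ i, x ≠ σ i) → w x = w' x) : ker M (sel σ) w = ker M (sel σ) w' := by
  have e : w - w' = (sel σ).mulVec fun i => (w - w') (σ i) := by
    ext x
    rw [Matrix.mulVec, dotProduct]
    by_cases hx : ∃ i, x = σ i
    · obtain ⟨i, rfl⟩ := hx
      rw [Finset.sum_eq_single i]
      · simp [sel]
      · intro j _ hj
        have : σ i ≠ σ j := fun h => hj (hσ h).symm
        simp [sel, this]
      · intro hi
        exact absurd (Finset.mem_univ i) hi
    · push Not at hx
      rw [Pi.sub_apply, h x hx, sub_self]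
      refine (Finset.sum_eq_zero fun i _ => ?_).symm
      simp [sel, hx i]
  have h1 : ker M (sel σ) (w - w') = 0 := by
    rw [e]
    exact ker_range _ _ _
  rw [ker_sub] at h1
  exact sub_eq_zero.1 h1

end

end Pool.Agent.Lib.H90M
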