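import Pool.Agent.Lib.H90M.N0
import Pool.Agent.Lib.H90M.B3
import Pool.Agent.Lib.H90M.K1

/-!
# K2 (M): the matrix of the conditions of the normalised cycle
-/

namespace Pool.Agent.Lib.H90M

open MvPolynomial

noncomputable section

variable {d m : ℕ}

/-- The matrix of the linear map `F ↦ (wd (app F (QQ z i)) (QQ z (i + 1)))_i`. -/
def MM (d : ℕ) {m : ℕ} (z : Fin m → ℂ) : Matrix (Fin (m + 3)) (Fin 2 × Fin (d + 1)) ℂ :=
  Matrix.of fun i x => (if x.1 = 0 then QQ z (i + 1) 1 else -QQ z (i + 1) 0) *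
    (QQ z i 0 ^ (x.2 : ℕ) * QQ z i 1 ^ (d - (x.2 : ℕ)))

/-- PROOF. `Fintype.sum_prod_type`, `Fin.sum_univ_two`. -/
theorem MM_mulVec (z : Fin m → ℂ) (F : Fin 2 × Fin (d + 1) → ℂ) (i : Fin (m + 3)) :
    (MM d z).mulVec F i = wd (app F (QQ z i)) (QQ z (i + 1)) := by
  have h : (MM d z).mulVec F i = ∑ x : Fin 2 × Fin (d + 1), MM d z i x * F x := rfl
  rw [h, Fintype.sum_prod_type, Fin.sum_univ_two]
  unfold wd app
  rw [Finset.sum_mul, Finset.sum_mul, ← Finset.sum_add_distrib, ← Finset.sum_sub_distrib]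
  refine Finset.sum_congr rfl fun k _ => ?_
  simp only [MM, Matrix.of_apply, if_true, one_ne_zero, if_false]
  ring

/-- PROOF. `Fin.cases` on `i`. -/
theorem isPoly_QQ {Y : Type} {z : (Y → ℂ) → Fin m → ℂ} (hz : ∀ j, IsPoly fun y => z y j) (i : Fin (m + 3)) (l : Fin 2) :
    IsPoly fun y => QQ (z y) i l := by
  refine Fin.cases ?_ (fun i => ?_) i
  · exact isPoly_const ((![1, 0] : Fin 2 → ℂ) l)
  refine Fin.cases ?_ (fun i => ?_) i
  · exact isPoly_const ((![0, 1] : Fin 2 → ℂ) l)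
  refine Fin.cases ?_ (fun i => ?_) i
  · exact isPoly_const ((![1, 1] : Fin 2 → ℂ) l)
  refine Fin.cases ?_ (fun l => ?_) l
  · exact hz i
  · exact isPoly_const ((fun l : Fin 1 => (![1] : Fin 1 → ℂ) l) l)

theorem isPoly_MM {Y : Type} {z : (Y → ℂ) → Fin m → ℂ} (hz : ∀ j, IsPoly fun y => z y j) (i : Fin (m + 3))
    (x : Fin 2 × Fin (d + 1)) : IsPoly fun y => MM d (z y) i x := by
  have h2 : IsPoly fun y => QQ (z y) i 0 ^ (x.2 : ℕ) * QQ (z y) i 1 ^ (d - (x.2 : ℕ)) :=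
    isPoly_mul (isPoly_pow (isPoly_QQ hz i 0) _) (isPoly_pow (isPoly_QQ hz i 1) _)
  by_cases h : x.1 = 0
  · have h1 := isPoly_mul (isPoly_QQ hz (i + 1) 1) h2
    obtain ⟨P, hP⟩ := h1
    exact ⟨P, fun v => by rw [hP]; simp only [MM, Matrix.of_apply, h, if_true]⟩
  · have h1 := isPoly_mul (isPoly_neg (isPoly_QQ hz (i + 1) 0)) h2
    obtain ⟨P, hP⟩ := h1
    exact ⟨P, fun v => by rw [hP]; simp only [MM, Matrix.of_apply, h, if_false]⟩

private theorem K2_QQ_ne (z : Fin m → ℂ) (i : Fin (m + 3)) : QQ z i ≠ 0 := by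
  refine Fin.cases ?_ (fun i => ?_) i
  · intro h
    have := congrFun h 0
    exact one_ne_zero this
  refine Fin.cases ?_ (fun i => ?_) i
  · intro h
    have := congrFun h 1
    exact one_ne_zero this
  refine Fin.cases ?_ (fun i => ?_) i
  · intro h
    have := congrFun h 1
    exact one_ne_zero this
  · intro h
    have := congrFun h 1
    exact one_ne_zero this

/-- PROOF. `surj` with `n = m + 3`, `q i = QQ z i`, `q' i = QQ z (i + 1)` (nonzero: one coordinate is `1`). -/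
theorem MM_surj (hd : 1 ≤ d) (hm : m + 3 ≤ 2 * d + 1) {z : Fin m → ℂ} {F : Fin 2 × Fin (d + 1) → ℂ} (h : Nrm z F)
    (t : Fin (m + 3) → ℂ) : ∃ G, (MM d z).mulVec G = t := by
  obtain ⟨G, hG⟩ := surj hd hm F h.map (QQ z) (fun i => QQ z (i + 1)) (K2_QQ_ne z) h.ne (fun i => K2_QQ_ne z (i + 1))
    h.cyc t
  refine ⟨G, ?_⟩
  funext i
  rw [MM_mulVec]
  exact hG i

/-- The product of all the brackets of different points of the normalised cycle. -/
def dst {m : ℕ} (z : Fin m → ℂ) : ℂ := ∏ i : Fin (m + 3), ∏ j : Fin (m + 3), if i = j then 1 else wd (QQ z i) (QQ z j)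

theorem isPoly_dst {Y : Type} {z : (Y → ℂ) → Fin m → ℂ} (hz : ∀ j, IsPoly fun y => z y j) : IsPoly fun y => dst (z y) := by
  refine isPoly_prod Finset.univ (φ := fun (i : Fin (m + 3)) y =>
    ∏ j : Fin (m + 3), if i = j then 1 else wd (QQ (z y) i) (QQ (z y) j)) fun i => ?_
  refine isPoly_prod Finset.univ (φ := fun (j : Fin (m + 3)) y =>
    if i = j then 1 else wd (QQ (z y) i) (QQ (z y) j)) fun j => ?_
  by_cases h : i = j
  · simp only [h, if_true]
    exact isPoly_const 1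
  · simp only [h, if_false]
    exact isPoly_sub (isPoly_mul (isPoly_QQ hz i 0) (isPoly_QQ hz j 1)) (isPoly_mul (isPoly_QQ hz i 1) (isPoly_QQ hz j 0))

theorem dst_ne (z : Fin m → ℂ) : dst z ≠ 0 ↔ ∀ i j : Fin (m + 3), i ≠ j → wd (QQ z i) (QQ z j) ≠ 0 := by
  unfold dst
  rw [Finset.prod_ne_zero_iff]
  constructor
  · intro h i j hij
    have h1 := h i (Finset.mem_univ i)
    rw [Finset.prod_ne_zero_iff] at h1
    have h2 := h1 j (Finset.mem_univ j)
    rw [if_neg hij] at h2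
    exact h2
  · intro h i _
    rw [Finset.prod_ne_zero_iff]
    intro j _
    by_cases hij : i = j
    · rw [if_pos hij]
      exact one_ne_zero
    · rw [if_neg hij]
      exact h i j hij

/-- The criterion for normalised pairs. -/
theorem nrm_iff (z : Fin m → ℂ) (F : Fin 2 × Fin (d + 1) → ℂ) : Nrm z F ↔ IsMap F ∧ dst z ≠ 0 ∧ (MM d z).mulVec F = 0 := by
  constructor
  · intro h
    refine ⟨h.map, (dst_ne z).2 h.ne, ?_⟩
    funext i
    rw [MM_mulVec, Pi.zero_apply]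
    exact h.cyc i
  · rintro ⟨h1, h2, h3⟩
    refine ⟨h1, (dst_ne z).1 h2, fun i => ?_⟩
    rw [← MM_mulVec, h3, Pi.zero_apply]

end

end Pool.Agent.Lib.H90M
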