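import Pool.Agent.Lib.H90M.C1

/-!
# N0: the normal form for `n = m + 3 ≥ 3` (definitions)

The cycle is normalised to `∞, 0, 1, z_0, ..., z_(m-1)`.
-/

namespace Pool.Agent.Lib.H90M

open MvPolynomial

noncomputable section

variable {d m : ℕ}

/-- The points of the normalised cycle: `(1, 0), (0, 1), (1, 1), (z 0, 1), ..., (z (m - 1), 1)`. -/
def QQ (z : Fin m → ℂ) : Fin (m + 3) → Fin 2 → ℂ :=
  Fin.cons ![1, 0] (Fin.cons ![0, 1] (Fin.cons ![1, 1] fun j => ![z j, 1]))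

/-- Normalised maps: `F` maps the `i`-th point of the normalised cycle to the next one (`i + 1` is cyclic in `Fin (m + 3)`). -/
structure Nrm (z : Fin m → ℂ) (F : Fin 2 × Fin (d + 1) → ℂ) : Prop where
  map : IsMap F
  ne : ∀ i j : Fin (m + 3), i ≠ j → wd (QQ z i) (QQ z j) ≠ 0
  cyc : ∀ i : Fin (m + 3), wd (app F (QQ z i)) (QQ z (i + 1)) = 0

/-- The `i`-th point of the orbit of the marked point. -/
def pp (v : Coord d → ℂ) (i : ℕ) : Fin 2 → ℂ := (app (mapOf v))^[i] (ptOf v)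

/-- The matrix which maps the first three points of the orbit to `∞, 0, 1`:
`g q = (wd (pp 2) (pp 0) * wd q (pp 1), wd (pp 2) (pp 1) * wd q (pp 0))`. -/
def gg (v : Coord d → ℂ) : Matrix (Fin 2) (Fin 2) ℂ :=
  !![wd (pp v 2) (pp v 0) * pp v 1 1, -(wd (pp v 2) (pp v 0) * pp v 1 0);
    wd (pp v 2) (pp v 1) * pp v 0 1, -(wd (pp v 2) (pp v 1) * pp v 0 0)]

/-- Numerators and denominators of the coordinates of the normalised cycle. -/
def zN (v : Coord d → ℂ) (j : ℕ) : ℂ := (gg v).mulVec (pp v (j + 3)) 0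
def zD (v : Coord d → ℂ) (j : ℕ) : ℂ := (gg v).mulVec (pp v (j + 3)) 1

/-- The normalised cycle of `v`. -/
def zz (m : ℕ) (v : Coord d → ℂ) (j : Fin m) : ℂ := zN v j / zD v j

/-- The normalised map of `v`. -/
def FF (v : Coord d → ℂ) : Fin 2 × Fin (d + 1) → ℂ := act (gg v) (gg v).adjugate (mapOf v)

end

end Pool.Agent.Lib.H90M
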