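import Pool.Agent.Lib.H90M.S1
import Pool.Agent.Lib.H90M.Q0

/-!
# R1 (M/L): rationality for `n = 1`
-/

namespace Pool.Agent.Lib.H90M

open MvPolynomial

noncomputable section

variable {d : ℕ}

/-- The free coordinates are those with `Fr1 x`. -/
def Fr1 (d : ℕ) (x : Fin 2 × Fin (d + 1)) : Prop :=
  ¬(x.1 = 0 ∧ (x.2 : ℕ) + 1 = d) ∧ ¬(x.1 = 1 ∧ ((x.2 : ℕ) = d ∨ (x.2 : ℕ) + 1 = d ∨ (x.2 : ℕ) + 2 = d))

open Classical in
/-- The section: the free coordinates are `u`, `F (0, d - 1) = F (1, d - 1) = 1`, `F (1, d) = F (1, d - 2) = 0`. -/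
def ss1 (u : {x : Fin 2 × Fin (d + 1) // Fr1 d x} → ℂ) : Fin 2 × Fin (d + 1) → ℂ :=
  fun x => if h : Fr1 d x then u ⟨x, h⟩ else if (x.2 : ℕ) + 1 = d then 1 else 0

theorem card_Fr1 (hd : 2 ≤ d) : Nat.card {x : Fin 2 × Fin (d + 1) // Fr1 d x} = 2 * d - 2 := by
  classical
  obtain ⟨a, ha⟩ : ∃ a : Fin 2 × Fin (d + 1), a = (0, ⟨d - 1, by omega⟩) := ⟨_, rfl⟩
  obtain ⟨b, hb⟩ : ∃ a : Fin 2 × Fin (d + 1), a = (1, Fin.last d) := ⟨_, rfl⟩
  obtain ⟨c, hc⟩ : ∃ a : Fin 2 × Fin (d + 1), a = (1, ⟨d - 1, by omega⟩) := ⟨_, rfl⟩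
  obtain ⟨e, he⟩ : ∃ a : Fin 2 × Fin (d + 1), a = (1, ⟨d - 2, by omega⟩) := ⟨_, rfl⟩
  have h1 : (Finset.univ.filter fun x : Fin 2 × Fin (d + 1) => Fr1 d x) = ({a, b, c, e} : Finset _)ᶜ := by
    ext ⟨i, k⟩
    have hk := k.2
    rw [Finset.mem_filter, Finset.mem_compl, Finset.mem_insert, Finset.mem_insert, Finset.mem_insert,
      Finset.mem_singleton, ha, hb, hc, he]
    simp only [Finset.mem_univ, true_and, Fr1, Prod.mk.injEq, Fin.ext_iff, Fin.val_last]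
    have hi := i.2
    have h0 : ((0 : Fin 2) : ℕ) = 0 := rfl
    have h1 : ((1 : Fin 2) : ℕ) = 1 := rfl
    rw [h0, h1]
    omega
  have hab : a ∉ ({b, c, e} : Finset (Fin 2 × Fin (d + 1))) := by
    rw [Finset.mem_insert, Finset.mem_insert, Finset.mem_singleton, ha, hb, hc, he]
    simp
  have hbc : b ∉ ({c, e} : Finset (Fin 2 × Fin (d + 1))) := by
    rw [Finset.mem_insert, Finset.mem_singleton, hb, hc, he]
    simp only [Prod.mk.injEq, Fin.ext_iff, Fin.val_last]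
    omega
  have hce : c ∉ ({e} : Finset (Fin 2 × Fin (d + 1))) := by
    rw [Finset.mem_singleton, hc, he]
    simp only [Prod.mk.injEq, Fin.ext_iff]
    omega
  have h2 : ({a, b, c, e} : Finset (Fin 2 × Fin (d + 1))).card = 4 := by
    rw [Finset.card_insert_of_notMem hab, Finset.card_insert_of_notMem hbc, Finset.card_insert_of_notMem hce,
      Finset.card_singleton]
  rw [Nat.card_eq_fintype_card, Fintype.card_subtype, h1, Finset.card_compl, h2, Fintype.card_prod,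
    Fintype.card_fin, Fintype.card_fin]
  omega

private theorem R1_free (u : {x : Fin 2 × Fin (d + 1) // Fr1 d x} → ℂ) (x : {x : Fin 2 × Fin (d + 1) // Fr1 d x}) :
    ss1 u x.1 = u x := by
  rw [ss1, dif_pos x.2]

private theorem R1_inj {u u' : {x : Fin 2 × Fin (d + 1) // Fr1 d x} → ℂ} (h : ss1 u' = ss1 u) : u' = u := by
  funext x
  rw [← R1_free u x, ← R1_free u' x, h]

private theorem R1_val (hd : 2 ≤ d) (u : {x : Fin 2 × Fin (d + 1) // Fr1 d x} → ℂ) :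
    ss1 u (1, Fin.last d) = 0 ∧ ss1 u (1, ⟨d - 2, by omega⟩) = 0 ∧ ss1 u (1, ⟨d - 1, by omega⟩) = 1 ∧
      ss1 u (0, ⟨d - 1, by omega⟩) = 1 := by
  refine ⟨?_, ?_, ?_, ?_⟩
  · rw [ss1, dif_neg, if_neg]
    · show ¬(d + 1 = d)
      omega
    · intro h
      exact h.2 ⟨rfl, Or.inl rfl⟩
  · rw [ss1, dif_neg, if_neg]
    · show ¬(d - 2 + 1 = d)
      omega
    · intro h
      refine h.2 ⟨rfl, Or.inr (Or.inr ?_)⟩
      show d - 2 + 2 = d
      omega
  · rw [ss1, dif_neg, if_pos]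
    · show d - 1 + 1 = d
      omega
    · intro h
      refine h.2 ⟨rfl, Or.inr (Or.inl ?_)⟩
      show d - 1 + 1 = d
      omega
  · rw [ss1, dif_neg, if_pos]
    · show d - 1 + 1 = d
      omega
    · intro h
      refine h.1 ⟨rfl, ?_⟩
      show d - 1 + 1 = d
      omega

/-- The key computation. -/
private theorem R1_key (hd : 2 ≤ d) (F : Fin 2 × Fin (d + 1) → ℂ) (f1 : F (1, Fin.last d) = 0)
    (f2 : F (1, ⟨d - 2, by omega⟩) = 0) {A C : ℂ} (hA : F (1, ⟨d - 1, by omega⟩) = A)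
    (hC : F (0, ⟨d - 1, by omega⟩) = C) (hA0 : A ≠ 0) (hC0 : C ≠ 0) :
    (fun x => (C / A ^ 2) * ((A / C) ^ ex x * F x)) =
      ss1 (fun x : {x : Fin 2 × Fin (d + 1) // Fr1 d x} => A ^ ex x.1 * C * F x.1 / (C ^ ex x.1 * A ^ 2)) := by
  have hdm : d - 1 < d + 1 := by omega
  have hdm2 : d - 2 < d + 1 := by omega
  funext x
  obtain ⟨i, k⟩ := x
  by_cases hx : Fr1 d (i, k)
  · rw [ss1, dif_pos hx, div_pow]
    have hCe : C ^ ex (i, k) ≠ 0 := pow_ne_zero _ hC0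
    field_simp
  · obtain ⟨v1, v2, v3, v4⟩ := R1_val hd
      (fun x : {x : Fin 2 × Fin (d + 1) // Fr1 d x} => A ^ ex x.1 * C * F x.1 / (C ^ ex x.1 * A ^ 2))
    have hx' : (i = 0 ∧ (k : ℕ) + 1 = d) ∨ (i = 1 ∧ ((k : ℕ) = d ∨ (k : ℕ) + 1 = d ∨ (k : ℕ) + 2 = d)) := by
      by_contra hcon
      apply hx
      exact ⟨fun h => hcon (Or.inl h), fun h => hcon (Or.inr h)⟩
    rcases hx' with ⟨hi, hk⟩ | ⟨hi, hk | hk | hk⟩
    · have hk' : k = ⟨d - 1, hdm⟩ := Fin.ext (by show (k : ℕ) = d - 1; omega)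
      subst hi hk'
      rw [v4, hC]
      have hex : ex ((0 : Fin 2), (⟨d - 1, hdm⟩ : Fin (d + 1))) = 2 := by
        rw [ex, if_pos rfl]
        show d + 1 - (d - 1) = 2
        omega
      rw [hex]
      field_simp
    · have hk' : k = Fin.last d := Fin.ext (by show (k : ℕ) = d; omega)
      subst hi hk'
      rw [v1, f1, mul_zero, mul_zero]
    · have hk' : k = ⟨d - 1, hdm⟩ := Fin.ext (by show (k : ℕ) = d - 1; omega)
      subst hi hk'
      rw [v3, hA]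
      have hex : ex ((1 : Fin 2), (⟨d - 1, hdm⟩ : Fin (d + 1))) = 1 := by
        rw [ex, if_neg (show ¬((1 : Fin 2) = 0) from one_ne_zero)]
        show d - (d - 1) = 1
        omega
      rw [hex]
      field_simp
    · have hk' : k = ⟨d - 2, hdm2⟩ := Fin.ext (by show (k : ℕ) = d - 2; omega)
      subst hi hk'
      rw [v2, f2, mul_zero, mul_zero]

/-- The point in normal form. -/
private theorem R1_G1a (F : Fin 2 × Fin (d + 1) → ℂ) (k : Fin (d + 1)) :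
    G1a (mk F ![1, 0]) (0, k) = (-1) ^ (k : ℕ) * F (0, k) ∧
      G1a (mk F ![1, 0]) (1, k) = -((-1) ^ (k : ℕ)) * F (1, k) := by
  have e1 : g1 (mk F ![1, 0]) = !![1, 0; 0, -1] := by
    rw [g1, ptOf_mk]
    simp
  have e2 : (!![1, 0; 0, -1] : Matrix (Fin 2) (Fin 2) ℂ).adjugate = !![-1, 0; 0, 1] := by
    rw [Matrix.adjugate_fin_two_of]
    simp
  obtain ⟨h1, h2⟩ := act_diag 1 (-1) F k
  rw [G1a, e1, e2, mapOf_mk, h1, h2, one_pow, mul_one, one_mul, neg_one_mul]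
  exact ⟨rfl, rfl⟩

private theorem R1_G1 (hd : 2 ≤ d) (F : Fin 2 × Fin (d + 1) → ℂ) (f2 : F (1, ⟨d - 2, by omega⟩) = 0)
    (hA : F (1, ⟨d - 1, by omega⟩) = 1) : ∃ c : ℂ, c ≠ 0 ∧
      ∀ (i : Fin 2) (k : Fin (d + 1)), G1 hd (mk F ![1, 0]) (i, k) = c * G1a (mk F ![1, 0]) (i, k) := by
  have hm : ∀ k : ℕ, ((-1 : ℂ) ^ k) ≠ 0 := fun k => pow_ne_zero _ (by norm_num)
  obtain ⟨c, hc⟩ : ∃ c : ℂ, c = ((d : ℂ) - 1) * G1a (mk F ![1, 0]) (1, ⟨d - 1, by omega⟩) := ⟨_, rfl⟩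
  have hd1 : (d : ℂ) - 1 ≠ 0 := by
    rw [sub_ne_zero]
    exact_mod_cast (by omega : d ≠ 1)
  have hc0 : c ≠ 0 := by
    rw [hc, (R1_G1a F _).2, hA, mul_one]
    exact mul_ne_zero hd1 (neg_ne_zero.2 (hm _))
  have hB : G1a (mk F ![1, 0]) (1, ⟨d - 2, by omega⟩) = 0 := by
    rw [(R1_G1a F _).2, f2, mul_zero]
  have e1 : h1 hd (G1a (mk F ![1, 0])) = !![c, 0; 0, c] := by
    rw [h1, ← hc, hB]
  have e2 : (!![c, 0; 0, c] : Matrix (Fin 2) (Fin 2) ℂ).adjugate = !![c, 0; 0, c] := by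
    rw [Matrix.adjugate_fin_two_of]
    simp
  refine ⟨c * c ^ d, mul_ne_zero hc0 (pow_ne_zero _ hc0), ?_⟩
  intro i k
  have hk : c ^ (k : ℕ) * c ^ (d - (k : ℕ)) = c ^ d := by
    rw [← pow_add]
    congr 1
    have := k.2
    omega
  obtain ⟨h1, h2⟩ := act_diag c c (G1a (mk F ![1, 0])) k
  rw [G1, e1, e2]
  fin_cases i
  · show act !![c, 0; 0, c] !![c, 0; 0, c] (G1a (mk F ![1, 0])) (0, k) = _
    rw [h1, hk]
    rfl
  · show act !![c, 0; 0, c] !![c, 0; 0, c] (G1a (mk F ![1, 0])) (1, k) = _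
    rw [h2, hk]
    rfl

open Classical in
/-- The base point. -/
private theorem R1_base (hd : 2 ≤ d) : ∃ u : {x : Fin 2 × Fin (d + 1) // Fr1 d x} → ℂ, IsMap (ss1 u) := by
  refine ⟨fun x => if x.1 = (0, 0) ∨ x.1 = (0, Fin.last d) then 1 else 0, ?_⟩
  obtain ⟨u, hu⟩ : ∃ u : {x : Fin 2 × Fin (d + 1) // Fr1 d x} → ℂ,
      u = fun x => if x.1 = (0, 0) ∨ x.1 = (0, Fin.last d) then 1 else 0 := ⟨_, rfl⟩
  rw [← hu]
  have h0 : ∀ k : Fin (d + 1), ss1 u (0, k) = (if k = 0 then 1 else 0) + (if k = Fin.last d then 1 else 0) +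
      (if k = ⟨d - 1, by omega⟩ then 1 else 0) := by
    intro k
    have hkk := k.2
    by_cases hk : (k : ℕ) + 1 = d
    · have hk' : k = ⟨d - 1, by omega⟩ := Fin.ext (by show (k : ℕ) = d - 1; omega)
      rw [if_pos hk', if_neg, if_neg, hk', (R1_val hd u).2.2.2]
      · norm_num
      · intro h
        have := congrArg Fin.val h
        rw [Fin.val_last] at this
        omega
      · intro h
        have h3 : (k : ℕ) = 0 := by rw [h]; rfl
        omega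
    · have hfr : Fr1 d (0, k) := ⟨fun h => hk h.2, fun h => absurd h.1 (by simp)⟩
      have hk' : k ≠ ⟨d - 1, by omega⟩ := by
        intro h
        have h3 : (k : ℕ) = d - 1 := by rw [h]
        omega
      rw [if_neg hk', ss1, dif_pos hfr, hu]
      show (if ((0 : Fin 2), k) = (0, 0) ∨ ((0 : Fin 2), k) = (0, Fin.last d) then (1 : ℂ) else 0) = _
      by_cases hk0 : k = 0
      · have hkl : k ≠ Fin.last d := by
          intro h
          have h3 : (k : ℕ) = d := by rw [h]; rfl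
          have h4 : (k : ℕ) = 0 := by rw [hk0]; rfl
          omega
        rw [if_pos hk0, if_neg hkl, if_pos (Or.inl (by rw [hk0]))]
        norm_num
      · rw [if_neg hk0]
        by_cases hkl : k = Fin.last d
        · rw [if_pos hkl, if_pos (Or.inr (by rw [hkl]))]
          norm_num
        · rw [if_neg hkl, if_neg]
          · norm_num
          · rintro (h | h)
            · exact hk0 (Prod.ext_iff.1 h).2
            · exact hkl (Prod.ext_iff.1 h).2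
  have h1 : ∀ k : Fin (d + 1), ss1 u (1, k) = if k = ⟨d - 1, by omega⟩ then 1 else 0 := by
    intro k
    have hkk := k.2
    by_cases hk : (k : ℕ) + 1 = d
    · have hk' : k = ⟨d - 1, by omega⟩ := Fin.ext (by show (k : ℕ) = d - 1; omega)
      rw [if_pos hk', hk', (R1_val hd u).2.2.1]
    · have hk' : k ≠ ⟨d - 1, by omega⟩ := by
        intro h
        have h3 : (k : ℕ) = d - 1 := by rw [h]
        omega
      rw [if_neg hk', ss1]
      by_cases hfr : Fr1 d (1, k)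
      · rw [dif_pos hfr, hu]
        show (if ((1 : Fin 2), k) = (0, 0) ∨ ((1 : Fin 2), k) = (0, Fin.last d) then (1 : ℂ) else 0) = 0
        rw [if_neg]
        rintro (h | h)
        · exact absurd (Prod.ext_iff.1 h).1 (by simp)
        · exact absurd (Prod.ext_iff.1 h).1 (by simp)
      · rw [dif_neg hfr, if_neg hk]
  intro q hq happ
  have e0 : app (ss1 u) q 0 = q 1 ^ d + q 0 ^ d + q 0 ^ (d - 1) * q 1 := by
    have hdd : d - (d - 1) = 1 := by omega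
    simp only [app, h0, add_mul, ite_mul, zero_mul, one_mul, Finset.sum_add_distrib, Finset.sum_ite_eq',
      Finset.mem_univ, if_true, Fin.val_zero, Fin.val_last, pow_zero, Nat.sub_zero, Nat.sub_self, mul_one, hdd, pow_one]
  have e1 : app (ss1 u) q 1 = q 0 ^ (d - 1) * q 1 := by
    have hdd : d - (d - 1) = 1 := by omega
    simp only [app, h1, ite_mul, zero_mul, one_mul, Finset.sum_ite_eq', Finset.mem_univ, if_true, hdd, pow_one]
  have z0 : app (ss1 u) q 0 = 0 := by rw [happ]; rfl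
  have z1 : app (ss1 u) q 1 = 0 := by rw [happ]; rfl
  rw [e1] at z1
  rw [e0, z1, add_zero] at z0
  apply hq
  have hd0 : d ≠ 0 := by omega
  rcases mul_eq_zero.1 z1 with h | h
  · have h2 : q 0 = 0 := pow_eq_zero_iff (by omega : d - 1 ≠ 0) |>.1 h
    rw [h2, zero_pow hd0, add_zero] at z0
    have h3 : q 1 = 0 := (pow_eq_zero_iff hd0).1 z0
    funext i
    fin_cases i
    · exact h2
    · exact h3
  · rw [h, zero_pow hd0, zero_add] at z0
    have h3 : q 0 = 0 := (pow_eq_zero_iff hd0).1 z0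
    funext i
    fin_cases i
    · exact h3
    · exact h

private theorem R1_ss1 (x : Fin 2 × Fin (d + 1)) :
    IsPoly fun u : {x : Fin 2 × Fin (d + 1) // Fr1 d x} → ℂ => ss1 u x := by
  classical
  by_cases h : Fr1 d x
  · have : (fun u : {x : Fin 2 × Fin (d + 1) // Fr1 d x} → ℂ => ss1 u x) = fun u => u ⟨x, h⟩ := by
      funext u
      rw [ss1, dif_pos h]
    rw [this]
    exact isPoly_coord _
  · have : (fun u : {x : Fin 2 × Fin (d + 1) // Fr1 d x} → ℂ => ss1 u x) =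
        fun _ => if (x.2 : ℕ) + 1 = d then 1 else 0 := by
      funext u
      rw [ss1, dif_neg h]
    rw [this]
    exact isPoly_const _

/-- PROOF. Let `A v = G1 hd v (1, d - 1)`, `C v = G1 hd v (0, d - 1)`, `ex` as in `T0`. `N x = A ^ ex x * C * G1 v x`, `D x = C ^ ex x * A ^ 2` for free `x`;
`h v ≠ 0` iff `ptOf v 0 ≠ 0`, `G1a v (1, d - 1) ≠ 0`, `A v ≠ 0`, `C v ≠ 0`, all `D ≠ 0` and `e (N / D) ≠ 0` (`clear_den`, times polynomials); `s (inl x) = ss1 x`, `s (inr i) = ![1, 0] i`. `e` is the polynomial of `ρ (ss1 u)`, `ρ` from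
`exists_rho` for `ss1 u₀`, where `u₀ (0, 0) = u₀ (0, d) = 1` and all other `u₀ = 0`: the pair `(x^d + x^(d-1) y + y^d, x^(d-1) y)` is a map (`d ≥ 2`).
The key computation: for `F` with `F (1, d) = F (1, d-2) = 0`, `A = F (1, d-1) ≠ 0`, `C = F (0, d-1) ≠ 0`, put `t = A / C`, `c = 1 / (t A)`; then
`(fun x => c * (t ^ ex x * F x)) = ss1 (fun x => A ^ ex x * C * F x / (C ^ ex x * A ^ 2))` (`ex (1, d-1) = 1`, `ex (0, d - 1) = 2`), and it is conjugate to `F` (`conj_torus`).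
(0) `e u ≠ 0`: `v = mk (ss1 u) ![1, 0] ∈ Marked d 1` (`marked1`). Here `g1 v = !![1, 0; 0, -1]`, adjugate `!![-1, 0; 0, 1]`, so `G1a v x = ± ss1 u x` (`act_diag` with `a = 1`, `b = -1`); in particular
`G1a v (1, d - 2) = 0`, `G1a v (1, d - 1) ≠ 0`, `G1a v (0, d - 1) ≠ 0`; `h1 = !![c, 0; 0, c]` with `c ≠ 0` and `G1 v` is a nonzero multiple of `G1a v` (`act_diag`, `a = b = c`). So `h v ≠ 0` up to the condition on `e`. `mk (G1 v) ![1, 0]` is conjugate to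
`mk (ss1 u') ![1, 0]`, `u' = N / D` at `v`, and `rigid1` gives `ss1 u' = ss1 u`, `u' = u`.
(1) `v ∈ Marked`, `h v ≠ 0`: `normalise1` and the key computation, `Conj.trans`. (2) If `Conj v v'`, both in `Marked`, both `h ≠ 0`: `rigid1` for `ss1 (N/D)` at `v` and at `v'`.
Irreducibility: `irred_marked1`. -/
theorem ratQuot1 (hd : 2 ≤ d) : RatQuot (Marked d 1) Conj {x : Fin 2 × Fin (d + 1) // Fr1 d x} := by
  have hd1 : 1 ≤ d := by omega
  obtain ⟨u₀, hu₀⟩ := R1_base hd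
  obtain ⟨ρ, hρ, hρ1, hρ2⟩ := exists_rho hd1 (ss1 u₀) hu₀
  obtain ⟨a1, ha1⟩ : ∃ φ : (Coord d → ℂ) → ℂ, φ = fun v => G1a v (1, ⟨d - 1, by omega⟩) := ⟨_, rfl⟩
  obtain ⟨AA, hAA⟩ : ∃ φ : (Coord d → ℂ) → ℂ, φ = fun v => G1 hd v (1, ⟨d - 1, by omega⟩) := ⟨_, rfl⟩
  obtain ⟨CC, hCC⟩ : ∃ φ : (Coord d → ℂ) → ℂ, φ = fun v => G1 hd v (0, ⟨d - 1, by omega⟩) := ⟨_, rfl⟩
  obtain ⟨GG, hGG⟩ : ∃ φ : (Coord d → ℂ) → Fin 2 × Fin (d + 1) → ℂ, φ = fun v => G1 hd v := ⟨_, rfl⟩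
  obtain ⟨P0, hP0⟩ : ∃ φ : (Coord d → ℂ) → ℂ, φ = fun v => ptOf v 0 := ⟨_, rfl⟩
  have pa1 : IsPoly a1 := by rw [ha1]; exact isPoly_G1a _
  have pAA : IsPoly AA := by rw [hAA]; exact isPoly_G1 hd _
  have pCC : IsPoly CC := by rw [hCC]; exact isPoly_G1 hd _
  have pGG : ∀ x, IsPoly fun v => GG v x := by intro x; rw [hGG]; exact isPoly_G1 hd x
  have pP0 : IsPoly P0 := by rw [hP0]; exact isPoly_coord (Sum.inr 0)
  -- every good point is conjugate to its normal form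
  have key : ∀ v ∈ Marked d 1, P0 v * a1 v * AA v * CC v ≠ 0 →
      Conj v (mk (ss1 (fun x : {x : Fin 2 × Fin (d + 1) // Fr1 d x} =>
        AA v ^ ex x.1 * CC v * GG v x.1 / (CC v ^ ex x.1 * AA v ^ 2))) ![1, 0]) := by
    intro v hv h0
    obtain ⟨h0a, hC⟩ := mul_ne_zero_iff.1 h0
    obtain ⟨h0b, hA⟩ := mul_ne_zero_iff.1 h0a
    obtain ⟨h0c, hA1⟩ := mul_ne_zero_iff.1 h0b
    rw [ha1] at hA1
    rw [hP0] at h0c
    obtain ⟨-, f1, f2, -, hconj⟩ := normalise1 hd hv h0c hA1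
    have e1 : G1 hd v (1, ⟨d - 1, by omega⟩) = AA v := by rw [hAA]
    have e2 : G1 hd v (0, ⟨d - 1, by omega⟩) = CC v := by rw [hCC]
    have e3 : G1 hd v = GG v := by rw [hGG]
    rw [e3] at f1 f2 hconj e1 e2
    rw [← R1_key hd (GG v) f1 f2 e1 e2 hA hC]
    exact hconj.trans (conj_torus _ _ (div_ne_zero hA hC) (div_ne_zero hC (pow_ne_zero 2 hA)) _)
  have hrig : ∀ u u' : {x : Fin 2 × Fin (d + 1) // Fr1 d x} → ℂ,
      Conj (mk (ss1 u) ![1, 0]) (mk (ss1 u') ![1, 0]) → u' = u := by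
    intro u u' h
    obtain ⟨a1, a2, a3, a4⟩ := R1_val hd u
    obtain ⟨b1, b2, b3, b4⟩ := R1_val hd u'
    exact R1_inj (rigid1 hd h a1 a2 a3 a4 b1 b2 b3 b4)
  have hsec : ∀ u : {x : Fin 2 × Fin (d + 1) // Fr1 d x} → ℂ, IsMap (ss1 u) →
      mk (ss1 u) ![1, 0] ∈ Marked d 1 ∧
      P0 (mk (ss1 u) ![1, 0]) * a1 (mk (ss1 u) ![1, 0]) * AA (mk (ss1 u) ![1, 0]) * CC (mk (ss1 u) ![1, 0]) ≠ 0 := by
    intro u hmap
    obtain ⟨v1, v2, v3, v4⟩ := R1_val hd u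
    refine ⟨marked1 hmap v1, ?_⟩
    obtain ⟨c, hc, hG⟩ := R1_G1 hd (ss1 u) v2 v3
    have hm : ∀ k : ℕ, ((-1 : ℂ) ^ k) ≠ 0 := fun k => pow_ne_zero _ (by norm_num)
    have hA1 : G1a (mk (ss1 u) ![1, 0]) (1, ⟨d - 1, by omega⟩) ≠ 0 := by
      rw [(R1_G1a (ss1 u) _).2, v3, mul_one]
      exact neg_ne_zero.2 (hm _)
    have hC1 : G1a (mk (ss1 u) ![1, 0]) (0, ⟨d - 1, by omega⟩) ≠ 0 := by
      rw [(R1_G1a (ss1 u) _).1, v4, mul_one]
      exact hm _
    have hA : G1 hd (mk (ss1 u) ![1, 0]) (1, ⟨d - 1, by omega⟩) ≠ 0 := by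
      rw [hG]
      exact mul_ne_zero hc hA1
    have hC : G1 hd (mk (ss1 u) ![1, 0]) (0, ⟨d - 1, by omega⟩) ≠ 0 := by
      rw [hG]
      exact mul_ne_zero hc hC1
    refine mul_ne_zero (mul_ne_zero (mul_ne_zero ?_ ?_) ?_) ?_
    · rw [hP0]
      show ptOf (mk (ss1 u) ![1, 0]) 0 ≠ 0
      rw [ptOf_mk]
      exact one_ne_zero
    · rw [ha1]
      exact hA1
    · rw [hAA]
      exact hA
    · rw [hCC]
      exact hC
  clear ha1 hAA hCC hGG hP0
  refine ratQuot_of (A := fun v => P0 v * a1 v * AA v * CC v)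
    (N := fun x v => AA v ^ ex x.1 * CC v * GG v x.1)
    (D := fun x v => CC v ^ ex x.1 * AA v ^ 2)
    (s := fun u => mk (ss1 u) ![1, 0]) (E := fun u => ρ (ss1 u))
    (irred_marked1 hd1)
    (isPoly_mul (isPoly_mul (isPoly_mul pP0 pa1) pAA) pCC)
    (fun x => isPoly_mul (isPoly_mul (isPoly_pow pAA _) pCC) (pGG _))
    (fun x => isPoly_mul (isPoly_pow pCC _) (isPoly_pow pAA _))
    ?_ (isPoly_comp hρ R1_ss1) ⟨u₀, hρ1⟩ ?_ ?_ ?_
  · rintro (x | i)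
    · exact R1_ss1 x
    · exact isPoly_const _
  · intro v hv h0 _ _
    exact key v hv h0
  · intro v hv v' hv' hR h0 h0' _ _ _ _ j
    have h1 := key v hv h0
    have h2 := key v' hv' h0'
    have h3 := hrig _ _ ((h1.symm.trans hR).trans h2)
    exact congrFun h3 j
  · intro u hu
    have hmap : IsMap (ss1 u) := hρ2 _ hu
    obtain ⟨hV, h0⟩ := hsec u hmap
    obtain ⟨h0a, hC⟩ := mul_ne_zero_iff.1 h0
    obtain ⟨h0b, hA⟩ := mul_ne_zero_iff.1 h0a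
    refine ⟨hV, h0, fun x => mul_ne_zero (pow_ne_zero _ hC) (pow_ne_zero 2 hA), fun x => ?_⟩
    exact congrFun (hrig _ _ (key _ hV h0)) x

end

end Pool.Agent.Lib.H90M
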