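import Pool.Agent.Lib.H90M.T0

/-!
# S1 (M/L): normal form for `n = 1`
-/

namespace Pool.Agent.Lib.H90M

open MvPolynomial

noncomputable section

variable {d : ℕ}

/-- The matrix which maps the marked point to `∞` (if its first coordinate is not zero). -/
def g1 (v : Coord d → ℂ) : Matrix (Fin 2) (Fin 2) ℂ := !![1, 0; ptOf v 1, -(ptOf v 0)]

/-- The map with the marked point at `∞`. -/
def G1a (v : Coord d → ℂ) : Fin 2 × Fin (d + 1) → ℂ := act (g1 v) (g1 v).adjugate (mapOf v)

/-- The translation which centres the finite preimages of `∞`. -/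
def h1 (hd : 2 ≤ d) (F : Fin 2 × Fin (d + 1) → ℂ) : Matrix (Fin 2) (Fin 2) ℂ :=
  !![((d : ℂ) - 1) * F (1, ⟨d - 1, by omega⟩), F (1, ⟨d - 2, by omega⟩); 0, ((d : ℂ) - 1) * F (1, ⟨d - 1, by omega⟩)]

/-- The centred map. -/
def G1 (hd : 2 ≤ d) (v : Coord d → ℂ) : Fin 2 × Fin (d + 1) → ℂ :=
  act (h1 hd (G1a v)) (h1 hd (G1a v)).adjugate (G1a v)

theorem isPoly_G1a (x : Fin 2 × Fin (d + 1)) : IsPoly (fun v : Coord d → ℂ => G1a v x) := by
  have hg : ∀ i j, IsPoly fun v : Coord d → ℂ => g1 v i j := by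
    intro i j
    fin_cases i <;> fin_cases j
    · exact isPoly_const 1
    · exact isPoly_const 0
    · exact isPoly_coord (Sum.inr 1)
    · exact isPoly_neg (isPoly_coord (Sum.inr 0))
  exact isPoly_act hg (isPoly_adj hg) (fun x => isPoly_coord (Sum.inl x)) x

theorem isPoly_G1 (hd : 2 ≤ d) (x : Fin 2 × Fin (d + 1)) : IsPoly (fun v : Coord d → ℂ => G1 hd v x) := by
  have hg : ∀ i j, IsPoly fun v : Coord d → ℂ => h1 hd (G1a v) i j := by
    intro i j
    fin_cases i <;> fin_cases j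
    · exact isPoly_mul (isPoly_const ((d : ℂ) - 1)) (isPoly_G1a (1, ⟨d - 1, by omega⟩))
    · exact isPoly_G1a (1, ⟨d - 2, by omega⟩)
    · exact isPoly_const 0
    · exact isPoly_mul (isPoly_const ((d : ℂ) - 1)) (isPoly_G1a (1, ⟨d - 1, by omega⟩))
  exact isPoly_act hg (isPoly_adj hg) isPoly_G1a x

/-- PROOF. `IsMap`, and `app F ![1, 0] = ![F (0, d), 0]` is a nonzero multiple of `![1, 0]`. -/
theorem marked1 {F : Fin 2 × Fin (d + 1) → ℂ} (hF : IsMap F) (h0 : F (1, Fin.last d) = 0) : mk F ![1, 0] ∈ Marked d 1 := by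
  refine ⟨by rw [mapOf_mk]; exact hF, ?_⟩
  rw [mapOf_mk, ptOf_mk]
  refine ⟨fun h => one_ne_zero (congrFun h 0), ?_, fun m h1 h2 => by omega⟩
  rw [Function.iterate_one, (app_axes F).1]
  simp [wd, h0]

private theorem S1_marked {F : Fin 2 × Fin (d + 1) → ℂ} (h : mk F ![1, 0] ∈ Marked d 1) :
    IsMap F ∧ F (1, Fin.last d) = 0 := by
  obtain ⟨hm, hp⟩ := h
  rw [mapOf_mk] at hm hp
  rw [ptOf_mk] at hp
  refine ⟨hm, ?_⟩
  have := hp.2.1
  rw [Function.iterate_one, (app_axes F).1] at this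
  simpa [wd] using this

/-- PROOF. `irred_marked` with `𝒩 = {F | IsMap F ∧ F (1, d) = 0}` (`irred_coord`; not empty: `F = (x^d, y^d)`), `Φ = id`. For `v ∈ Marked d 1`, `p = ptOf v ≠ 0`, take an
invertible `g` with `g p = ![1, 0]` (if `p 0 ≠ 0`: `!![1 / p 0, 0; p 1, -p 0]`; otherwise `!![0, 1 / p 1; 1, 0]`), `F = act g adj g (mapOf v)`, `conj_act`; `F (1, d) = 0` since `f p ∥ p`. -/
theorem irred_marked1 (hd : 1 ≤ d) : Irred (Marked d 1) := by
  have hir := irred_coord hd {((1 : Fin 2), Fin.last d)} (by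
    refine ⟨fun x => if x.1 = 0 then (if x.2 = Fin.last d then 1 else 0) else (if x.2 = 0 then 1 else 0), ?_, ?_⟩
    · intro q hq h
      apply hq
      have e0 : q 0 ^ d = 0 := by
        have := congrFun h 0
        simpa [app] using this
      have e1 : q 1 ^ d = 0 := by
        have := congrFun h 1
        simpa [app] using this
      funext i
      fin_cases i
      · exact pow_eq_zero_iff (by omega) |>.1 e0
      · exact pow_eq_zero_iff (by omega) |>.1 e1
    · intro x hx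
      rw [Set.mem_singleton_iff] at hx
      subst hx
      have : Fin.last d ≠ 0 := by
        intro h
        have := congrArg Fin.val h
        simp at this
        omega
      simp [this])
  refine irred_marked _ hir (fun F => F) (fun x => isPoly_coord x) ?_ ?_
  · intro F hF
    exact marked1 hF.1 (hF.2 _ rfl)
  · intro v hv
    have hp : ptOf v ≠ 0 := hv.2.1
    obtain ⟨g, hg, hgp⟩ : ∃ g : Matrix (Fin 2) (Fin 2) ℂ, g.det ≠ 0 ∧ g.mulVec (ptOf v) = ![1, 0] := by
      by_cases h0 : ptOf v 0 = 0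
      · have h1 : ptOf v 1 ≠ 0 := by
          intro h1
          apply hp
          funext i
          fin_cases i
          · exact h0
          · exact h1
        refine ⟨!![0, 1 / ptOf v 1; 1, 0], ?_, ?_⟩
        · rw [Matrix.det_fin_two_of]
          simpa using h1
        · funext i
          fin_cases i
          · simp [Matrix.mulVec, dotProduct, h1]
          · simp [Matrix.mulVec, dotProduct, h0]
      · refine ⟨!![1 / ptOf v 0, 0; ptOf v 1, -(ptOf v 0)], ?_, ?_⟩
        · rw [Matrix.det_fin_two_of]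
          field_simp
          simp
        · funext i
          fin_cases i
          · simp [Matrix.mulVec, dotProduct, h0]
          · simp [Matrix.mulVec, dotProduct]
            ring
    have hc := conj_act g hg (mapOf v) (ptOf v)
    rw [mk_eq, hgp] at hc
    have hm := S1_marked (marked_conj hc hv)
    refine ⟨_, ⟨hm.1, ?_⟩, hc.symm⟩
    intro x hx
    rw [Set.mem_singleton_iff] at hx
    subst hx
    exact hm.2

/-- PROOF. `app (G1a v) (g q) = det^d • g (f q)`, `g1 v p = (p 0, 0)`, and `f p ∥ p`. -/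
theorem normalise1a {v : Coord d → ℂ} (hv : v ∈ Marked d 1) (h0 : ptOf v 0 ≠ 0) : IsMap (G1a v) ∧
    G1a v (1, Fin.last d) = 0 ∧ Conj v (mk (G1a v) ![1, 0]) := by
  have hg : (g1 v).det ≠ 0 := by
    rw [g1, Matrix.det_fin_two_of]
    simpa using h0
  have hc := conj_act (g1 v) hg (mapOf v) (ptOf v)
  rw [mk_eq] at hc
  have hp : (g1 v).mulVec (ptOf v) = ptOf v 0 • ![1, 0] := by
    funext i
    fin_cases i
    · simp [g1, Matrix.mulVec, dotProduct]
    · simp [g1, Matrix.mulVec, dotProduct]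
      ring
  have hc2 := conj_smul (act (g1 v) (g1 v).adjugate (mapOf v)) (ptOf v 0 • ![1, 0]) (μ := 1)
    (l := (ptOf v 0)⁻¹) one_ne_zero (inv_ne_zero h0)
  rw [one_smul, smul_smul, inv_mul_cancel₀ h0, one_smul] at hc2
  rw [hp] at hc
  have hc3 : Conj v (mk (G1a v) ![1, 0]) := hc.trans hc2
  have hm := S1_marked (marked_conj hc3 hv)
  exact ⟨hm.1, hm.2, hc3⟩

private theorem S1_coeff_pow (a b : ℂ) (k m : ℕ) :
    ((Polynomial.C a * Polynomial.X + Polynomial.C b) ^ k).coeff m = b ^ (k - m) * (k.choose m : ℂ) * a ^ m := by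
  have : (Polynomial.C a * Polynomial.X + Polynomial.C b) ^ k =
      ((Polynomial.X + Polynomial.C b) ^ k).comp (Polynomial.C a * Polynomial.X) := by
    simp
  rw [this, Polynomial.comp_C_mul_X_coeff, Polynomial.coeff_X_add_C_pow]

/-- Comparison of coefficients. -/
private theorem S1_coeff (F : Fin 2 × Fin (d + 1) → ℂ) (i : Fin 2) (a b c : ℂ) (G : Fin (d + 1) → ℂ)
    (h : ∀ x : ℂ, app F ![a * x + b, c] i = ∑ k : Fin (d + 1), G k * x ^ (k : ℕ)) (m : Fin (d + 1)) :
    G m = ∑ k : Fin (d + 1), F (i, k) * c ^ (d - (k : ℕ)) * (b ^ ((k : ℕ) - (m : ℕ)) * ((k : ℕ).choose m : ℂ) * a ^ (m : ℕ)) := by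
  have key : (∑ k : Fin (d + 1), Polynomial.C (F (i, k) * c ^ (d - (k : ℕ))) *
      (Polynomial.C a * Polynomial.X + Polynomial.C b) ^ (k : ℕ)) =
      ∑ k : Fin (d + 1), Polynomial.C (G k) * Polynomial.X ^ (k : ℕ) := by
    apply Polynomial.funext
    intro x
    have := h x
    simp only [app, Matrix.cons_val_zero, Matrix.cons_val_one] at this
    rw [Polynomial.eval_finsetSum, Polynomial.eval_finsetSum]
    simp only [Polynomial.eval_mul, Polynomial.eval_C, Polynomial.eval_pow, Polynomial.eval_add, Polynomial.eval_X]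
    rw [← this]
    exact Finset.sum_congr rfl fun k _ => by ring
  have h2 := congrArg (fun P => Polynomial.coeff P (m : ℕ)) key
  simp only [Polynomial.finsetSum_coeff, Polynomial.coeff_C_mul, S1_coeff_pow, Polynomial.coeff_X_pow] at h2
  rw [h2]
  rw [Finset.sum_eq_single m]
  · simp
  · intro k _ hk
    rw [if_neg, mul_zero]
    intro h
    exact hk (Fin.ext h.symm)
  · intro h
    exact absurd (Finset.mem_univ m) h

private theorem S1_top (F : Fin 2 × Fin (d + 1) → ℂ) (i : Fin 2) (a b c : ℂ) (G : Fin (d + 1) → ℂ)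
    (h : ∀ x : ℂ, app F ![a * x + b, c] i = ∑ k : Fin (d + 1), G k * x ^ (k : ℕ)) :
    G (Fin.last d) = F (i, Fin.last d) * a ^ d := by
  rw [S1_coeff F i a b c G h (Fin.last d), Finset.sum_eq_single (Fin.last d)]
  · simp
  · intro k _ hk
    rw [Nat.choose_eq_zero_of_lt, Nat.cast_zero]
    · ring
    · exact lt_of_le_of_ne (Nat.lt_succ_iff.1 k.2) fun h => hk (Fin.ext h)
  · intro h
    exact absurd (Finset.mem_univ _) h

private theorem S1_next (hd : 2 ≤ d) (F : Fin 2 × Fin (d + 1) → ℂ) (i : Fin 2) (a b c : ℂ) (G : Fin (d + 1) → ℂ)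
    (h : ∀ x : ℂ, app F ![a * x + b, c] i = ∑ k : Fin (d + 1), G k * x ^ (k : ℕ))
    (h0 : F (i, Fin.last d) * b = 0) :
    G ⟨d - 1, by omega⟩ = F (i, ⟨d - 1, by omega⟩) * c * a ^ (d - 1) := by
  rw [S1_coeff F i a b c G h ⟨d - 1, by omega⟩, Finset.sum_eq_single ⟨d - 1, by omega⟩]
  · have : d - (d - 1) = 1 := by omega
    simp [this]
  · intro k _ hk
    rcases lt_or_ge (k : ℕ) (d - 1) with h1 | h1
    · rw [Nat.choose_eq_zero_of_lt, Nat.cast_zero]
      · ring
      · exact h1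
    · have h2 : (k : ℕ) ≠ d - 1 := fun h => hk (Fin.ext h)
      have h3 : k = Fin.last d := Fin.ext (by
        have := k.2
        simp only [Fin.val_last]
        omega)
      subst h3
      have : d - (d - 1) = 1 := by omega
      simp only [Fin.val_last, this, pow_one]
      linear_combination (c ^ (d - d) * (((d.choose (d - 1) : ℕ) : ℂ) * a ^ (d - 1))) * h0
  · intro h
    exact absurd (Finset.mem_univ _) h

private theorem S1_third (hd : 2 ≤ d) (F : Fin 2 × Fin (d + 1) → ℂ) (i : Fin 2) (a b c : ℂ) (G : Fin (d + 1) → ℂ)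
    (h : ∀ x : ℂ, app F ![a * x + b, c] i = ∑ k : Fin (d + 1), G k * x ^ (k : ℕ))
    (h0 : F (i, Fin.last d) = 0) :
    G ⟨d - 2, by omega⟩ = F (i, ⟨d - 2, by omega⟩) * c ^ 2 * a ^ (d - 2) +
      F (i, ⟨d - 1, by omega⟩) * c * (b * ((d : ℂ) - 1) * a ^ (d - 2)) := by
  rw [S1_coeff F i a b c G h ⟨d - 2, by omega⟩,
    Fintype.sum_eq_add (⟨d - 2, by omega⟩ : Fin (d + 1)) ⟨d - 1, by omega⟩]
  · have e1 : d - (d - 2) = 2 := by omega
    have e2 : d - (d - 1) = 1 := by omega
    have e3 : d - 1 - (d - 2) = 1 := by omega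
    have e4 : (d - 1).choose (d - 2) = d - 1 := by
      have : d - 1 = (d - 2) + 1 := by omega
      rw [this, Nat.choose_succ_self_right]
    have e5 : ((d - 1 : ℕ) : ℂ) = (d : ℂ) - 1 := by
      rw [Nat.cast_sub (by omega), Nat.cast_one]
    simp [e1, e2, e3, e4, e5]
  · intro h
    have := congrArg Fin.val h
    simp only at this
    omega
  · intro k hk
    rcases lt_or_ge (k : ℕ) (d - 2) with h1 | h1
    · rw [Nat.choose_eq_zero_of_lt, Nat.cast_zero]
      · ring
      · exact h1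
    · have h2 : (k : ℕ) ≠ d - 2 := fun h => hk.1 (Fin.ext h)
      have h4 : (k : ℕ) ≠ d - 1 := fun h => hk.2 (Fin.ext h)
      have h3 : k = Fin.last d := Fin.ext (by
        have := k.2
        simp only [Fin.val_last]
        omega)
      subst h3
      rw [h0]
      ring

/-- The second form after the translation. PROOF. Let `A = F (1, d-1)`, `c = (d - 1) A`, `B = F (1, d - 2)`, `h1 = !![c, B; 0, c]`, adjugate `!![c, -B; 0, c]`. The second form of `act` is
`c F₁(c x - B y, c y)` with `F₁(x, y) = A x^(d-1) y + B x^(d-2) y² + ...` (`F (1, d) = 0`). At `y = 1` it is a polynomial in `x` whose coefficients of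
`x^d, x^(d-1), x^(d-2)` are `0`, `c * A * c^(d-1) * c`, `c * (A * (d - 1) * c^(d-2) * (-B) * c + B * c^(d-2) * c^2) = 0`. (Write the sum over `k` as
polynomials: `∑ k, C (F (1, k)) * (C c * X - C B)^k * C c^(d-k)`, only `k = d - 1` and `k = d - 2` contribute to the coefficients of `X^(d-1)`, `X^(d-2)`;
`Polynomial.coeff_X_add_C_pow` or `natDegree_pow_le` for the others.) -/
theorem centre (hd : 2 ≤ d) (F : Fin 2 × Fin (d + 1) → ℂ) (h0 : F (1, Fin.last d) = 0) :
    act (h1 hd F) (h1 hd F).adjugate F (1, Fin.last d) = 0 ∧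
    act (h1 hd F) (h1 hd F).adjugate F (1, ⟨d - 2, by omega⟩) = 0 ∧
    act (h1 hd F) (h1 hd F).adjugate F (1, ⟨d - 1, by omega⟩) =
      (((d : ℂ) - 1) * F (1, ⟨d - 1, by omega⟩)) ^ (d + 1) * F (1, ⟨d - 1, by omega⟩) := by
  set A : ℂ := F (1, ⟨d - 1, by omega⟩) with hA
  set B : ℂ := F (1, ⟨d - 2, by omega⟩) with hB
  set c : ℂ := ((d : ℂ) - 1) * A with hc
  have hh : h1 hd F = !![c, B; 0, c] := rfl
  set G := act (h1 hd F) (h1 hd F).adjugate F with hG
  have hadj : (h1 hd F).adjugate = !![c, -B; 0, c] := by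
    rw [hh, Matrix.adjugate_fin_two_of]
    simp
  by_cases hc0 : c = 0
  · -- everything vanishes
    have hz : ∀ x : ℂ, app G ![x, 1] 1 = 0 := by
      intro x
      rw [hG, act_app, hh]
      simp [Matrix.mulVec, dotProduct, hc0]
    have hall : ∀ k, G (1, k) = 0 := by
      intro k
      have := S1_coeff (fun _ => 0) 1 1 0 0 (fun k => G (1, k)) (by
        intro x
        have h := hz x
        rw [app_one] at h
        rw [h]
        simp [app]) k
      rw [this]
      simp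
    refine ⟨hall _, hall _, ?_⟩
    rw [hall, hc0]
    ring
  · have key : ∀ x : ℂ, app F ![c * x + (-B), c] 1 = ∑ k : Fin (d + 1), (c⁻¹ * G (1, k)) * x ^ (k : ℕ) := by
      intro x
      have e : ∑ k : Fin (d + 1), (c⁻¹ * G (1, k)) * x ^ (k : ℕ) = c⁻¹ * app G ![x, 1] 1 := by
        rw [app_one, Finset.mul_sum]
        exact Finset.sum_congr rfl fun k _ => by ring
      have e2 : (h1 hd F).adjugate.mulVec ![x, 1] = ![c * x + (-B), c] := by
        rw [hadj]
        funext i
        fin_cases i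
        · simp [Matrix.mulVec, dotProduct]
        · simp [Matrix.mulVec, dotProduct]
      rw [e, hG, act_app, e2, hh]
      simp only [Matrix.mulVec, dotProduct, Fin.sum_univ_two, Matrix.of_apply, Matrix.cons_val_one, Matrix.cons_val_zero,
        zero_mul, zero_add]
      rw [← mul_assoc, inv_mul_cancel₀ hc0, one_mul]
    have k1 := S1_top F 1 c (-B) c _ key
    have k2 := S1_next hd F 1 c (-B) c _ key (by rw [h0, zero_mul])
    have k3 := S1_third hd F 1 c (-B) c _ key h0
    simp only at k1 k2 k3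
    rw [← hA] at k2 k3
    rw [← hB] at k3
    refine ⟨?_, ?_, ?_⟩
    · rw [h0, zero_mul] at k1
      exact (mul_eq_zero.1 k1).resolve_left (inv_ne_zero hc0)
    · have : B * c ^ 2 * c ^ (d - 2) + A * c * (-B * ((d : ℂ) - 1) * c ^ (d - 2)) = 0 := by
        rw [hc]
        ring
      rw [this] at k3
      exact (mul_eq_zero.1 k3).resolve_left (inv_ne_zero hc0)
    · have e : G (1, ⟨d - 1, by omega⟩) = c * (c⁻¹ * G (1, ⟨d - 1, by omega⟩)) := by
        rw [← mul_assoc, mul_inv_cancel₀ hc0, one_mul]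
      rw [e, k2]
      have e2 : c ^ (d + 1) = c * c * c ^ (d - 1) := by
        rw [← pow_two, ← pow_add]
        congr 1
        omega
      rw [e2]
      ring

/-- PROOF. `normalise1a`, `centre`, `conj_act`, `conj_smul`. -/
theorem normalise1 (hd : 2 ≤ d) {v : Coord d → ℂ} (hv : v ∈ Marked d 1) (h0 : ptOf v 0 ≠ 0)
    (hA : G1a v (1, ⟨d - 1, by omega⟩) ≠ 0) : IsMap (G1 hd v) ∧
    G1 hd v (1, Fin.last d) = 0 ∧ G1 hd v (1, ⟨d - 2, by omega⟩) = 0 ∧ G1 hd v (1, ⟨d - 1, by omega⟩) ≠ 0 ∧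
    Conj v (mk (G1 hd v) ![1, 0]) := by
  obtain ⟨hm, h1', hc⟩ := normalise1a hv h0
  obtain ⟨c1, c2, c3⟩ := centre hd (G1a v) h1'
  have hd1 : (d : ℂ) - 1 ≠ 0 := by
    intro h
    have : (d : ℂ) = ((1 : ℕ) : ℂ) := by
      rw [Nat.cast_one]
      linear_combination h
    have := Nat.cast_injective this
    omega
  have hcc : ((d : ℂ) - 1) * G1a v (1, ⟨d - 1, by omega⟩) ≠ 0 := mul_ne_zero hd1 hA
  have hg : (h1 hd (G1a v)).det ≠ 0 := by
    rw [h1, Matrix.det_fin_two_of, mul_zero, sub_zero]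
    exact mul_ne_zero hcc hcc
  have hc2 := conj_act (h1 hd (G1a v)) hg (G1a v) ![1, 0]
  have hp : (h1 hd (G1a v)).mulVec ![1, 0] = (((d : ℂ) - 1) * G1a v (1, ⟨d - 1, by omega⟩)) • ![1, 0] := by
    funext i
    fin_cases i
    · simp [h1, Matrix.mulVec, dotProduct]
    · simp [h1, Matrix.mulVec, dotProduct]
  rw [hp] at hc2
  have hc3 := conj_smul (act (h1 hd (G1a v)) (h1 hd (G1a v)).adjugate (G1a v))
    ((((d : ℂ) - 1) * G1a v (1, ⟨d - 1, by omega⟩)) • ![1, 0]) (μ := 1)
    (l := (((d : ℂ) - 1) * G1a v (1, ⟨d - 1, by omega⟩))⁻¹) one_ne_zero (inv_ne_zero hcc)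
  rw [one_smul, smul_smul, inv_mul_cancel₀ hcc, one_smul] at hc3
  have hc4 : Conj (mk (G1a v) ![1, 0]) (mk (G1 hd v) ![1, 0]) := hc2.trans hc3
  have hc5 := hc.trans hc4
  have hmm := S1_marked (marked_conj hc5 hv)
  refine ⟨hmm.1, c1, c2, ?_, hc5⟩
  change act (h1 hd (G1a v)) (h1 hd (G1a v)).adjugate (G1a v) (1, ⟨d - 1, by omega⟩) ≠ 0
  rw [c3]
  exact mul_ne_zero (pow_ne_zero _ hcc) hA

/-- Rigidity. PROOF. `conj_inf`: `app F' ![a x + b y, c y] 1 = l c app F ![x, y] 1`. At `y = 1` this is an identity of polynomials in `x`, with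
`F₁' = x^(d-1) + 0 x^(d-2) + ...`, `F₁ = x^(d-1) + 0 x^(d-2) + ...` (at `y = 1`; for the left side at `y = 1`: `∑ k, F' (1, k) (a x + b)^k c^(d-k)`): the coefficients of `x^(d-1)`:
`a^(d-1) c = l c`; of `x^(d-2)`: `(d-1) a^(d-2) b c = 0`, so `b = 0`. First component: coefficient of `x^(d-1)` at `y = 1`: `a^(d-1) c = l a`. So `l = a^(d-1)`, `c = a`, and
`a^d • app F' q = (l a) • app F q`, `F' = F` (`app_ext`). -/
theorem rigid1 (hd : 2 ≤ d) {F F' : Fin 2 × Fin (d + 1) → ℂ} (h : Conj (mk F ![1, 0]) (mk F' ![1, 0]))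
    (a1 : F (1, Fin.last d) = 0) (a2 : F (1, ⟨d - 2, by omega⟩) = 0) (a3 : F (1, ⟨d - 1, by omega⟩) = 1)
    (a4 : F (0, ⟨d - 1, by omega⟩) = 1)
    (b1 : F' (1, Fin.last d) = 0) (b2 : F' (1, ⟨d - 2, by omega⟩) = 0) (b3 : F' (1, ⟨d - 1, by omega⟩) = 1)
    (b4 : F' (0, ⟨d - 1, by omega⟩) = 1) : F' = F := by
  obtain ⟨a, b, c, l, ha, hc, hl, hh⟩ := conj_inf h
  have hd1 : (d : ℂ) - 1 ≠ 0 := by
    intro h
    have : (d : ℂ) = ((1 : ℕ) : ℂ) := by
      rw [Nat.cast_one]
      linear_combination h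
    have := Nat.cast_injective this
    omega
  have key1 : ∀ x : ℂ, app F' ![a * x + b, c] 1 = ∑ k : Fin (d + 1), (l * c * F (1, k)) * x ^ (k : ℕ) := by
    intro x
    have := congrFun (hh x 1) 1
    simp only [mul_one, Matrix.cons_val_one, Matrix.cons_val_zero] at this
    rw [this, app_one, Finset.mul_sum, Finset.mul_sum]
    exact Finset.sum_congr rfl fun k _ => by ring
  have k2 := S1_next hd F' 1 a b c _ key1 (by rw [b1, zero_mul])
  have k3 := S1_third hd F' 1 a b c _ key1 b1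
  simp only [a3, b3, a2, b2] at k2 k3
  have hb : b = 0 := by
    have : c * ((d : ℂ) - 1) * a ^ (d - 2) * b = 0 := by linear_combination -k3
    exact (mul_eq_zero.1 this).resolve_left (mul_ne_zero (mul_ne_zero hc hd1) (pow_ne_zero _ ha))
  have hl' : l = a ^ (d - 1) := by
    have : c * (l - a ^ (d - 1)) = 0 := by linear_combination k2
    have := (mul_eq_zero.1 this).resolve_left hc
    linear_combination this
  subst hb
  have key0 : ∀ x : ℂ, app F' ![a * x + 0, c] 0 = ∑ k : Fin (d + 1), (l * a * F (0, k)) * x ^ (k : ℕ) := by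
    intro x
    have := congrFun (hh x 1) 0
    simp only [mul_one, Matrix.cons_val_zero, zero_mul, add_zero] at this
    rw [add_zero, this, app_one, Finset.mul_sum, Finset.mul_sum]
    exact Finset.sum_congr rfl fun k _ => by ring
  have k4 := S1_next hd F' 0 a 0 c _ key0 (by rw [mul_zero])
  simp only [a4, b4] at k4
  have hca : c = a := by
    have : a ^ (d - 1) * (c - a) = 0 := by
      rw [hl'] at k4
      linear_combination -k4
    have := (mul_eq_zero.1 this).resolve_left (pow_ne_zero _ ha)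
    linear_combination this
  subst hca
  apply app_ext
  intro j
  have e := hh ((j : ℕ) : ℂ) 1
  have e1 : ![c * ((j : ℕ) : ℂ) + 0 * 1, c * 1] = c • ![((j : ℕ) : ℂ), 1] := by
    funext i
    fin_cases i
    · simp
    · simp
  rw [e1, app_smul, hl'] at e
  have hcd : c ^ (d - 1) * c = c ^ d := by
    rw [← pow_succ]
    congr 1
    omega
  funext i
  have hc' : c ^ d ≠ 0 := pow_ne_zero _ hc
  apply mul_left_cancel₀ hc'
  have e2 := congrFun e i
  fin_cases i
  · simp only [Pi.smul_apply, smul_eq_mul] at e2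
    simp at e2
    change c ^ d * app F' ![((j : ℕ) : ℂ), 1] 0 = c ^ d * app F ![((j : ℕ) : ℂ), 1] 0
    rw [e2, ← hcd]
    ring
  · simp only [Pi.smul_apply, smul_eq_mul] at e2
    simp at e2
    change c ^ d * app F' ![((j : ℕ) : ℂ), 1] 1 = c ^ d * app F ![((j : ℕ) : ℂ), 1] 1
    rw [e2, ← hcd]
    ring

end

end Pool.Agent.Lib.H90M
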