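import Pool.Agent.Lib.H90M.T0

/-!
# S2 (M): normal form for `n = 2`
-/

namespace Pool.Agent.Lib.H90M

open MvPolynomial

noncomputable section

variable {d : ℕ}

/-- The matrix which maps the marked point and its image to `∞, 0`. -/
def g2 (v : Coord d → ℂ) : Matrix (Fin 2) (Fin 2) ℂ :=
  !![app (mapOf v) (ptOf v) 1, -(app (mapOf v) (ptOf v) 0); ptOf v 1, -(ptOf v 0)]

/-- The normalised map. -/
def G2 (v : Coord d → ℂ) : Fin 2 × Fin (d + 1) → ℂ := act (g2 v) (g2 v).adjugate (mapOf v)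

theorem isPoly_G2 (x : Fin 2 × Fin (d + 1)) : IsPoly (fun v : Coord d → ℂ => G2 v x) := by
  have hF : ∀ x, IsPoly fun v : Coord d → ℂ => mapOf v x := fun x => isPoly_coord (Sum.inl x)
  have hp : ∀ i, IsPoly fun v : Coord d → ℂ => ptOf v i := fun i => isPoly_coord (Sum.inr i)
  have hA : ∀ i j, IsPoly fun v : Coord d → ℂ => g2 v i j := by
    intro i j
    fin_cases i <;> fin_cases j
    · exact isPoly_app hF hp 1
    · exact isPoly_neg (isPoly_app hF hp 0)
    · exact hp 1
    · exact isPoly_neg (hp 0)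
  exact isPoly_act hA (isPoly_adj hA) hF x

/-- PROOF. `g2 v q = (wd q p₁, wd q p₀)` with `p₀ = ptOf v`, `p₁ = app f p₀`; `det = ± wd p₀ p₁ ≠ 0`. `app (G2 v) (g q) = det^d • g (f q)`. With `q = p₀`: `app (G2 v)` maps `(1, 0)` to a
multiple of `g p₁ ∥ (0, 1)`, so `G2 v (0, d) = 0` (`app_axes`); with `q = p₁`: `(0, 1)` to a multiple of `g p₂ ∥ g p₀ ∥ (1, 0)`, so `G2 v (1, 0) = 0`. -/
theorem normalise2 {v : Coord d → ℂ} (hv : v ∈ Marked d 2) : IsMap (G2 v) ∧ G2 v (0, Fin.last d) = 0 ∧ G2 v (1, 0) = 0 ∧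
    Conj v (mk (G2 v) ![1, 0]) := by
  obtain ⟨hmap, hp0, h2, h1⟩ := hv
  have hw1 : wd (app (mapOf v) (ptOf v)) (ptOf v) ≠ 0 := h1 1 one_pos (by norm_num)
  have hw2 : wd (app (mapOf v) (app (mapOf v) (ptOf v))) (ptOf v) = 0 := h2
  have hdet : (g2 v).det = wd (app (mapOf v) (ptOf v)) (ptOf v) := by
    unfold g2 wd
    rw [Matrix.det_fin_two_of]
    ring
  have hdet0 : (g2 v).det ≠ 0 := by rw [hdet]; exact hw1
  have hadj : (g2 v).adjugate = !![-(ptOf v 0), app (mapOf v) (ptOf v) 0; -(ptOf v 1), app (mapOf v) (ptOf v) 1] := by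
    unfold g2
    rw [Matrix.adjugate_fin_two_of, neg_neg]
  have hg (q : Fin 2 → ℂ) : (g2 v).mulVec q = ![wd q (app (mapOf v) (ptOf v)), wd q (ptOf v)] := by
    unfold g2 wd
    ext i
    fin_cases i
    · simp [Matrix.mulVec, dotProduct, Fin.sum_univ_two]
      ring
    · simp [Matrix.mulVec, dotProduct, Fin.sum_univ_two]
      ring
  have hconj : Conj v (mk (G2 v) ![1, 0]) := by
    have e1 := conj_act (g2 v) hdet0 (mapOf v) (ptOf v)
    rw [mk_eq] at e1
    have hb : wd (ptOf v) (app (mapOf v) (ptOf v)) ≠ 0 := by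
      intro h
      apply hw1
      have : wd (app (mapOf v) (ptOf v)) (ptOf v) = -wd (ptOf v) (app (mapOf v) (ptOf v)) := by
        unfold wd
        ring
      rw [this, h, neg_zero]
    have e2 := conj_smul (act (g2 v) (g2 v).adjugate (mapOf v)) ((g2 v).mulVec (ptOf v)) one_ne_zero (inv_ne_zero hb)
    have e3 : (wd (ptOf v) (app (mapOf v) (ptOf v)))⁻¹ • (g2 v).mulVec (ptOf v) = ![1, 0] := by
      rw [hg]
      ext i
      fin_cases i
      · show (wd (ptOf v) (app (mapOf v) (ptOf v)))⁻¹ * wd (ptOf v) (app (mapOf v) (ptOf v)) = 1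
        exact inv_mul_cancel₀ hb
      · show (wd (ptOf v) (app (mapOf v) (ptOf v)))⁻¹ * wd (ptOf v) (ptOf v) = 0
        have : wd (ptOf v) (ptOf v) = 0 := by
          unfold wd
          ring
        rw [this, mul_zero]
    rw [one_smul, e3] at e2
    exact e1.trans e2
  have happ (q : Fin 2 → ℂ) : app (G2 v) q = (g2 v).mulVec (app (mapOf v) ((g2 v).adjugate.mulVec q)) := act_app _ _ _ _
  refine ⟨?_, ?_, ?_, hconj⟩
  · have h : Conj (mk (mapOf v) (ptOf v)) (mk (G2 v) ![1, 0]) := by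
      rw [mk_eq]
      exact hconj
    exact isMap_of_conj h hmap
  · have e1 : (g2 v).adjugate.mulVec ![1, 0] = (-1 : ℂ) • ptOf v := by
      rw [hadj]
      ext i
      fin_cases i <;> simp [Matrix.mulVec, dotProduct, Fin.sum_univ_two]
    have e2 := happ ![1, 0]
    rw [e1, app_smul, (app_axes (G2 v)).1, hg] at e2
    have e3 := congrFun e2 0
    have e4 : G2 v (0, Fin.last d) = wd ((-1 : ℂ) ^ d • app (mapOf v) (ptOf v)) (app (mapOf v) (ptOf v)) := e3
    rw [e4]
    unfold wd
    simp only [Pi.smul_apply, smul_eq_mul]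
    ring
  · have e1 : (g2 v).adjugate.mulVec ![0, 1] = app (mapOf v) (ptOf v) := by
      rw [hadj]
      ext i
      fin_cases i <;> simp [Matrix.mulVec, dotProduct, Fin.sum_univ_two]
    have e2 := happ ![0, 1]
    rw [e1, (app_axes (G2 v)).2, hg] at e2
    have e3 := congrFun e2 1
    have e4 : G2 v (1, 0) = wd (app (mapOf v) (app (mapOf v) (ptOf v))) (ptOf v) := e3
    rw [e4]
    exact hw2

/-- PROOF. `app F ![1, 0] = ![0, F (1, d)]`, `app F ![0, 1] = ![F (0, 0), 0]` with nonzero coefficients, `app_smul`. -/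
theorem marked2 {F : Fin 2 × Fin (d + 1) → ℂ} (hF : IsMap F) (h0 : F (0, Fin.last d) = 0) (h1 : F (1, 0) = 0) :
    mk F ![1, 0] ∈ Marked d 2 := by
  have hα : F (1, Fin.last d) ≠ 0 := by
    intro h
    have hne : (![1, 0] : Fin 2 → ℂ) ≠ 0 := by
      intro h'
      have := congrFun h' 0
      simp at this
    apply hF _ hne
    rw [(app_axes F).1, h0, h]
    ext i
    fin_cases i <;> rfl
  have e1 : app F ![1, 0] = ![0, F (1, Fin.last d)] := by
    rw [(app_axes F).1, h0]
  have e2 : app F ![0, F (1, Fin.last d)] = F (1, Fin.last d) ^ d • ![F (0, 0), 0] := by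
    have e3 : (![0, F (1, Fin.last d)] : Fin 2 → ℂ) = F (1, Fin.last d) • ![0, 1] := by
      ext i
      fin_cases i <;> simp
    rw [e3, app_smul, (app_axes F).2, h1]
  refine ⟨?_, ?_, ?_, ?_⟩
  · rw [mapOf_mk]
    exact hF
  · rw [ptOf_mk]
    intro h'
    have := congrFun h' 0
    simp at this
  · rw [mapOf_mk, ptOf_mk]
    show wd (app F (app F ![1, 0])) ![1, 0] = 0
    rw [e1, e2]
    unfold wd
    simp
  · intro m hm0 hm2
    have hm : m = 1 := by omega
    subst hm
    rw [mapOf_mk, ptOf_mk]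
    show wd (app F ![1, 0]) ![1, 0] ≠ 0
    rw [e1]
    unfold wd
    simpa using hα

/-- PROOF. `irred_marked` with `𝒩 = {F | IsMap F ∧ F (0, d) = 0 ∧ F (1, 0) = 0}` (`irred_coord` with `S = {(0, d), (1, 0)}`; not empty: `F = (y^d, x^d)`), `Φ = id`. -/
theorem irred_marked2 (hd : 1 ≤ d) : Irred (Marked d 2) := by
  refine irred_marked {F : Fin 2 × Fin (d + 1) → ℂ | IsMap F ∧ ∀ x ∈ ({(0, Fin.last d), (1, 0)} : Set (Fin 2 × Fin (d + 1))), F x = 0}
    (irred_coord hd _ ?_) (fun y => y) (fun x => isPoly_coord x) ?_ ?_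
  · have hlast : Fin.last d ≠ 0 := by
      intro h
      have := congrArg Fin.val h
      simp at this
      omega
    refine ⟨fun x => if x = (0, 0) then 1 else if x = (1, Fin.last d) then 1 else 0, ?_, ?_⟩
    · intro q hq h
      have e0 : app (fun x : Fin 2 × Fin (d + 1) => if x = (0, 0) then (1 : ℂ) else if x = (1, Fin.last d) then 1 else 0) q 0 =
          q 1 ^ d := by
        unfold app
        rw [Finset.sum_eq_single (0 : Fin (d + 1))]
        · simp
        · intro k _ hk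
          have h1 : ((0 : Fin 2), k) ≠ (0, 0) := fun h => hk (Prod.mk.inj h).2
          have h2 : ((0 : Fin 2), k) ≠ (1, Fin.last d) := fun h => zero_ne_one (Prod.mk.inj h).1
          simp only [if_neg h1, if_neg h2, zero_mul]
        · intro h
          exact absurd (Finset.mem_univ _) h
      have e1 : app (fun x : Fin 2 × Fin (d + 1) => if x = (0, 0) then (1 : ℂ) else if x = (1, Fin.last d) then 1 else 0) q 1 =
          q 0 ^ d := by
        unfold app
        rw [Finset.sum_eq_single (Fin.last d)]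
        · simp
        · intro k _ hk
          have h1 : ((1 : Fin 2), k) ≠ (0, 0) := fun h => one_ne_zero (Prod.mk.inj h).1
          have h2 : ((1 : Fin 2), k) ≠ (1, Fin.last d) := fun h => hk (Prod.mk.inj h).2
          simp only [if_neg h1, if_neg h2, zero_mul]
        · intro h
          exact absurd (Finset.mem_univ _) h
      rw [h] at e0 e1
      apply hq
      have hd0 : d ≠ 0 := by omega
      ext i
      fin_cases i
      · exact (pow_eq_zero_iff hd0).1 e1.symm
      · exact (pow_eq_zero_iff hd0).1 e0.symm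
    · intro x hx
      rw [Set.mem_insert_iff, Set.mem_singleton_iff] at hx
      rcases hx with rfl | rfl
      · show (if ((0 : Fin 2), Fin.last d) = (0, 0) then (1 : ℂ) else if ((0 : Fin 2), Fin.last d) = (1, Fin.last d) then 1 else 0) = 0
        have h1 : ((0 : Fin 2), Fin.last d) ≠ (0, 0) := fun h => hlast (Prod.mk.inj h).2
        have h2 : ((0 : Fin 2), Fin.last d) ≠ (1, Fin.last d) := fun h => zero_ne_one (Prod.mk.inj h).1
        rw [if_neg h1, if_neg h2]
      · show (if ((1 : Fin 2), (0 : Fin (d + 1))) = (0, 0) then (1 : ℂ) else if ((1 : Fin 2), (0 : Fin (d + 1))) = (1, Fin.last d) then 1 else 0) = 0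
        have h1 : ((1 : Fin 2), (0 : Fin (d + 1))) ≠ (0, 0) := fun h => one_ne_zero (Prod.mk.inj h).1
        have h2 : ((1 : Fin 2), (0 : Fin (d + 1))) ≠ (1, Fin.last d) := fun h => hlast (Prod.mk.inj h).2.symm
        rw [if_neg h1, if_neg h2]
  · rintro F ⟨hF, hS⟩
    exact marked2 hF (hS _ (Set.mem_insert _ _)) (hS _ (Set.mem_insert_of_mem _ rfl))
  · intro v hv
    obtain ⟨hm, h0, h1, hc⟩ := normalise2 hv
    refine ⟨G2 v, ⟨hm, ?_⟩, hc.symm⟩
    intro x hx
    rw [Set.mem_insert_iff, Set.mem_singleton_iff] at hx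
    rcases hx with rfl | rfl
    · exact h0
    · exact h1

/-- Rigidity. PROOF. `conj_inf`. `x = 0, y = 1`: `app F' ![b, c] = l • ![a F (0,0), 0]`, and with `x = 1, y = 0`: nothing. Better: put `y = 0, x = 1`
in the identity: `app F' ![a, 0] = ![0, ..]`; and since `app F' ` maps `∞` to `0`: the point `g 0 = g (f ∞) = f' (g ∞) = f' ∞ = 0`, that is
`l * b * F (1, d) = 0` (first component at `x = 1, y = 0`: `app F' ![a, 0] 0 = a^d F' (0, d) = 0`), so `b = 0`. Then `app F' ![a x, c y] = ![l a f₀, l c f₁]` for all `x, y`;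
compare the coefficients of `x^d` and `x^(d-1) y` in the second component (for `y = 1`, polynomials in `x`): `a^d = l c`, `a^(d-1) c = l c`, so `a = c`, and
`a^d • app F' q = (l a) • app F q`, `a^d = l a`, so `F' = F` (`app_ext`). -/
theorem rigid2 (hd : 2 ≤ d) {F F' : Fin 2 × Fin (d + 1) → ℂ} (h : Conj (mk F ![1, 0]) (mk F' ![1, 0]))
    (a1 : F (0, Fin.last d) = 0) (a2 : F (1, Fin.last d) = 1) (a3 : F (1, ⟨d - 1, by omega⟩) = 1)
    (b1 : F' (0, Fin.last d) = 0) (b2 : F' (1, Fin.last d) = 1) (b3 : F' (1, ⟨d - 1, by omega⟩) = 1) : F' = F := by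
  obtain ⟨a, b, c, l, ha, hc, hl, h⟩ := conj_inf h
  have hb : b = 0 := by
    have e := h 1 0
    have e1 : (![a * 1 + b * 0, c * 0] : Fin 2 → ℂ) = a • ![1, 0] := by
      ext i
      fin_cases i <;> simp
    rw [e1, app_smul, (app_axes F').1, (app_axes F).1, a1, a2, b1, b2] at e
    have e2 := congrFun e 0
    have e3 : a ^ d * 0 = l * (a * 0 + b * 1) := e2
    rw [mul_zero, mul_zero, zero_add, mul_one] at e3
    rcases mul_eq_zero.1 e3.symm with h | h
    · exact absurd h hl
    · exact h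
  subst hb
  have key : (fun x : Fin 2 × Fin (d + 1) => F' x * (a ^ (x.2 : ℕ) * c ^ (d - (x.2 : ℕ)))) =
      fun x => l * (if x.1 = 0 then a else c) * F x := by
    refine app_ext fun j => ?_
    have e := h ((j : ℕ) : ℂ) 1
    ext i
    have e1 : app (fun x : Fin 2 × Fin (d + 1) => F' x * (a ^ (x.2 : ℕ) * c ^ (d - (x.2 : ℕ)))) ![((j : ℕ) : ℂ), 1] i =
        app F' ![a * ((j : ℕ) : ℂ) + 0 * 1, c * 1] i := by
      unfold app
      refine Finset.sum_congr rfl fun k _ => ?_
      show F' (i, k) * (a ^ (k : ℕ) * c ^ (d - (k : ℕ))) * ((j : ℕ) : ℂ) ^ (k : ℕ) * 1 ^ (d - (k : ℕ)) =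
        F' (i, k) * (a * ((j : ℕ) : ℂ) + 0 * 1) ^ (k : ℕ) * (c * 1) ^ (d - (k : ℕ))
      rw [zero_mul, add_zero, mul_one, mul_pow, one_pow]
      ring
    have e2 : app (fun x : Fin 2 × Fin (d + 1) => l * (if x.1 = 0 then a else c) * F x) ![((j : ℕ) : ℂ), 1] i =
        l * (if i = 0 then a else c) * app F ![((j : ℕ) : ℂ), 1] i := by
      unfold app
      rw [Finset.mul_sum]
      refine Finset.sum_congr rfl fun k _ => ?_
      show l * (if i = 0 then a else c) * F (i, k) * _ * _ = l * (if i = 0 then a else c) * (F (i, k) * _ * _)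
      ring
    rw [e1, e2, e]
    fin_cases i
    · show l * (a * app F ![((j : ℕ) : ℂ), 1] 0 + 0 * app F ![((j : ℕ) : ℂ), 1] 1) = l * a * app F ![((j : ℕ) : ℂ), 1] 0
      ring
    · show l * (c * app F ![((j : ℕ) : ℂ), 1] 1) = l * c * app F ![((j : ℕ) : ℂ), 1] 1
      ring
  have k1 : a ^ d = l * c := by
    have e := congrFun key (1, Fin.last d)
    have e1 : F' (1, Fin.last d) * (a ^ d * c ^ (d - d)) = l * c * F (1, Fin.last d) := e
    rw [b2, a2, Nat.sub_self, pow_zero] at e1
    linear_combination e1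
  have k2 : a ^ (d - 1) = l := by
    have e := congrFun key (1, ⟨d - 1, by omega⟩)
    have e1 : F' (1, ⟨d - 1, by omega⟩) * (a ^ (d - 1) * c ^ (d - (d - 1))) = l * c * F (1, ⟨d - 1, by omega⟩) := e
    have e2 : d - (d - 1) = 1 := by omega
    rw [b3, a3, e2, pow_one] at e1
    have e3 : (a ^ (d - 1) - l) * c = 0 := by linear_combination e1
    rcases mul_eq_zero.1 e3 with h | h
    · exact sub_eq_zero.1 h
    · exact absurd h hc
  have k3 : a = c := by
    have e1 : a ^ d = a ^ (d - 1) * a := by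
      rw [← pow_succ]
      congr 1
      omega
    have e2 : l * (a - c) = 0 := by
      rw [k1, k2] at e1
      linear_combination -e1
    rcases mul_eq_zero.1 e2 with h | h
    · exact absurd h hl
    · exact sub_eq_zero.1 h
  ext x
  have e := congrFun key x
  have e1 : F' x * (a ^ (x.2 : ℕ) * c ^ (d - (x.2 : ℕ))) = l * (if x.1 = 0 then a else c) * F x := e
  rw [← k3, ite_self, ← pow_add, Nat.add_sub_cancel' (Nat.lt_succ_iff.1 x.2.2), k1, ← k3] at e1
  have e2 : (l * a) * (F' x - F x) = 0 := by linear_combination e1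
  rcases mul_eq_zero.1 e2 with h | h
  · exact absurd h (mul_ne_zero hl ha)
  · exact sub_eq_zero.1 h

end

end Pool.Agent.Lib.H90M
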