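import Pool.Agent.Lib.H90M.I0
import Pool.Agent.Lib.H90M.B3

/-!
# T0 (M): coordinate subspaces; the torus
-/

namespace Pool.Agent.Lib.H90M

open MvPolynomial

noncomputable section

variable {d : ℕ}

/-- PROOF. Let `φ * ψ = 0` on the set, `φ F₀ ≠ 0`, `ψ F₁ ≠ 0`, `F₀, F₁` in the set, `ρ` as in `exists_rho` for `F₀`, and
`π w x = 0` for `x ∈ S`, `π w x = w x` otherwise (classical). The polynomial functions `φ ∘ π`, `ρ ∘ π` (nonzero at `F₀`) and `ψ ∘ π` (nonzero at `F₁`) have by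
`exists_common` a common point where they are nonzero, and `π w` is in the set. -/
theorem irred_coord (hd : 1 ≤ d) (S : Set (Fin 2 × Fin (d + 1)))
    (hne : ∃ F : Fin 2 × Fin (d + 1) → ℂ, IsMap F ∧ ∀ x ∈ S, F x = 0) :
    Irred {F : Fin 2 × Fin (d + 1) → ℂ | IsMap F ∧ ∀ x ∈ S, F x = 0} := by
  classical
  obtain ⟨F, hF, hFS⟩ := hne
  refine ⟨⟨F, hF, hFS⟩, fun f g hfg => ?_⟩
  by_contra hcon
  rw [not_or] at hcon
  obtain ⟨h1, h2⟩ := hcon
  push Not at h1 h2
  obtain ⟨F0, ⟨hF0, hS0⟩, hf0⟩ := h1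
  obtain ⟨F1, ⟨hF1, hS1⟩, hg1⟩ := h2
  obtain ⟨ρ, hρ, hρ0, hρ1⟩ := exists_rho hd F0 hF0
  have hπ : ∀ x, IsPoly fun w : Fin 2 × Fin (d + 1) → ℂ => (fun y => if y ∈ S then (0 : ℂ) else w y) x := by
    intro x
    by_cases hx : x ∈ S
    · have e : (fun w : Fin 2 × Fin (d + 1) → ℂ => (fun y => if y ∈ S then (0 : ℂ) else w y) x) = fun _ => (0 : ℂ) := by
        funext w
        exact if_pos hx
      rw [e]
      exact isPoly_const 0
    · have e : (fun w : Fin 2 × Fin (d + 1) → ℂ => (fun y => if y ∈ S then (0 : ℂ) else w y) x) = fun w => w x := by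
        funext w
        exact if_neg hx
      rw [e]
      exact isPoly_coord x
  have hfix : ∀ G : Fin 2 × Fin (d + 1) → ℂ, (∀ x ∈ S, G x = 0) → (fun y => if y ∈ S then (0 : ℂ) else G y) = G := by
    intro G hG
    funext y
    by_cases hy : y ∈ S
    · rw [if_pos hy, hG y hy]
    · rw [if_neg hy]
  have p1 : IsPoly fun w : Fin 2 × Fin (d + 1) → ℂ => eval (fun y => if y ∈ S then (0 : ℂ) else w y) f :=
    isPoly_comp (φ := fun w => eval w f) ⟨f, fun _ => rfl⟩ hπ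
  have p2 : IsPoly fun w : Fin 2 × Fin (d + 1) → ℂ => ρ (fun y => if y ∈ S then (0 : ℂ) else w y) :=
    isPoly_comp hρ hπ
  have p3 : IsPoly fun w : Fin 2 × Fin (d + 1) → ℂ => eval (fun y => if y ∈ S then (0 : ℂ) else w y) g :=
    isPoly_comp (φ := fun w => eval w g) ⟨g, fun _ => rfl⟩ hπ
  obtain ⟨w, hw1, hw2⟩ := exists_common (isPoly_mul p1 p2) p3 ⟨F0, by
    rw [hfix F0 hS0]
    exact mul_ne_zero hf0 hρ0⟩ ⟨F1, by
    rw [hfix F1 hS1]
    exact hg1⟩
  have hmem : (fun y => if y ∈ S then (0 : ℂ) else w y) ∈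
      {F : Fin 2 × Fin (d + 1) → ℂ | IsMap F ∧ ∀ x ∈ S, F x = 0} :=
    ⟨hρ1 _ (right_ne_zero_of_mul hw1), fun x hx => if_pos hx⟩
  rcases hfg _ hmem with h | h
  · exact left_ne_zero_of_mul hw1 h
  · exact hw2 h

/-- The exponent of the torus. -/
def ex {d : ℕ} (x : Fin 2 × Fin (d + 1)) : ℕ := if x.1 = 0 then d + 1 - (x.2 : ℕ) else d - (x.2 : ℕ)

/-- The rescaled pair of forms. PROOF. `conj_act` with `g = !![t, 0; 0, 1]` (`Matrix.adjugate_fin_two_of`), `conj_smul` (to replace the vector `(t, 0)` by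
`(1, 0)` and to multiply with `c`), `Conj.trans`, `act_diag`. -/
theorem conj_torus (t c : ℂ) (ht : t ≠ 0) (hc : c ≠ 0) (F : Fin 2 × Fin (d + 1) → ℂ) :
    Conj (mk F ![1, 0]) (mk (fun x => c * (t ^ ex x * F x)) ![1, 0]) := by
  have hdet : (!![t, 0; 0, 1] : Matrix (Fin 2) (Fin 2) ℂ).det ≠ 0 := by
    rw [Matrix.det_fin_two_of]
    simpa using ht
  have e1 := conj_act !![t, 0; 0, 1] hdet F ![1, 0]
  have e2 : (!![t, 0; 0, 1] : Matrix (Fin 2) (Fin 2) ℂ).mulVec ![1, 0] = ![t, 0] := by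
    ext i
    fin_cases i <;> simp [Matrix.mulVec, dotProduct, Fin.sum_univ_two]
  have e3 : (!![t, 0; 0, 1] : Matrix (Fin 2) (Fin 2) ℂ).adjugate = !![1, 0; 0, t] := by
    rw [Matrix.adjugate_fin_two_of, neg_zero]
  rw [e2, e3] at e1
  have e4 := conj_smul (act !![t, 0; 0, 1] !![1, 0; 0, t] F) ![t, 0] hc (inv_ne_zero ht)
  have e5 : t⁻¹ • (![t, 0] : Fin 2 → ℂ) = ![1, 0] := by
    ext i
    fin_cases i
    · exact inv_mul_cancel₀ ht
    · exact mul_zero _
  have e6 : c • act !![t, 0; 0, 1] !![1, 0; 0, t] F = fun x => c * (t ^ ex x * F x) := by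
    funext x
    obtain ⟨i, k⟩ := x
    have hk : (k : ℕ) ≤ d := Nat.lt_succ_iff.1 k.2
    have e7 := act_diag t 1 F k
    fin_cases i
    · show c * act !![t, 0; 0, 1] !![1, 0; 0, t] F (0, k) = c * (t ^ ex ((0 : Fin 2), k) * F (0, k))
      rw [e7.1]
      have e8 : ex ((0 : Fin 2), k) = d - (k : ℕ) + 1 := by
        show d + 1 - (k : ℕ) = d - (k : ℕ) + 1
        omega
      rw [e8, one_pow, one_mul, pow_succ]
      ring
    · show c * act !![t, 0; 0, 1] !![1, 0; 0, t] F (1, k) = c * (t ^ ex ((1 : Fin 2), k) * F (1, k))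
      rw [e7.2]
      have e8 : ex ((1 : Fin 2), k) = d - (k : ℕ) := rfl
      rw [e8, one_pow, one_mul, one_mul]
  rw [e5, e6] at e4
  exact e1.trans e4

/-- A matrix which fixes the point `∞`. PROOF. Directly from the definition: `![1, 0] = b • g.mulVec ![1, 0]`. -/
theorem conj_inf {F F' : Fin 2 × Fin (d + 1) → ℂ} (h : Conj (mk F ![1, 0]) (mk F' ![1, 0])) :
    ∃ a b c l : ℂ, a ≠ 0 ∧ c ≠ 0 ∧ l ≠ 0 ∧
      ∀ x y : ℂ, app F' ![a * x + b * y, c * y] =
        ![l * (a * app F ![x, y] 0 + b * app F ![x, y] 1), l * (c * app F ![x, y] 1)] := by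
  obtain ⟨g, α, β, hdet, hα, hβ, hq, hp⟩ := h
  rw [mapOf_mk, mapOf_mk] at hq
  rw [ptOf_mk, ptOf_mk] at hp
  have hg (x y : ℂ) : g.mulVec ![x, y] = ![g 0 0 * x + g 0 1 * y, g 1 0 * x + g 1 1 * y] := by
    ext i
    fin_cases i <;> simp [Matrix.mulVec, dotProduct, Fin.sum_univ_two]
  rw [hg] at hp
  have h10 : g 1 0 = 0 := by
    have e := congrFun hp 1
    have e1 : (0 : ℂ) = β * (g 1 0 * 1 + g 1 1 * 0) := e
    rw [mul_one, mul_zero, add_zero] at e1
    rcases mul_eq_zero.1 e1.symm with h | h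
    · exact absurd h hβ
    · exact h
  rw [Matrix.det_fin_two, h10, mul_zero, sub_zero] at hdet
  refine ⟨g 0 0, g 0 1, g 1 1, α, left_ne_zero_of_mul hdet, right_ne_zero_of_mul hdet, hα, fun x y => ?_⟩
  have e := hq ![x, y]
  have e2 : app F ![x, y] = ![app F ![x, y] 0, app F ![x, y] 1] := by
    ext i
    fin_cases i <;> rfl
  rw [e2, hg, hg, h10, zero_mul, zero_add, zero_mul, zero_add] at e
  rw [e]
  ext i
  fin_cases i <;> rfl

/-- A map is not the zero vector, and not both leading coefficients vanish. PROOF. `app F ![1, 0] = ![F (0, d), F (1, d)]`, and `app F ![0, 1] = ![F (0, 0), F (1, 0)]`. -/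
theorem app_axes (F : Fin 2 × Fin (d + 1) → ℂ) : app F ![1, 0] = ![F (0, Fin.last d), F (1, Fin.last d)] ∧
    app F ![0, 1] = ![F (0, 0), F (1, 0)] := by
  constructor
  · have e (i : Fin 2) : app F ![1, 0] i = F (i, Fin.last d) := by
      unfold app
      rw [Finset.sum_eq_single (Fin.last d)]
      · simp
      · intro k _ hk
        have h1 : (k : ℕ) < d := lt_of_le_of_ne (Nat.lt_succ_iff.1 k.2) fun h => hk (Fin.ext h)
        have h2 : d - (k : ℕ) ≠ 0 := by omega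
        show F (i, k) * 1 ^ (k : ℕ) * 0 ^ (d - (k : ℕ)) = 0
        rw [zero_pow h2, mul_zero]
      · intro h
        exact absurd (Finset.mem_univ _) h
    ext i
    rw [e i]
    fin_cases i <;> rfl
  · have e (i : Fin 2) : app F ![0, 1] i = F (i, 0) := by
      unfold app
      rw [Finset.sum_eq_single (0 : Fin (d + 1))]
      · simp
      · intro k _ hk
        have h2 : (k : ℕ) ≠ 0 := fun h => hk (Fin.ext h)
        show F (i, k) * 0 ^ (k : ℕ) * 1 ^ (d - (k : ℕ)) = 0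
        rw [zero_pow h2, mul_zero, zero_mul]
      · intro h
        exact absurd (Finset.mem_univ _) h
    ext i
    rw [e i]
    fin_cases i <;> rfl

/-- Conjugate maps. -/
theorem isMap_of_conj {F F' : Fin 2 × Fin (d + 1) → ℂ} {p p' : Fin 2 → ℂ} (h : Conj (mk F p) (mk F' p')) (hF : IsMap F) :
    IsMap F' := by
  obtain ⟨g, α, β, hdet, hα, hβ, hq, hp⟩ := h
  rw [mapOf_mk, mapOf_mk] at hq
  have hu : IsUnit g.det := isUnit_iff_ne_zero.2 hdet
  intro q hq0 h0
  have e1 : g.mulVec (g⁻¹.mulVec q) = q := by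
    rw [Matrix.mulVec_mulVec, Matrix.mul_nonsing_inv g hu, Matrix.one_mulVec]
  have hr : g⁻¹.mulVec q ≠ 0 := by
    intro h
    rw [h, Matrix.mulVec_zero] at e1
    exact hq0 e1.symm
  have e2 := hq (g⁻¹.mulVec q)
  rw [e1, h0] at e2
  have e3 : g.mulVec (app F (g⁻¹.mulVec q)) = 0 := by
    rcases smul_eq_zero.1 e2.symm with h | h
    · exact absurd h hα
    · exact h
  have e4 : app F (g⁻¹.mulVec q) = 0 := by
    have e5 : g⁻¹.mulVec (g.mulVec (app F (g⁻¹.mulVec q))) = app F (g⁻¹.mulVec q) := by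
      rw [Matrix.mulVec_mulVec, Matrix.nonsing_inv_mul g hu, Matrix.one_mulVec]
    rw [← e5, e3, Matrix.mulVec_zero]
  exact hF _ hr e4

end

end Pool.Agent.Lib.H90M
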